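import Pool.Agent.Lib.MP_72c78a_ag_Q2.DerB

/-!
# JOB DerC: the presentation of the module of derivations

Notation: `F = algebraMap Q S f`. The vector fields `D.δ j` have degree one (`D.δ j c` is a sum of terms
`a * D.Φ i c` with `a` in the image of `Q`; `Fr.e 1` is `Q`-linear, `hΦ`), and
`F ∣ dt (D.δ j) D.n` (`PD.delta_n`, `hpf`), `D.n = Fr.grad F` (`hn`); so `Frame.der_R` gives derivations `d j` of `R`.
`Ψ σ = ∑ j, π (σ j) • d j` (build the semilinear map by hand: `map_add'`, `map_smul'` by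
`Finset.sum_add_distrib`, `Finset.smul_sum`, `map_mul`, `mul_smul`).
`φ w` = the formula of `PD.adj` with the entries `q12, …, q34 : Q`; `algebraMap (φ w i) = D.adj (algebraMap ∘ w) i`.
* `φ` is injective: `D.mul (D.adj w) i = -D.pf * w i` (`PD.mul_adj`), `D.pf = κ F ≠ 0` in the domain `S`.
* Key fact (K): for `σ : Fin 4 → Q`: `Ψ σ = 0` iff `F ∣ ∑ j, algebraMap (σ j) * D.δ j c` for all `c`.
  For `q : Q`, `(Ψ σ) (π q) = π r` with `algebraMap r = dt θ (Fr.grad (algebraMap q))`, `θ c = ∑ j, algebraMap (σ j) * D.δ j c`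
  (linearity of `dt` in the first argument). If `F ∣ θ c` for all `c` then `F ∣ algebraMap r`, `f ∣ r` (`Fr.dvd_of_dvd`),
  `π r = 0`; `π` is surjective so `Ψ σ = 0`. Conversely take `q` with `algebraMap q = x c ^ 3` (`Fr.exists_mon c c c`): then
  `algebraMap r = 3 * x c ^ 2 * θ c` (`Fr.dd_X`, Leibniz), and `F ∣ 3 * x c ^ 2 * θ c` gives `F ∣ θ c`
  (`3` is a unit because `k` has characteristic zero, `Par.regx` for the pair starting with `x c`).
* exactness: by (K), `PD.coreB` (with `hN` from `Par.hN`): `Ψ σ = 0` implies `algebraMap ∘ σ = D.adj w` for some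
  `w : Fin 4 → S`; apply `Fr.e 0` (entries of `D` are in `Q`, `Fr.e 0` is `Q`-linear, `Fr.e_alg`):
  `algebraMap (σ i) = D.adj (Fr.e 0 ∘ w) i`, and `Fr.e 0 (w i) = algebraMap (w' i)` (`Fr.e_mem`), so `σ = φ w'` (`Fr.inj`).
  Conversely for `σ = φ w`: `∑ j, D.adj w j * D.δ j c = D.pf * _` (`PD.adj_rel`) is divisible by `F`.
* surjectivity: for a derivation `d` of `R` take `θ` from `Frame.exists_theta`. With `q = f`: the element
  `r : Q` with `algebraMap r = dt θ (Fr.grad F)` (`Fr.e_dot`, `Fr.exists_of_e_zero`) satisfies `π r = d (π f) = d 0 = 0`, so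
  `F ∣ dt θ D.n`. `PD.coreA` (`hN`, `hd` from `Par.hN`, `Par.hd`) gives `σ : Fin 4 → S` with
  `F ∣ θ c + ∑ j, σ j * D.δ j c`; apply `Fr.e 1` (`Fr.dvd_e`, `Fr.e_mul 1 0 (D.δ j c) (σ j)`, `Fr.e_mem`): there is
  `q : Fin 4 → Q` with `F ∣ θ c + ∑ j, algebraMap (q j) * D.δ j c`. Then `d = Ψ (-q)`: both sides applied to `π p`
  are `π` of elements of `Q` whose images in `S` differ by a multiple of `F`.
-/

set_option autoImplicit false

namespace MP72Q2

universe u

variable {k Q S : Type u} [Field k] [CharZero k] [CommRing Q] [CommRing S] [IsDomain S]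
  [Algebra k Q] [Algebra k S] [Algebra Q S]

namespace Frame

variable (Fr : Frame k Q S)

omit [CharZero k] [IsDomain S] in
private theorem DerC_dt_mul (θ : Fin 3 → S) (a b : S) :
    dt θ (Fr.grad (a * b)) = a * dt θ (Fr.grad b) + b * dt θ (Fr.grad a) := by
  simp only [dt, Frame.grad, Derivation.leibniz, smul_eq_mul]
  ring

omit [CharZero k] [IsDomain S] in
private theorem DerC_dt_X (θ : Fin 3 → S) (i : Fin 3) : dt θ (Fr.grad (Fr.X i)) = θ i := by
  simp only [dt, Frame.grad, Fr.dd_X]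
  fin_cases i <;> simp

omit [CharZero k] [IsDomain S] in
private theorem DerC_lin (i : ZMod 3) (q : Q) (x : S) :
    Fr.e i (algebraMap Q S q * x) = algebraMap Q S q * Fr.e i x := by
  rw [← Algebra.smul_def, map_smul, Algebra.smul_def]

/-- the entries of the matrix are in `Q` -/
private structure DerC_En (k Q S : Type u) [Field k] [CommRing Q] [CommRing S] [Algebra k Q]
    [Algebra k S] [Algebra Q S] (D : PD S) where
  q12 : Q
  q13 : Q
  q14 : Q
  q23 : Q
  q24 : Q
  q34 : Q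
  h12 : algebraMap Q S q12 = D.a12
  h13 : algebraMap Q S q13 = D.a13
  h14 : algebraMap Q S q14 = D.a14
  h23 : algebraMap Q S q23 = D.a23
  h24 : algebraMap Q S q24 = D.a24
  h34 : algebraMap Q S q34 = D.a34

/-- the Pfaffian adjoint over `Q` -/
private def DerC_En.phi {D : PD S} (E : DerC_En k Q S D) : (Fin 4 → Q) →ₗ[Q] (Fin 4 → Q) where
  toFun w := ![E.q34 * w 1 - E.q24 * w 2 + E.q23 * w 3, -E.q34 * w 0 + E.q14 * w 2 - E.q13 * w 3,
    E.q24 * w 0 - E.q14 * w 1 + E.q12 * w 3, -E.q23 * w 0 + E.q13 * w 1 - E.q12 * w 2]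
  map_add' x y := by
    funext i
    fin_cases i <;> simp <;> ring
  map_smul' c x := by
    funext i
    fin_cases i <;> simp <;> ring

omit [CharZero k] [IsDomain S] in
private theorem DerC_phi {D : PD S} (E : DerC_En k Q S D) (w : Fin 4 → Q) (i : Fin 4) :
    algebraMap Q S (E.phi w i) = D.adj (fun j => algebraMap Q S (w j)) i := by
  fin_cases i <;> simp [DerC_En.phi, PD.adj, E.h12, E.h13, E.h14, E.h23, E.h24, E.h34]

omit [CharZero k] [IsDomain S] in
private theorem DerC_adj {D : PD S} (E : DerC_En k Q S D) (i : ZMod 3) (w : Fin 4 → S) (j : Fin 4) :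
    Fr.e i (D.adj w j) = D.adj (fun j => Fr.e i (w j)) j := by
  fin_cases j <;>
    simp [PD.adj, ← E.h12, ← E.h13, ← E.h14, ← E.h23, ← E.h24, ← E.h34, DerC_lin]

omit [CharZero k] [IsDomain S] in
private theorem DerC_mul {D : PD S} (E : DerC_En k Q S D) (i : ZMod 3) (w : Fin 4 → S) (j : Fin 4) :
    Fr.e i (D.mul w j) = D.mul (fun j => Fr.e i (w j)) j := by
  fin_cases j <;>
    simp [PD.mul, ← E.h12, ← E.h13, ← E.h14, ← E.h23, ← E.h24, ← E.h34, DerC_lin]

/-- the semilinear map -/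
private def DerC_Psi {R : Type u} [CommRing R] [Algebra k R] (π : Q →ₐ[k] R)
    (d : Fin 4 → Derivation k R R) : (Fin 4 → Q) →ₛₗ[(π : Q →+* R)] Derivation k R R where
  toFun σ := ∑ j, π (σ j) • d j
  map_add' x y := by
    rw [← Finset.sum_add_distrib]
    refine Finset.sum_congr rfl fun j _ => ?_
    rw [Pi.add_apply, map_add, add_smul]
  map_smul' c x := by
    rw [Finset.smul_sum]
    refine Finset.sum_congr rfl fun j _ => ?_
    rw [Pi.smul_apply, smul_eq_mul, map_mul, mul_smul]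
    rfl

omit [CharZero k] [IsDomain S] in
private theorem DerC_apply {R : Type u} [CommRing R] [Algebra k R] (π : Q →ₐ[k] R)
    (D : PD S) (hδ : ∀ j c, Fr.e 1 (D.δ j c) = D.δ j c) (d : Fin 4 → Derivation k R R)
    (hd : ∀ j, ∀ q r : Q, algebraMap Q S r = dt (D.δ j) (Fr.grad (algebraMap Q S q)) →
      d j (π q) = π r) (σ : Fin 4 → Q) (q r : Q)
    (h : algebraMap Q S r = dt (fun c => ∑ j, algebraMap Q S (σ j) * D.δ j c)
      (Fr.grad (algebraMap Q S q))) : DerC_Psi π d σ (π q) = π r := by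
  choose r' hr' using fun j => Fr.exists_of_e_zero (Fr.e_dot (hδ j) q)
  have h1 : DerC_Psi π d σ (π q) = ∑ j, π (σ j) * d j (π q) := by
    show (∑ j, π (σ j) • d j) (π q) = _
    rw [Fin.sum_univ_four, Fin.sum_univ_four]
    rfl
  have h2 : r = ∑ j, σ j * r' j := by
    apply Fr.inj
    rw [h, map_sum]
    simp only [map_mul, hr', dt, Fin.sum_univ_four]
    ring
  rw [h1, h2, map_sum]
  refine Finset.sum_congr rfl fun j _ => ?_
  rw [map_mul, hd j q (r' j) (hr' j)]

theorem der_main {f : Q} (D : PD S) {κ : S} (q12 q13 q14 q23 q24 q34 : Q)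
    (h12 : algebraMap Q S q12 = D.a12) (h13 : algebraMap Q S q13 = D.a13)
    (h14 : algebraMap Q S q14 = D.a14) (h23 : algebraMap Q S q23 = D.a23)
    (h24 : algebraMap Q S q24 = D.a24) (h34 : algebraMap Q S q34 = D.a34)
    (hΦ : ∀ j c, Fr.e 1 (D.Φ j c) = D.Φ j c) (hn : ∀ c, D.n c = Fr.dd c (algebraMap Q S f))
    (hκ : IsUnit κ) (hpf : D.pf = κ * algebraMap Q S f)
    (P01 : Par (Fr.X 0) (Fr.X 1) (algebraMap Q S f))
    (P12 : Par (Fr.X 1) (Fr.X 2) (algebraMap Q S f))
    (P20 : Par (Fr.X 2) (Fr.X 0) (algebraMap Q S f))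
    {N : ℕ} {s t : Fin 3 → S} (hs : Fr.X 0 ^ N = dt s D.n) (ht : Fr.X 1 ^ N = dt t D.n)
    {R : Type u} [CommRing R] [Algebra k R] (π : Q →ₐ[k] R) (hπ : Function.Surjective π)
    (hker : ∀ q, π q = 0 ↔ f ∣ q) :
    ∃ (φ : (Fin 4 → Q) →ₗ[Q] (Fin 4 → Q)) (Ψ : (Fin 4 → Q) →ₛₗ[(π : Q →+* R)] Derivation k R R),
      Function.Injective φ ∧ Function.Surjective Ψ ∧ ∀ σ, Ψ σ = 0 ↔ ∃ w, φ w = σ := by
  classical
  let E : DerC_En k Q S D := ⟨q12, q13, q14, q23, q24, q34, h12, h13, h14, h23, h24, h34⟩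
  have hgrad : D.n = Fr.grad (algebraMap Q S f) := funext hn
  have hpf' : algebraMap Q S f ∣ D.pf := ⟨κ, by rw [hpf, mul_comm]⟩
  have hF0 : algebraMap Q S f ≠ 0 := P01.f0
  have hFn : algebraMap Q S f ∈ nonZeroDivisors S := mem_nonZeroDivisors_of_ne_zero hF0
  have hpf0 : D.pf ≠ 0 := by
    rw [hpf]
    exact mul_ne_zero hκ.ne_zero hF0
  have hN : ∀ m, (∀ c, algebraMap Q S f ∣ D.n c * m) → algebraMap Q S f ∣ m :=
    fun m hm => P01.hN hs m hm
  have hδ : ∀ j c, Fr.e 1 (D.δ j c) = D.δ j c := by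
    intro j c
    rw [PD.δ, DerC_mul Fr E]
    congr 1
    funext i
    exact hΦ i c
  have hδn : ∀ j, algebraMap Q S f ∣ dt (D.δ j) (Fr.grad (algebraMap Q S f)) := by
    intro j
    rw [← hgrad]
    exact hpf'.trans (D.delta_n j)
  choose d hd using fun j => Fr.der_R π hπ hker (D.δ j) (hδ j) (hδn j)
  have happ := fun σ q r h => DerC_apply Fr π D hδ d hd σ q r h
  have hθ1 : ∀ (σ : Fin 4 → Q) (c : Fin 3), Fr.e 1 (∑ j, algebraMap Q S (σ j) * D.δ j c) =
      ∑ j, algebraMap Q S (σ j) * D.δ j c := by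
    intro σ c
    rw [map_sum]
    refine Finset.sum_congr rfl fun j _ => ?_
    rw [DerC_lin, hδ]
  have hreg : ∀ (i : Fin 3) (c : S), algebraMap Q S f ∣ Fr.X i * c → algebraMap Q S f ∣ c := by
    intro i c h
    fin_cases i
    · exact P01.regx h
    · exact P12.regx h
    · exact P20.regx h
  have h3u : algebraMap k S 3⁻¹ * 3 = 1 := by
    have h1 : (3 : S) = algebraMap k S 3 := (map_ofNat (algebraMap k S) 3).symm
    rw [h1, ← map_mul, inv_mul_cancel₀ (by norm_num : (3 : k) ≠ 0), map_one]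
  have key : ∀ σ : Fin 4 → Q, DerC_Psi π d σ = 0 ↔
      ∀ c, algebraMap Q S f ∣ ∑ j, algebraMap Q S (σ j) * D.δ j c := by
    intro σ
    constructor
    · intro h c
      obtain ⟨q, hq⟩ := Fr.exists_mon c c c
      obtain ⟨r, hr⟩ := Fr.exists_of_e_zero (Fr.e_dot (hθ1 σ) q)
      have h1 := happ σ q r hr
      rw [h] at h1
      have h2 : π r = 0 := h1.symm
      have h3 := map_dvd (algebraMap Q S) ((hker r).1 h2)
      rw [hr, hq, DerC_dt_mul, DerC_dt_mul, DerC_dt_X] at h3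
      have h4 : algebraMap Q S f ∣
          Fr.X c * (Fr.X c * (∑ j, algebraMap Q S (σ j) * D.δ j c)) := by
        refine (h3.mul_left (algebraMap k S 3⁻¹)).trans (dvd_of_eq ?_)
        linear_combination (Fr.X c * Fr.X c * (∑ j, algebraMap Q S (σ j) * D.δ j c)) * h3u
      exact hreg _ _ (hreg _ _ h4)
    · intro h
      ext x
      obtain ⟨q, rfl⟩ := hπ x
      obtain ⟨r, hr⟩ := Fr.exists_of_e_zero (Fr.e_dot (hθ1 σ) q)
      rw [happ σ q r hr]
      show π r = 0
      rw [hker]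
      apply Fr.dvd_of_dvd
      rw [hr]
      exact dvd_add (dvd_add ((h 0).mul_right _) ((h 1).mul_right _)) ((h 2).mul_right _)
  refine ⟨E.phi, DerC_Psi π d, ?_, ?_, ?_⟩
  · rw [injective_iff_map_eq_zero]
    intro w hw
    funext i
    apply Fr.inj
    have h1 : D.adj (fun j => algebraMap Q S (w j)) = 0 := by
      funext j
      rw [← DerC_phi E, hw]
      exact map_zero _
    have h2 := D.mul_adj (fun j => algebraMap Q S (w j)) i
    rw [h1] at h2
    have h3 : D.mul 0 i = 0 := by fin_cases i <;> simp [PD.mul]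
    rw [h3] at h2
    have h4 : D.pf * algebraMap Q S (w i) = 0 := by linear_combination h2
    rw [Pi.zero_apply, map_zero]
    exact (mul_eq_zero.1 h4).resolve_left hpf0
  · intro d₀
    obtain ⟨θ, hθ, hθd⟩ := Fr.exists_theta π hπ hker P01 P12 P20 d₀
    obtain ⟨r, hr⟩ := Fr.exists_of_e_zero (Fr.e_dot hθ f)
    have h1 := hθd f r hr
    rw [(hker f).2 dvd_rfl, map_zero] at h1
    have h2 : algebraMap Q S f ∣ dt θ D.n := by
      rw [hgrad, ← hr]
      exact map_dvd (algebraMap Q S) ((hker r).1 h1.symm)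
    obtain ⟨σ, hσ⟩ := PD.coreA hκ hpf hFn hN (fun w h => P01.hd hs ht w h) θ h2
    choose q hq using fun j => Fr.e_mem (σ j)
    have h3 : ∀ c, algebraMap Q S f ∣ θ c + ∑ j, algebraMap Q S (q j) * D.δ j c := by
      intro c
      have h4 := Fr.dvd_e 1 (hσ c)
      rw [map_add, hθ, map_sum] at h4
      have h5 : ∀ j, Fr.e 1 (σ j * D.δ j c) = algebraMap Q S (q j) * D.δ j c := by
        intro j
        have h6 := Fr.e_mul 1 0 (D.δ j c) (σ j) (hδ j c)
        rw [add_zero] at h6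
        rw [mul_comm, h6, hq, mul_comm]
      simp only [h5] at h4
      exact h4
    refine ⟨-q, ?_⟩
    ext x
    obtain ⟨p, rfl⟩ := hπ x
    obtain ⟨r₁, hr₁⟩ := Fr.exists_of_e_zero (Fr.e_dot (hθ1 (-q)) p)
    obtain ⟨r₂, hr₂⟩ := Fr.exists_of_e_zero (Fr.e_dot hθ p)
    rw [happ (-q) p r₁ hr₁, hθd p r₂ hr₂, ← sub_eq_zero, ← map_sub, hker]
    apply Fr.dvd_of_dvd
    have h7 : algebraMap Q S (r₁ - r₂) =
        -dt (fun c => θ c + ∑ j, algebraMap Q S (q j) * D.δ j c) (Fr.grad (algebraMap Q S p)) := by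
      rw [map_sub, hr₁, hr₂]
      simp only [dt, Pi.neg_apply, map_neg, neg_mul, Finset.sum_neg_distrib]
      ring
    rw [h7, dvd_neg]
    exact dvd_add (dvd_add ((h3 0).mul_right _) ((h3 1).mul_right _)) ((h3 2).mul_right _)
  · intro σ
    rw [key]
    constructor
    · intro h
      obtain ⟨w, hw⟩ := PD.coreB hκ hpf hFn hN (fun j => algebraMap Q S (σ j)) h
      choose w' hw' using fun j => Fr.e_mem (w j)
      refine ⟨w', funext fun i => Fr.inj ?_⟩
      rw [DerC_phi E]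
      simp only [hw']
      rw [← DerC_adj Fr E, ← hw]
      exact Fr.e_alg (σ i)
    · rintro ⟨w, rfl⟩ c
      have h1 : ∑ j, algebraMap Q S (E.phi w j) * D.δ j c =
          ∑ j, D.adj (fun j => algebraMap Q S (w j)) j * D.δ j c :=
        Finset.sum_congr rfl fun j _ => by rw [DerC_phi E]
      rw [h1, D.adj_rel]
      exact hpf'.mul_right _

end Frame

end MP72Q2
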