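import Pool.Agent.Lib.MP_72c78a_ag_Q2.Core

/-!
# The explicit skew matrix and the explicit polynomial

`p`, `t`, `q` have weights `1`, `1`, `2`.
-/

set_option autoImplicit false

namespace MP72Q2

/-- the part of weight `3` -/
def L3 : List (ℤ × ℕ × ℕ × ℕ) :=
  [(2, 3, 0, 0), (-6, 1, 0, 1), (6, 0, 3, 0)]

/-- the part of weight `4` -/
def L4 : List (ℤ × ℕ × ℕ × ℕ) :=
  [(36, 4, 0, 0), (36, 3, 1, 0), (-108, 2, 0, 1), (72, 1, 3, 0), (-72, 1, 1, 1), (36, 0, 4, 0),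
    (36, 0, 2, 1), (36, 0, 0, 2)]

/-- the part of weight `5` -/
def L5 : List (ℤ × ℕ × ℕ × ℕ) :=
  [(828, 5, 0, 0), (1584, 4, 1, 0), (720, 3, 2, 0), (-2700, 3, 0, 1), (1476, 2, 3, 0),
    (-3672, 2, 1, 1), (1368, 1, 4, 0), (-216, 1, 2, 1), (1656, 1, 0, 2), (-144, 0, 5, 0),
    (-144, 0, 3, 1), (936, 0, 1, 2)]

/-- the part of weight `6` -/
def L6 : List (ℤ × ℕ × ℕ × ℕ) :=
  [(21888, 6, 0, 0), (60336, 5, 1, 0), (52560, 4, 2, 0), (-79056, 4, 0, 1), (52224, 3, 3, 0),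
    (-163296, 3, 1, 1), (57744, 2, 4, 0), (-76752, 2, 2, 1), (68400, 2, 0, 2), (9792, 1, 5, 0),
    (-25344, 1, 3, 1), (82080, 1, 1, 2), (-4224, 0, 6, 0), (-19584, 0, 4, 1), (10800, 0, 2, 2),
    (-7728, 0, 0, 3)]

/-- the part of weight `7` -/
def L7 : List (ℤ × ℕ × ℕ × ℕ) :=
  [(633636, 7, 0, 0), (2255760, 6, 1, 0), (2860128, 5, 2, 0), (-2536092, 5, 0, 1),
    (2623356, 4, 3, 0), (-7048656, 4, 1, 1), (2694384, 3, 4, 0), (-5963616, 3, 2, 1),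
    (2802528, 3, 0, 2), (1244736, 2, 5, 0), (-2782080, 2, 3, 1), (5223888, 2, 1, 2),
    (39744, 1, 6, 0), (-1795536, 1, 4, 1), (2207520, 1, 2, 2), (-713952, 1, 0, 3),
    (35856, 0, 7, 0), (-395424, 0, 5, 1), (177408, 0, 3, 2), (-503424, 0, 1, 3)]

/-- the polynomial `F` -/
def LL : List (ℤ × ℕ × ℕ × ℕ) := L3 ++ (L4 ++ (L5 ++ (L6 ++ L7)))

/-- the derivative by `p` -/
def lp (l : List (ℤ × ℕ × ℕ × ℕ)) : List (ℤ × ℕ × ℕ × ℕ) :=
  l.map fun m => (m.1 * m.2.1, m.2.1 - 1, m.2.2.1, m.2.2.2)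

/-- the derivative by `t` -/
def lt (l : List (ℤ × ℕ × ℕ × ℕ)) : List (ℤ × ℕ × ℕ × ℕ) :=
  l.map fun m => (m.1 * m.2.2.1, m.2.1, m.2.2.1 - 1, m.2.2.2)

/-- the derivative by `q` -/
def lq (l : List (ℤ × ℕ × ℕ × ℕ)) : List (ℤ × ℕ × ℕ × ℕ) :=
  l.map fun m => (m.1 * m.2.2.2, m.2.1, m.2.2.1, m.2.2.2 - 1)

variable {A : Type*} [CommRing A]

/-- the value of a polynomial -/
def ev (p t q : A) (l : List (ℤ × ℕ × ℕ × ℕ)) : A :=
  (l.map fun m => (m.1 : A) * p ^ m.2.1 * t ^ m.2.2.1 * q ^ m.2.2.2).sum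

section ev

variable (p t q : A)

theorem ev_append (l l' : List (ℤ × ℕ × ℕ × ℕ)) : ev p t q (l ++ l') = ev p t q l + ev p t q l' := by
  simp [ev]

theorem lp_append (l l' : List (ℤ × ℕ × ℕ × ℕ)) : lp (l ++ l') = lp l ++ lp l' := by simp [lp]

theorem lt_append (l l' : List (ℤ × ℕ × ℕ × ℕ)) : lt (l ++ l') = lt l ++ lt l' := by simp [lt]

theorem lq_append (l l' : List (ℤ × ℕ × ℕ × ℕ)) : lq (l ++ l') = lq l ++ lq l' := by simp [lq]

theorem ev_map {B : Type*} [CommRing B] (g : A →+* B) (l : List (ℤ × ℕ × ℕ × ℕ)) :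
    g (ev p t q l) = ev (g p) (g t) (g q) l := by
  simp [ev, map_list_sum, Function.comp_def]

/-- The chain rule. -/
theorem ev_D {k : Type*} [CommRing k] [Algebra k A] (D : Derivation k A A)
    (l : List (ℤ × ℕ × ℕ × ℕ)) : D (ev p t q l) =
      ev p t q (lp l) * D p + ev p t q (lt l) * D t + ev p t q (lq l) * D q := by
  induction l with
  | nil => simp [ev, lp, lt, lq]
  | cons m l ih =>
    have h1 : D ((m.1 : A) * p ^ m.2.1 * t ^ m.2.2.1 * q ^ m.2.2.2) =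
        ((m.1 * m.2.1 : ℤ) : A) * p ^ (m.2.1 - 1) * t ^ m.2.2.1 * q ^ m.2.2.2 * D p +
        ((m.1 * m.2.2.1 : ℤ) : A) * p ^ m.2.1 * t ^ (m.2.2.1 - 1) * q ^ m.2.2.2 * D t +
        ((m.1 * m.2.2.2 : ℤ) : A) * p ^ m.2.1 * t ^ m.2.2.1 * q ^ (m.2.2.2 - 1) * D q := by
      simp only [Derivation.leibniz, Derivation.leibniz_pow, Derivation.map_intCast, smul_eq_mul,
        nsmul_eq_mul]
      push_cast
      ring
    simp only [ev, lp, lt, lq, List.map_cons, List.sum_cons, map_add, h1] at ih ⊢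
    rw [ih]
    ring

/-- Membership in the powers of an ideal. -/
theorem ev_mem {I : Ideal A} (hp : p ∈ I) (ht : t ∈ I) (hq : q ∈ I ^ 2) (n : ℕ)
    (l : List (ℤ × ℕ × ℕ × ℕ)) (h : ∀ m ∈ l, n ≤ m.2.1 + m.2.2.1 + 2 * m.2.2.2) :
    ev p t q l ∈ I ^ n := by
  apply list_sum_mem
  intro a ha
  obtain ⟨m, hm, rfl⟩ := List.mem_map.1 ha
  have h1 : p ^ m.2.1 * t ^ m.2.2.1 * q ^ m.2.2.2 ∈ I ^ (m.2.1 + m.2.2.1 + 2 * m.2.2.2) := by
    rw [pow_add, pow_add, pow_mul]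
    exact Ideal.mul_mem_mul (Ideal.mul_mem_mul (Ideal.pow_mem_pow hp _) (Ideal.pow_mem_pow ht _))
      (Ideal.pow_mem_pow hq _)
  have h2 := Ideal.pow_le_pow_right (h m hm) h1
  have h3 : (m.1 : A) * p ^ m.2.1 * t ^ m.2.2.1 * q ^ m.2.2.2 =
      (m.1 : A) * (p ^ m.2.1 * t ^ m.2.2.1 * q ^ m.2.2.2) := by ring
  rw [h3]
  exact Ideal.mul_mem_left _ _ h2

/-- The Euler relation. -/
theorem ev_euler (n : ℕ) (l : List (ℤ × ℕ × ℕ × ℕ))
    (h : ∀ m ∈ l, m.2.1 + m.2.2.1 + 2 * m.2.2.2 = n) :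
    p * ev p t q (lp l) + t * ev p t q (lt l) + 2 * q * ev p t q (lq l) = n * ev p t q l := by
  induction l with
  | nil => simp [ev, lp, lt, lq]
  | cons m l ih =>
    have ih' := ih fun a ha => h a (List.mem_cons_of_mem _ ha)
    have h0 := h m List.mem_cons_self
    have g : ∀ (a : ℕ) (x : A), (a : A) * (x * x ^ (a - 1)) = (a : A) * x ^ a := by
      intro a x
      cases a with
      | zero => simp
      | succ a => rw [Nat.add_sub_cancel, pow_succ']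
    have hn : (n : A) = (m.2.1 : A) + (m.2.2.1 : A) + 2 * (m.2.2.2 : A) := by
      rw [← h0]; push_cast; ring
    simp only [ev, lp, lt, lq, List.map_cons, List.sum_cons] at ih' ⊢
    have g1 := g m.2.1 p
    have g2 := g m.2.2.1 t
    have g3 := g m.2.2.2 q
    push_cast
    linear_combination ih' + (m.1 : A) * t ^ m.2.2.1 * q ^ m.2.2.2 * g1 +
      (m.1 : A) * p ^ m.2.1 * q ^ m.2.2.2 * g2 + 2 * (m.1 : A) * p ^ m.2.1 * t ^ m.2.2.1 * g3 -
      (m.1 : A) * p ^ m.2.1 * t ^ m.2.2.1 * q ^ m.2.2.2 * hn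

/-- the bilinear form -/
def bb (a b c a' b' c' : A) : A :=
  -18 * a * a' + 3 * (a * b' + b * a') - 2 * b * b' + 18 * t * (a * c' + c * a') +
    6 * t * (b * c' + c * b') + 18 * (q + p * t - t ^ 2) * c * c'

/-- the quadratic form -/
def hh (a b c : A) : A :=
  -9 * a ^ 2 + 3 * a * b - b ^ 2 + 18 * t * a * c + 6 * t * b * c +
    9 * (q + p * t - t ^ 2) * c ^ 2

theorem rec4 : -9 * ev p t q L4 =
    hh p t q (ev p t q (lp L3)) (ev p t q (lt L3)) (ev p t q (lq L3)) := by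
  simp only [ev, hh, lp, lt, lq, L3, L4, List.map_cons, List.map_nil, List.sum_cons, List.sum_nil]
  push_cast
  ring

theorem rec5 : -18 * ev p t q L5 =
    bb p t q (ev p t q (lp L3)) (ev p t q (lt L3)) (ev p t q (lq L3))
      (ev p t q (lp L4)) (ev p t q (lt L4)) (ev p t q (lq L4)) := by
  simp only [ev, bb, lp, lt, lq, L3, L4, L5, List.map_cons, List.map_nil, List.sum_cons,
    List.sum_nil]
  push_cast
  ring

theorem rec6 : -27 * ev p t q L6 =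
    bb p t q (ev p t q (lp L3)) (ev p t q (lt L3)) (ev p t q (lq L3))
      (ev p t q (lp L5)) (ev p t q (lt L5)) (ev p t q (lq L5)) +
    hh p t q (ev p t q (lp L4)) (ev p t q (lt L4)) (ev p t q (lq L4)) := by
  simp only [ev, bb, hh, lp, lt, lq, L3, L4, L5, L6, List.map_cons, List.map_nil, List.sum_cons,
    List.sum_nil]
  push_cast
  ring

theorem rec7 : -36 * ev p t q L7 =
    bb p t q (ev p t q (lp L3)) (ev p t q (lt L3)) (ev p t q (lq L3))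
      (ev p t q (lp L6)) (ev p t q (lt L6)) (ev p t q (lq L6)) +
    bb p t q (ev p t q (lp L4)) (ev p t q (lt L4)) (ev p t q (lq L4))
      (ev p t q (lp L5)) (ev p t q (lt L5)) (ev p t q (lq L5)) := by
  simp only [ev, bb, lp, lt, lq, L3, L4, L5, L6, L7, List.map_cons, List.map_nil, List.sum_cons,
    List.sum_nil]
  push_cast
  ring

theorem bb_mem {I : Ideal A} (hp : p ∈ I) (ht : t ∈ I) (hq : q ∈ I ^ 2) (i j : ℕ)
    {a b c a' b' c' : A} (ha : a ∈ I ^ (i + 1)) (hb : b ∈ I ^ (i + 1)) (hc : c ∈ I ^ i)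
    (ha' : a' ∈ I ^ (j + 1)) (hb' : b' ∈ I ^ (j + 1)) (hc' : c' ∈ I ^ j) :
    bb p t q a b c a' b' c' ∈ I ^ (i + j + 2) := by
  have e : bb p t q a b c a' b' c' = -18 * (a * a') + 3 * (a * b' + b * a') - 2 * (b * b') +
    (18 * (t * (a * c') + t * (a' * c)) + 6 * (t * (b * c') + t * (b' * c))) +
    18 * ((q + (p * t - t ^ 2)) * (c * c')) := by simp only [bb]; ring
  have m2 : ∀ {x y : A}, x ∈ I ^ (i + 1) → y ∈ I ^ (j + 1) → x * y ∈ I ^ (i + j + 2) := by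
    intro x y hx hy
    rw [show i + j + 2 = (i + 1) + (j + 1) by ring, pow_add]
    exact Ideal.mul_mem_mul hx hy
  have m3 : ∀ {x y : A}, x ∈ I ^ (i + 1) → y ∈ I ^ j → t * (x * y) ∈ I ^ (i + j + 2) := by
    intro x y hx hy
    rw [show i + j + 2 = 1 + ((i + 1) + j) by ring, pow_add, pow_add, pow_one]
    exact Ideal.mul_mem_mul ht (Ideal.mul_mem_mul hx hy)
  have m4 : ∀ {x y : A}, x ∈ I ^ (j + 1) → y ∈ I ^ i → t * (x * y) ∈ I ^ (i + j + 2) := by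
    intro x y hx hy
    rw [show i + j + 2 = 1 + ((j + 1) + i) by ring, pow_add, pow_add, pow_one]
    exact Ideal.mul_mem_mul ht (Ideal.mul_mem_mul hx hy)
  have m5 : q + (p * t - t ^ 2) ∈ I ^ 2 := by
    refine add_mem hq (sub_mem ?_ (Ideal.pow_mem_pow ht 2))
    rw [pow_two]
    exact Ideal.mul_mem_mul hp ht
  have m6 : (q + (p * t - t ^ 2)) * (c * c') ∈ I ^ (i + j + 2) := by
    rw [show i + j + 2 = 2 + (i + j) by ring, pow_add, pow_add]
    exact Ideal.mul_mem_mul m5 (Ideal.mul_mem_mul hc hc')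
  rw [e]
  refine add_mem (add_mem (sub_mem (add_mem (Ideal.mul_mem_left _ _ (m2 ha ha'))
    (Ideal.mul_mem_left _ _ (add_mem (m2 ha hb') (m2 hb ha')))) (Ideal.mul_mem_left _ _ (m2 hb hb')))
    (add_mem (Ideal.mul_mem_left _ _ (add_mem (m3 ha hc') (m4 ha' hc)))
      (Ideal.mul_mem_left _ _ (add_mem (m3 hb hc') (m4 hb' hc))))) (Ideal.mul_mem_left _ _ m6)

theorem hh_mem {I : Ideal A} (hp : p ∈ I) (ht : t ∈ I) (hq : q ∈ I ^ 2) (i : ℕ)
    {a b c : A} (ha : a ∈ I ^ (i + 1)) (hb : b ∈ I ^ (i + 1)) (hc : c ∈ I ^ i) :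
    hh p t q a b c ∈ I ^ (i + i + 2) := by
  have e : hh p t q a b c = -9 * (a * a) + 3 * (a * b) - b * b +
    (18 * (t * (a * c)) + 6 * (t * (b * c))) +
    9 * ((q + (p * t - t ^ 2)) * (c * c)) := by simp only [hh]; ring
  have m2 : ∀ {x y : A}, x ∈ I ^ (i + 1) → y ∈ I ^ (i + 1) → x * y ∈ I ^ (i + i + 2) := by
    intro x y hx hy
    rw [show i + i + 2 = (i + 1) + (i + 1) by ring, pow_add]
    exact Ideal.mul_mem_mul hx hy
  have m3 : ∀ {x y : A}, x ∈ I ^ (i + 1) → y ∈ I ^ i → t * (x * y) ∈ I ^ (i + i + 2) := by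
    intro x y hx hy
    rw [show i + i + 2 = 1 + ((i + 1) + i) by ring, pow_add, pow_add, pow_one]
    exact Ideal.mul_mem_mul ht (Ideal.mul_mem_mul hx hy)
  have m5 : q + (p * t - t ^ 2) ∈ I ^ 2 := by
    refine add_mem hq (sub_mem ?_ (Ideal.pow_mem_pow ht 2))
    rw [pow_two]
    exact Ideal.mul_mem_mul hp ht
  have m6 : (q + (p * t - t ^ 2)) * (c * c) ∈ I ^ (i + i + 2) := by
    rw [show i + i + 2 = 2 + (i + i) by ring, pow_add, pow_add]
    exact Ideal.mul_mem_mul m5 (Ideal.mul_mem_mul hc hc)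
  rw [e]
  exact add_mem (add_mem (sub_mem (add_mem (Ideal.mul_mem_left _ _ (m2 ha ha))
    (Ideal.mul_mem_left _ _ (m2 ha hb))) (m2 hb hb))
    (add_mem (Ideal.mul_mem_left _ _ (m3 ha hc)) (Ideal.mul_mem_left _ _ (m3 hb hc))))
    (Ideal.mul_mem_left _ _ m6)

/-- The fundamental identity up to weight `8`. -/
theorem residual {I : Ideal A} (hp : p ∈ I) (ht : t ∈ I) (hq : q ∈ I ^ 2) :
    27 * ev p t q LL - hh p t q (ev p t q (lp LL)) (ev p t q (lt LL)) (ev p t q (lq LL)) -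
      9 * (p * ev p t q (lp LL) + t * ev p t q (lt LL) + 2 * q * ev p t q (lq LL)) ∈ I ^ 8 := by
  have hr4 := rec4 p t q
  have hr5 := rec5 p t q
  have hr6 := rec6 p t q
  have hr7 := rec7 p t q
  have e3 := ev_euler p t q 3 L3 (by decide)
  have e4 := ev_euler p t q 4 L4 (by decide)
  have e5 := ev_euler p t q 5 L5 (by decide)
  have e6 := ev_euler p t q 6 L6 (by decide)
  have e7 := ev_euler p t q 7 L7 (by decide)
  have a3 : ev p t q (lp L3) ∈ I ^ (1 + 1) := ev_mem p t q hp ht hq 2 _ (by decide)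
  have b3 : ev p t q (lt L3) ∈ I ^ (1 + 1) := ev_mem p t q hp ht hq 2 _ (by decide)
  have c3 : ev p t q (lq L3) ∈ I ^ 1 := ev_mem p t q hp ht hq 1 _ (by decide)
  have a4 : ev p t q (lp L4) ∈ I ^ (2 + 1) := ev_mem p t q hp ht hq 3 _ (by decide)
  have b4 : ev p t q (lt L4) ∈ I ^ (2 + 1) := ev_mem p t q hp ht hq 3 _ (by decide)
  have c4 : ev p t q (lq L4) ∈ I ^ 2 := ev_mem p t q hp ht hq 2 _ (by decide)
  have a5 : ev p t q (lp L5) ∈ I ^ (3 + 1) := ev_mem p t q hp ht hq 4 _ (by decide)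
  have b5 : ev p t q (lt L5) ∈ I ^ (3 + 1) := ev_mem p t q hp ht hq 4 _ (by decide)
  have c5 : ev p t q (lq L5) ∈ I ^ 3 := ev_mem p t q hp ht hq 3 _ (by decide)
  have a6 : ev p t q (lp L6) ∈ I ^ (4 + 1) := ev_mem p t q hp ht hq 5 _ (by decide)
  have b6 : ev p t q (lt L6) ∈ I ^ (4 + 1) := ev_mem p t q hp ht hq 5 _ (by decide)
  have c6 : ev p t q (lq L6) ∈ I ^ 4 := ev_mem p t q hp ht hq 4 _ (by decide)
  have a7 : ev p t q (lp L7) ∈ I ^ (5 + 1) := ev_mem p t q hp ht hq 6 _ (by decide)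
  have b7 : ev p t q (lt L7) ∈ I ^ (5 + 1) := ev_mem p t q hp ht hq 6 _ (by decide)
  have c7 : ev p t q (lq L7) ∈ I ^ 5 := ev_mem p t q hp ht hq 5 _ (by decide)
  have lift : ∀ {x : A} {m : ℕ}, 8 ≤ m → x ∈ I ^ m → x ∈ I ^ 8 := fun h hx =>
    Ideal.pow_le_pow_right h hx
  have m37 := lift (by norm_num) (bb_mem p t q hp ht hq 1 5 a3 b3 c3 a7 b7 c7)
  have m46 := lift (by norm_num) (bb_mem p t q hp ht hq 2 4 a4 b4 c4 a6 b6 c6)
  have m47 := lift (by norm_num) (bb_mem p t q hp ht hq 2 5 a4 b4 c4 a7 b7 c7)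
  have m55 := lift (by norm_num) (hh_mem p t q hp ht hq 3 a5 b5 c5)
  have m56 := lift (by norm_num) (bb_mem p t q hp ht hq 3 4 a5 b5 c5 a6 b6 c6)
  have m57 := lift (by norm_num) (bb_mem p t q hp ht hq 3 5 a5 b5 c5 a7 b7 c7)
  have m66 := lift (by norm_num) (hh_mem p t q hp ht hq 4 a6 b6 c6)
  have m67 := lift (by norm_num) (bb_mem p t q hp ht hq 4 5 a6 b6 c6 a7 b7 c7)
  have m77 := lift (by norm_num) (hh_mem p t q hp ht hq 5 a7 b7 c7)
  have M := neg_mem (add_mem (add_mem (add_mem (add_mem (add_mem (add_mem (add_mem (add_mem m37 m46)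
    m47) m55) m56) m57) m66) m67) m77)
  refine (congrArg (· ∈ I ^ 8) ?_).mp M
  simp only [LL, lp_append, lt_append, lq_append, ev_append]
  generalize ev p t q (lp L3) = x3 at *
  generalize ev p t q (lt L3) = y3 at *
  generalize ev p t q (lq L3) = z3 at *
  generalize ev p t q (lp L4) = x4 at *
  generalize ev p t q (lt L4) = y4 at *
  generalize ev p t q (lq L4) = z4 at *
  generalize ev p t q (lp L5) = x5 at *
  generalize ev p t q (lt L5) = y5 at *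
  generalize ev p t q (lq L5) = z5 at *
  generalize ev p t q (lp L6) = x6 at *
  generalize ev p t q (lt L6) = y6 at *
  generalize ev p t q (lq L6) = z6 at *
  generalize ev p t q (lp L7) = x7 at *
  generalize ev p t q (lt L7) = y7 at *
  generalize ev p t q (lq L7) = z7 at *
  simp only [bb, hh] at *
  push_cast at *
  linear_combination 9 * e3 + 9 * e4 + 9 * e5 + 9 * e6 + 9 * e7 - hr4 - hr5 - hr6 - hr7

end ev

/-- The explicit matrix. -/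
def mkD (x y z v1 v2 v3 Fp Ft Fq : A) : PD A where
  a12 := 3 * (x ^ 2 * z + x * y ^ 2 + y * z ^ 2) * Fq + x * z * v1 + x * y * v2 + y * z * v3
  a34 := 3 * (x ^ 2 * y + y ^ 2 * z + x * z ^ 2) * Fq + x * y * v1 + y * z * v2 + x * z * v3
  a13 := -(x ^ 2 - y * z) * v1 + 3 * Fp - Ft
  a24 := -(y ^ 2 - x * z) * v2 + 3 * Fp - Ft
  a14 := x ^ 2 * v1 + y ^ 2 * v2 + x * y * v3 + 6 * (x * y * z) * Fq - 3 * Fp
  a23 := -(y * z * v1 + x * z * v2 + z ^ 2 * v3) - 6 * (x * y * z) * Fq + Ft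
  Φ := ![![z, 0, -y], ![0, x, -y], ![-y, 0, x], ![0, -z, x]]

variable (x y z v1 v2 v3 Fp Ft Fq : A)

theorem mkD_n0 : (mkD x y z v1 v2 v3 Fp Ft Fq).n 0 =
    Fp * (3 * x ^ 2) + Ft * (y * z) + Fq * (3 * x ^ 2 * (y ^ 3 + z ^ 3)) := by
  simp [PD.n, mkD, cr]; ring

theorem mkD_n1 : (mkD x y z v1 v2 v3 Fp Ft Fq).n 1 =
    Fp * (3 * y ^ 2) + Ft * (x * z) + Fq * (3 * y ^ 2 * (z ^ 3 + x ^ 3)) := by
  simp [PD.n, mkD, cr]; ring

theorem mkD_n2 : (mkD x y z v1 v2 v3 Fp Ft Fq).n 2 =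
    Fp * (3 * z ^ 2) + Ft * (x * y) + Fq * (3 * z ^ 2 * (x ^ 3 + y ^ 3)) := by
  simp [PD.n, mkD, cr]; ring

theorem mkD_pf : (mkD x y z v1 v2 v3 Fp Ft Fq).pf =
    hh (x ^ 3 + y ^ 3 + z ^ 3) (x * y * z) (x ^ 3 * y ^ 3 + y ^ 3 * z ^ 3 + z ^ 3 * x ^ 3) Fp Ft Fq +
      dt ![v1, v2, v3] (mkD x y z v1 v2 v3 Fp Ft Fq).n := by
  simp only [dt, mkD_n0, mkD_n1, mkD_n2]
  simp [PD.pf, mkD, hh]; ring

end MP72Q2
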