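import Pool.Agent.Lib.MP_72c78a_ag_Q2.Ver
import Pool.Agent.Lib.MP_72c78a_ag_Q2.Fpol

/-!
# The polynomial `f`
-/

set_option autoImplicit false

namespace MP72Q2

open MvPolynomial

universe u

variable (k : Type u) [Field k]

/-- `x ^ 3 + y ^ 3 + z ^ 3` -/
noncomputable def pV : VV k := cub k 0 0 0 + cub k 1 1 1 + cub k 2 2 2

/-- `x y z` -/
noncomputable def tV : VV k := cub k 0 1 2

/-- `x ^ 3 y ^ 3 + y ^ 3 z ^ 3 + z ^ 3 x ^ 3` -/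
noncomputable def qV : VV k :=
  cub k 0 0 0 * cub k 1 1 1 + cub k 1 1 1 * cub k 2 2 2 + cub k 2 2 2 * cub k 0 0 0

/-- the polynomial `f` as an element of the Veronese subring -/
noncomputable def fV : VV k := ev (pV k) (tV k) (qV k) LL

theorem coe_pV : (pV k : PP k) = X 0 ^ 3 + X 1 ^ 3 + X 2 ^ 3 := by
  simp [pV, cub]; ring

theorem coe_tV : (tV k : PP k) = X 0 * X 1 * X 2 := by
  simp [tV, cub]

theorem coe_qV : (qV k : PP k) = X 0 ^ 3 * X 1 ^ 3 + X 1 ^ 3 * X 2 ^ 3 + X 2 ^ 3 * X 0 ^ 3 := by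
  simp [qV, cub]; ring

theorem coe_fV : (fV k : PP k) = ev (X 0 ^ 3 + X 1 ^ 3 + X 2 ^ 3) (X 0 * X 1 * X 2)
    (X 0 ^ 3 * X 1 ^ 3 + X 1 ^ 3 * X 2 ^ 3 + X 2 ^ 3 * X 0 ^ 3) LL := by
  have := ev_map (pV k) (tV k) (qV k) (VV k).val.toRingHom LL
  simp only [AlgHom.toRingHom_eq_coe, RingHom.coe_coe, Subalgebra.coe_val] at this
  rw [fV, this, coe_pV, coe_tV, coe_qV]

theorem eval_fV [CharZero k] (l : Fin 3) : eval (Pi.single l 1) (fV k : PP k) ≠ 0 := by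
  rw [coe_fV, ev_map]
  have h : ev (eval (Pi.single l (1 : k)) (X 0 ^ 3 + X 1 ^ 3 + X 2 ^ 3))
      (eval (Pi.single l 1) (X 0 * X 1 * X 2))
      (eval (Pi.single l 1) (X 0 ^ 3 * X 1 ^ 3 + X 1 ^ 3 * X 2 ^ 3 + X 2 ^ 3 * X 0 ^ 3)) LL =
      (656390 : k) := by
    fin_cases l <;>
      (simp [ev, LL, L3, L4, L5, L6, L7]; norm_num)
  rw [h]
  norm_num

end MP72Q2
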