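import Pool.Agent.Lib.MP_72c78a_ag_Q2.Frame
import Pool.Agent.Lib.MP_72c78a_ag_Q2.Fpol

/-!
# JOB Nak: the Jacobian ideal contains a power of the maximal ideal

`𝔐 = Ideal.span (Set.range X)` in `S`.
`nak`: `n c = 18 * X c ^ 8 + r c` with `r c ∈ 𝔐 ^ 11`. Then `𝔐 ^ 24 ≤ J = Ideal.span (Set.range n)`.
Proof. `𝔐 ^ 24` is generated by the monomials `X 0 ^ a * X 1 ^ b * X 2 ^ c`, `a + b + c = 24` (or: by the products
of `24` variables, `Ideal.span_pow_eq_map_homogeneousSubmodule`/`Submodule.span_pow`; it is enough to use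
the following trick: `𝔐 ^ 24 ≤ span {X 0 ^ 8, X 1 ^ 8, X 2 ^ 8} * 𝔐 ^ 16`, which follows from
`Ideal.span_pow_le`-type pigeonhole lemmas or by writing
`𝔐 = span {X 0} ⊔ span {X 1} ⊔ span {X 2}` and expanding). One of `a, b, c` is at least `8`; if e.g. `a ≥ 8` then
`18 * X 0 ^ a * X 1 ^ b * X 2 ^ c = X 0 ^ (a-8) * X 1 ^ b * X 2 ^ c * (n 0 - r 0)`, and
`X 0 ^ (a-8) * X 1 ^ b * X 2 ^ c * r 0 ∈ 𝔐 ^ (16 + 11) = 𝔐 ^ 27 = 𝔐 ^ 3 * 𝔐 ^ 24`; `18` is a unit of `S` (`CharZero k`). Hence
`𝔐 ^ 24 ≤ J ⊔ 𝔐 ^ 3 * 𝔐 ^ 24`, and `𝔐 ^ 3 = m_Q S` (`hM`). Nakayama for the finite `Q`-module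
`(𝔐 ^ 24).restrictScalars Q` (`Module.Finite Q S`, `Q` noetherian) and the ideal `maximalIdeal Q ≤ jacobson ⊥`:
`Submodule.le_of_le_smul_of_le_jacobson_bot`; `maximalIdeal Q • (N.restrictScalars Q) = (m_Q S * N).restrictScalars Q`
for an ideal `N` of `S` (`Ideal.smul_restrictScalars` or similar; only `≥` is needed).
-/

set_option autoImplicit false

namespace MP72Q2

open IsLocalRing

universe u

private theorem nak_pow {S : Type u} [CommRing S] (M : Ideal S) {a b c : ℕ} (h : c = a + b) :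
    M ^ c = M ^ a * M ^ b := by rw [h, pow_add]

private theorem nak_pigeon {S : Type u} [CommRing S] (A B : Ideal S) {N a b c d : ℕ} (ha : N = a + c)
    (hb : N = b + d) (hab : a + b ≤ N + 1) :
    (A ⊔ B) ^ N ≤ A ^ a * (A ⊔ B) ^ c ⊔ B ^ b * (A ⊔ B) ^ d := by
  have h1 : (A ⊔ B) ^ N = ∑ m ∈ Finset.range (N + 1), A ^ m * B ^ (N - m) * (N.choose m : Ideal S) := by
    rw [← Ideal.add_eq_sup, add_pow]
  rw [h1, Ideal.sum_eq_sup]
  refine Finset.sup_le fun m hm => ?_
  have hm' : m ≤ N := Nat.lt_succ_iff.1 (Finset.mem_range.1 hm)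
  refine le_trans Ideal.mul_le_left ?_
  by_cases h : a ≤ m
  · refine le_trans ?_ le_sup_left
    have e : A ^ m * B ^ (N - m) = A ^ a * (A ^ (m - a) * B ^ (N - m)) := by
      rw [← mul_assoc, ← pow_add, Nat.add_sub_cancel' h]
    rw [e]
    refine Ideal.mul_mono_right ?_
    have e2 : c = (m - a) + (N - m) := by omega
    rw [e2, pow_add]
    exact Ideal.mul_mono (Ideal.pow_right_mono le_sup_left _) (Ideal.pow_right_mono le_sup_right _)
  · refine le_trans ?_ le_sup_right
    have h' : b ≤ N - m := by omega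
    have e : A ^ m * B ^ (N - m) = B ^ b * (A ^ m * B ^ (N - m - b)) := by
      have e1 : B ^ (N - m) = B ^ b * B ^ (N - m - b) := by
        rw [← pow_add, Nat.add_sub_cancel' h']
      rw [e1]
      ring
    rw [e]
    refine Ideal.mul_mono_right ?_
    have e2 : d = m + (N - m - b) := by omega
    rw [e2, pow_add]
    exact Ideal.mul_mono (Ideal.pow_right_mono le_sup_left _) (Ideal.pow_right_mono le_sup_right _)

set_option maxRecDepth 100000 in
private theorem nak_cover {S : Type u} [CommRing S] (X : Fin 3 → S) (K : Ideal S)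
    (hK : ∀ c, Ideal.span {X c} ^ 8 * Ideal.span (Set.range X) ^ 16 ≤ K) :
    Ideal.span (Set.range X) ^ 24 ≤ K := by
  have hsub : ∀ c, Ideal.span {X c} ≤ Ideal.span (Set.range X) := fun c =>
    Ideal.span_mono (Set.singleton_subset_iff.2 ⟨c, rfl⟩)
  have hM : Ideal.span (Set.range X) =
      Ideal.span {X 0} ⊔ (Ideal.span {X 1} ⊔ Ideal.span {X 2}) := by
    refine le_antisymm ?_ (sup_le (hsub 0) (sup_le (hsub 1) (hsub 2)))
    rw [Ideal.span_le]
    rintro _ ⟨c, rfl⟩
    have hc : X c ∈ Ideal.span {X c} := Ideal.mem_span_singleton_self _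
    fin_cases c
    · exact (le_sup_left : Ideal.span {X 0} ≤ _) hc
    · exact ((le_sup_left : Ideal.span {X 1} ≤ _).trans le_sup_right) hc
    · exact ((le_sup_right : Ideal.span {X 2} ≤ _).trans le_sup_right) hc
  set B := Ideal.span {X 1} ⊔ Ideal.span {X 2} with hB
  have hBM : B ≤ Ideal.span (Set.range X) := sup_le (hsub 1) (hsub 2)
  have h1 := nak_pigeon (Ideal.span {X 0}) B (N := 24) (a := 8) (b := 17) (c := 16) (d := 7)
    (by norm_num) (by norm_num) (by norm_num)
  rw [← hM] at h1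
  have h2 := nak_pigeon (Ideal.span {X 1}) (Ideal.span {X 2}) (N := 17) (a := 8) (b := 8)
    (c := 9) (d := 9) (by norm_num) (by norm_num) (by norm_num)
  rw [← hB] at h2
  refine h1.trans (sup_le (hK 0) ?_)
  refine (Ideal.mul_mono_left h2).trans ?_
  rw [Ideal.sup_mul]
  have key : ∀ c, Ideal.span {X c} ^ 8 * B ^ 9 * Ideal.span (Set.range X) ^ 7 ≤ K := by
    intro c
    refine le_trans ?_ (hK c)
    rw [mul_assoc]
    refine Ideal.mul_mono_right ?_
    have e : Ideal.span (Set.range X) ^ 16 =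
        Ideal.span (Set.range X) ^ 9 * Ideal.span (Set.range X) ^ 7 := nak_pow _ (by norm_num)
    rw [e]
    exact Ideal.mul_mono_left (Ideal.pow_right_mono hBM _)
  exact sup_le (key 1) (key 2)

set_option maxRecDepth 100000 in
theorem nak {k Q S : Type u} [Field k] [CharZero k] [CommRing Q] [IsLocalRing Q]
    [IsNoetherianRing Q] [CommRing S] [Algebra k S] [Algebra Q S] [Module.Finite Q S]
    (X : Fin 3 → S)
    (hM : Ideal.map (algebraMap Q S) (maximalIdeal Q) = Ideal.span (Set.range X) ^ 3)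
    (n r : Fin 3 → S) (hn : ∀ c, n c = 18 * X c ^ 8 + r c)
    (hr : ∀ c, r c ∈ Ideal.span (Set.range X) ^ 11) :
    Ideal.span (Set.range X) ^ 24 ≤ Ideal.span (Set.range n) := by
  set M := Ideal.span (Set.range X) with hMdef
  set J := Ideal.span (Set.range n) with hJdef
  have h18 : algebraMap k S (18 : k)⁻¹ * 18 = 1 := by
    have h2 : (18 : k) ≠ 0 := by norm_num
    have h3 : algebraMap k S ((18 : k)⁻¹ * 18) = 1 := by rw [inv_mul_cancel₀ h2, map_one]
    rw [map_mul, map_ofNat] at h3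
    exact h3
  have hstep : M ^ 24 ≤ J ⊔ M ^ 27 := by
    refine nak_cover X _ fun c => ?_
    rw [Ideal.span_singleton_pow, Ideal.span_singleton_mul_le_iff]
    intro s hs
    have h2 : X c ^ 8 * s = algebraMap k S (18 : k)⁻¹ * (n c * s) -
        algebraMap k S (18 : k)⁻¹ * (r c * s) := by
      rw [hn c]
      linear_combination (-(X c ^ 8 * s)) * h18
    rw [h2]
    refine Ideal.sub_mem _ ?_ ?_
    · refine Ideal.mul_mem_left _ _ (Ideal.mul_mem_right _ _ ?_)
      exact (le_sup_left : J ≤ _) (Ideal.subset_span ⟨c, rfl⟩)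
    · refine Ideal.mul_mem_left _ _ ?_
      refine (le_sup_right : M ^ 27 ≤ _) ?_
      have e : M ^ 27 = M ^ 11 * M ^ 16 := nak_pow M (by norm_num)
      rw [e]
      exact Ideal.mul_mem_mul (hr c) hs
  have hN : IsNoetherian Q S := isNoetherian_of_isNoetherianRing_of_finite Q S
  have hfin : ((M ^ 24).restrictScalars Q).FG := IsNoetherian.noetherian _
  have hle : (M ^ 24).restrictScalars Q ≤ J.restrictScalars Q := by
    refine Submodule.le_of_le_smul_of_le_jacobson_bot (I := maximalIdeal Q) hfin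
      (maximalIdeal_le_jacobson _) ?_
    intro s hs
    have h2 : s ∈ J ⊔ M ^ 27 := hstep hs
    obtain ⟨j, hj, t, ht, rfl⟩ := Submodule.mem_sup.1 h2
    refine Submodule.add_mem_sup (Submodule.restrictScalars_mem Q J j |>.2 hj) ?_
    have e : M ^ 27 = M ^ 3 * M ^ 24 := nak_pow M (by norm_num)
    rw [← Ideal.smul_restrictScalars, hM, smul_eq_mul, ← e]
    exact ht
  exact hle

end MP72Q2
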