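import Pool.Agent.Lib.MP_72c78a_ag_Q2.Core

/-!
# Regular sequences `x ^ a, y ^ b, f`
-/

set_option autoImplicit false

namespace MP72Q2

variable {S : Type*} [CommRing S] [IsDomain S]

/-- `x, y` are part of a regular system and `f` is not in `(x, y)`. -/
structure Par (x y f : S) : Prop where
  x0 : x ≠ 0
  px : (Ideal.span {x}).IsPrime
  pxy : (Ideal.span {x, y}).IsPrime
  hy : y ∉ Ideal.span {x}
  hf : f ∉ Ideal.span {x, y}

namespace Par

variable {x y f : S} (H : Par x y f)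

include H

theorem prime : Prime x := (Ideal.span_singleton_prime H.x0).1 H.px

theorem f_x : f ∉ Ideal.span {x} := fun h =>
  H.hf (Ideal.span_mono (Set.singleton_subset_iff.2 (Set.mem_insert _ _)) h)

theorem not_dvd : ¬ x ∣ y := fun h => H.hy (Ideal.mem_span_singleton.2 h)

theorem f0 : f ≠ 0 := fun h => H.hf (h ▸ zero_mem _)

theorem reg_one (b : ℕ) : ∀ μ, f * μ ∈ Ideal.span {x, y ^ b} → μ ∈ Ideal.span {x, y ^ b} := by
  induction b with
  | zero =>
    intro μ _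
    have : (1 : S) ∈ Ideal.span {x, y ^ 0} := Ideal.subset_span (by simp)
    rw [(Ideal.eq_top_iff_one _).2 this]
    trivial
  | succ b ih =>
    intro μ h
    obtain ⟨α, β, hab⟩ := Ideal.mem_span_pair.1 h
    have h1 : f * μ ∈ Ideal.span {x, y} := by
      rw [← hab]
      refine Ideal.mem_span_pair.2 ⟨α, β * y ^ b, by ring⟩
    obtain ⟨μ1, μ2, hμ⟩ := Ideal.mem_span_pair.1 ((H.pxy.mem_or_mem h1).resolve_left H.hf)
    have h2 : y * (f * μ2 - β * y ^ b) ∈ Ideal.span {x} := by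
      refine Ideal.mem_span_singleton.2 ⟨α - f * μ1, ?_⟩
      rw [← hμ] at hab
      linear_combination -hab
    have h3 := (H.px.mem_or_mem h2).resolve_left H.hy
    obtain ⟨γ, hγ⟩ := Ideal.mem_span_singleton.1 h3
    have h4 : μ2 ∈ Ideal.span {x, y ^ b} := by
      apply ih
      refine Ideal.mem_span_pair.2 ⟨γ, β, ?_⟩
      linear_combination -hγ
    obtain ⟨s, t, hst⟩ := Ideal.mem_span_pair.1 h4
    refine Ideal.mem_span_pair.2 ⟨μ1 + s * y, t, ?_⟩
    rw [← hμ, ← hst]; ring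

theorem reg_pow (a b : ℕ) :
    ∀ μ, f * μ ∈ Ideal.span {x ^ a, y ^ b} → μ ∈ Ideal.span {x ^ a, y ^ b} := by
  induction a with
  | zero =>
    intro μ _
    have : (1 : S) ∈ Ideal.span {x ^ 0, y ^ b} := Ideal.subset_span (by simp)
    rw [(Ideal.eq_top_iff_one _).2 this]
    trivial
  | succ a ih =>
    intro μ h
    obtain ⟨α, β, hab⟩ := Ideal.mem_span_pair.1 h
    have h1 : f * μ ∈ Ideal.span {x, y ^ b} := by
      rw [← hab]
      refine Ideal.mem_span_pair.2 ⟨α * x ^ a, β, by ring⟩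
    obtain ⟨μ2, μ1, hμ⟩ := Ideal.mem_span_pair.1 (H.reg_one b μ h1)
    -- `μ = μ2 x + μ1 y ^ b`
    have h2 : x ∣ y ^ b * (β - f * μ1) := by
      refine ⟨f * μ2 - α * x ^ a, ?_⟩
      rw [← hμ] at hab
      linear_combination hab
    have h3 : x ∣ β - f * μ1 := by
      rcases H.prime.dvd_or_dvd h2 with h | h
      · exact absurd (H.prime.dvd_of_dvd_pow h) H.not_dvd
      · exact h
    obtain ⟨γ, hγ⟩ := h3
    have h4 : f * μ2 = α * x ^ a + γ * y ^ b := by
      apply mul_left_cancel₀ H.x0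
      rw [← hμ] at hab
      linear_combination -hab + y ^ b * hγ
    have h5 : μ2 ∈ Ideal.span {x ^ a, y ^ b} := ih _ (by
      rw [h4]; exact Ideal.mem_span_pair.2 ⟨α, γ, rfl⟩)
    obtain ⟨s, t, hst⟩ := Ideal.mem_span_pair.1 h5
    refine Ideal.mem_span_pair.2 ⟨s, t * x + μ1, ?_⟩
    rw [← hμ, ← hst]; ring

/-- `x` is regular modulo `f`. -/
theorem regx {c : S} (h : f ∣ x * c) : f ∣ c := by
  obtain ⟨μ, hμ⟩ := h
  have h1 : f * μ ∈ Ideal.span {x} := Ideal.mem_span_singleton.2 ⟨c, hμ.symm⟩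
  obtain ⟨ν, hν⟩ := Ideal.mem_span_singleton.1 ((H.px.mem_or_mem h1).resolve_left H.f_x)
  refine ⟨ν, mul_left_cancel₀ H.x0 ?_⟩
  rw [hμ, hν]; ring

theorem regx_pow {c : S} (a : ℕ) (h : f ∣ x ^ a * c) : f ∣ c := by
  induction a with
  | zero => simpa using h
  | succ a ih => exact ih (H.regx (by rwa [← mul_assoc, ← pow_succ']))

/-- `x ^ a, y ^ b` is regular modulo `f`. -/
theorem reg2 {c d : S} (a b : ℕ) (h : f ∣ y ^ b * c - x ^ a * d) : ∃ e, f ∣ c - x ^ a * e := by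
  obtain ⟨μ, hμ⟩ := h
  have h1 : f * μ ∈ Ideal.span {x ^ a, y ^ b} :=
    Ideal.mem_span_pair.2 ⟨-d, c, by rw [← hμ]; ring⟩
  obtain ⟨α, β, hab⟩ := Ideal.mem_span_pair.1 (H.reg_pow a b μ h1)
  have h2 : x ^ a ∣ y ^ b * (c - f * β) := ⟨d + f * α, by
    rw [← hab] at hμ
    linear_combination hμ⟩
  have h3 : x ^ a ∣ c - f * β :=
    H.prime.pow_dvd_of_dvd_mul_left a (fun h => H.not_dvd (H.prime.dvd_of_dvd_pow h)) h2
  obtain ⟨e, he⟩ := h3
  exact ⟨e, β, by linear_combination he⟩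

section

variable {n : Fin 3 → S} {N : ℕ} {s t : Fin 3 → S} (hs : x ^ N = dt s n) (ht : y ^ N = dt t n)

include hs

theorem hN (m : S) (h : ∀ c, f ∣ n c * m) : f ∣ m := by
  apply H.regx_pow N
  have e : x ^ N * m = s 0 * (n 0 * m) + s 1 * (n 1 * m) + s 2 * (n 2 * m) := by
    rw [hs, dt]; ring
  rw [e]
  exact dvd_add (dvd_add ((h 0).mul_left _) ((h 1).mul_left _)) ((h 2).mul_left _)

include ht

theorem hd (w : Fin 3 → S) (h : ∀ c, f ∣ cr w n c) : ∃ μ, ∀ c, f ∣ w c - μ * n c := by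
  have h0 := h 0
  have h1 := h 1
  have h2 := h 2
  simp only [cr, Matrix.cons_val_zero, Matrix.cons_val_one, Matrix.cons_val] at h0 h1 h2
  have g : ∀ (r : Fin 3 → S) c, f ∣ dt r n * w c - dt r w * n c := by
    intro r c
    fin_cases c
    · have e : dt r n * w 0 - dt r w * n 0 =
        r 2 * (w 0 * n 2 - w 2 * n 0) - r 1 * (w 1 * n 0 - w 0 * n 1) := by simp only [dt]; ring
      simp only [Fin.zero_eta]
      rw [e]
      have h2' : f ∣ w 1 * n 0 - w 0 * n 1 := by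
        rw [← dvd_neg]; exact h2.trans (dvd_of_eq (by ring))
      have h1' : f ∣ w 0 * n 2 - w 2 * n 0 := by
        rw [← dvd_neg]; exact h1.trans (dvd_of_eq (by ring))
      exact dvd_sub (h1'.mul_left _) (h2'.mul_left _)
    · have e : dt r n * w 1 - dt r w * n 1 =
        r 2 * (w 1 * n 2 - w 2 * n 1) - r 0 * (w 0 * n 1 - w 1 * n 0) := by simp only [dt]; ring
      simp only [Fin.mk_one]
      rw [e]
      exact dvd_sub (h0.mul_left _) (h2.mul_left _)
    · have e : dt r n * w 2 - dt r w * n 2 =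
        r 0 * (w 2 * n 0 - w 0 * n 2) - r 1 * (w 1 * n 2 - w 2 * n 1) := by simp only [dt]; ring
      simp only [Fin.reduceFinMk]
      rw [e]
      exact dvd_sub (h1.mul_left _) (h0.mul_left _)
  have g1 := g s
  have g2 := g t
  rw [← hs] at g1
  rw [← ht] at g2
  have g3 : f ∣ y ^ N * dt s w - x ^ N * dt t w := by
    apply H.hN hs
    intro c
    have e : n c * (y ^ N * dt s w - x ^ N * dt t w) =
        x ^ N * (y ^ N * w c - dt t w * n c) - y ^ N * (x ^ N * w c - dt s w * n c) := by ring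
    rw [e]
    exact dvd_sub ((g2 c).mul_left _) ((g1 c).mul_left _)
  obtain ⟨μ, hμ⟩ := H.reg2 N N g3
  refine ⟨μ, fun c => H.regx_pow N ?_⟩
  have e : x ^ N * (w c - μ * n c) =
      (x ^ N * w c - dt s w * n c) + (dt s w - x ^ N * μ) * n c := by ring
  rw [e]
  exact dvd_add (g1 c) (hμ.mul_right _)

end

end Par

end MP72Q2
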