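import Pool.Agent.Lib.MP_72c78a_ag_Q2.VerL
import Pool.Agent.Lib.MP_72c78a_ag_Q2.Reg

/-!
# JOB VerP: primes and units of `S`

`x i = algebraMap (PP k) S (X i)`.
* `span_X_prime`, `span_XX_prime` (in `PP`): `MvPolynomial.X_prime`; `(X i, X j)` is the kernel of an evaluation
  homomorphism onto a domain (e.g. `aeval` with `X i, X j ↦ 0` and the other variable to itself; or
  `MvPolynomial.idealOfVars`/`ker_mapRingHom`-type lemmas; or a general lemma on `Ideal.span (X '' s)`:
  `MvPolynomial.mem_ideal_span_X_image : p ∈ span (X '' s) ↔ ∀ m ∈ p.support, ∃ i ∈ s, m i ≠ 0`, the quotient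
  being a domain).
* a prime ideal `P` of `PP` disjoint from `MM k` extends to a prime ideal of `S` whose contraction is `P`
  (`IsLocalization.isPrime_of_isPrime_disjoint`, `IsLocalization.under_map_of_isPrime_disjoint` or
  `comap_map_of_isPrime_disjoint`). The ideals `(X i)`, `(X i, X j)` are disjoint from `MM k` because elements of `MM k`
  have nonzero constant coefficient (`mem_MM`). So membership in `(x i)`, `(x i, x j)` of the image of a
  polynomial can be tested in `PP`; `X j ∉ (X i)` (evaluate), `a ∉ (X i, X j)` because its value at the point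
  with `X l = 1` and the other coordinates zero is nonzero.
* `S_isUnit`: let `P` be a maximal ideal of `S` containing the image of `a`, `a(0) ≠ 0`. `S` is a finite `Q`-module
  (`S_finite`), so integral, and the contraction of `P` to the local ring `Q` is the maximal ideal
  (`Ideal.isMaximal_comap_of_isIntegral_of_isMaximal`, `IsLocalRing.eq_maximalIdeal`). By `Q_map`,
  `(x 0, x 1, x 2) ^ 3 ≤ P`, so all `x i ∈ P`; `a - C (a(0))` is in the ideal generated by the variables
  (`MvPolynomial.idealOfVars`, or `mem_ideal_span_X_image`), so the nonzero constant `a(0)` is in `P`.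
-/

set_option autoImplicit false

namespace MP72Q2

open MvPolynomial IsLocalRing

universe u

variable (k : Type u) [Field k] (Q S : Type u) [CommRing Q] [CommRing S] [Algebra (VV k) Q]
  [IsLocalization.AtPrime Q (nV k)] [Algebra (PP k) S] [IsLocalization (MM k) S]
  [Algebra Q S] [IsScalarTower (VV k) Q S]

private theorem VerP_MM_le : MM k ≤ nonZeroDivisors (PP k) := by
  intro a ha
  rw [mem_MM] at ha
  apply mem_nonZeroDivisors_of_ne_zero
  intro h0
  exact ha.2 (by rw [h0, map_zero])

private noncomputable def VerP_psi (s : Set (Fin 3)) [DecidablePred (· ∈ s)] : PP k →ₐ[k] PP k :=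
  aeval (fun i => if i ∈ s then 0 else X i)

private theorem VerP_sub_mem (s : Set (Fin 3)) [DecidablePred (· ∈ s)] (p : PP k) :
    p - VerP_psi k s p ∈ Ideal.span (X '' s : Set (PP k)) := by
  induction p using MvPolynomial.induction_on with
  | C a =>
    have h : VerP_psi k s (C a) = C a := by
      rw [VerP_psi, aeval_C]
      rfl
    rw [h, sub_self]
    exact zero_mem _
  | add p q hp hq =>
    rw [map_add]
    have h : p + q - (VerP_psi k s p + VerP_psi k s q) =
        (p - VerP_psi k s p) + (q - VerP_psi k s q) := by ring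
    rw [h]
    exact add_mem hp hq
  | mul_X p i hp =>
    rw [map_mul]
    have h : p * X i - VerP_psi k s p * VerP_psi k s (X i) =
        (p - VerP_psi k s p) * X i + VerP_psi k s p * (X i - VerP_psi k s (X i)) := by ring
    rw [h]
    refine add_mem (Ideal.mul_mem_right _ _ hp) (Ideal.mul_mem_left _ _ ?_)
    have h2 : VerP_psi k s (X i) = if i ∈ s then 0 else X i := by
      rw [VerP_psi, aeval_X]
    rw [h2]
    by_cases hi : i ∈ s
    · rw [if_pos hi, sub_zero]
      exact Ideal.subset_span ⟨i, hi, rfl⟩
    · rw [if_neg hi, sub_self]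
      exact zero_mem _

private theorem VerP_span_eq (s : Set (Fin 3)) [DecidablePred (· ∈ s)] :
    Ideal.span (X '' s : Set (PP k)) = RingHom.ker (VerP_psi k s) := by
  apply le_antisymm
  · rw [Ideal.span_le]
    rintro _ ⟨i, hi, rfl⟩
    show VerP_psi k s (X i) = 0
    rw [VerP_psi, aeval_X, if_pos hi]
  · intro p hp
    have h := VerP_sub_mem k s p
    have h0 : VerP_psi k s p = 0 := hp
    rwa [h0, sub_zero] at h

private theorem VerP_prime (s : Set (Fin 3)) : (Ideal.span (X '' s : Set (PP k))).IsPrime := by
  classical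
  rw [VerP_span_eq]
  exact RingHom.ker_isPrime _

private theorem VerP_disj (s : Set (Fin 3)) :
    Disjoint (MM k : Set (PP k)) (Ideal.span (X '' s : Set (PP k)) : Set (PP k)) := by
  rw [Set.disjoint_left]
  intro a ha hs
  have h1 : Ideal.span (X '' s : Set (PP k)) ≤
      RingHom.ker (constantCoeff (R := k) (σ := Fin 3)) := by
    rw [Ideal.span_le]
    rintro _ ⟨i, hi, rfl⟩
    exact constantCoeff_X _ i
  have ha' : a ∈ MM k := ha
  rw [mem_MM] at ha'
  exact ha'.2 (h1 hs)

omit [IsLocalization (MM k) S] in
private theorem VerP_map (s : Set (Fin 3)) :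
    Ideal.map (algebraMap (PP k) S) (Ideal.span (X '' s : Set (PP k))) =
      Ideal.span ((fun i => algebraMap (PP k) S (X i)) '' s) := by
  rw [Ideal.map_span, Set.image_image]

include k in
private theorem VerP_primeS (s : Set (Fin 3)) :
    (Ideal.span ((fun i => algebraMap (PP k) S (X i)) '' s)).IsPrime := by
  rw [← VerP_map]
  exact IsLocalization.isPrime_of_isPrime_disjoint (MM k) S _ (VerP_prime k s) (VerP_disj k s)

private theorem VerP_mem (s : Set (Fin 3)) (a : PP k)
    (h : algebraMap (PP k) S a ∈ Ideal.span ((fun i => algebraMap (PP k) S (X i)) '' s)) :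
    a ∈ Ideal.span (X '' s : Set (PP k)) := by
  rw [← VerP_map] at h
  have h2 := IsLocalization.under_map_of_isPrime_disjoint (MM k) S (VerP_prime k s)
    (VerP_disj k s)
  rw [← h2]
  exact h

theorem par [IsDomain S] (i j l : Fin 3) (hij : i ≠ j) (hil : i ≠ l) (hjl : j ≠ l) (a : PP k)
    (ha : eval (Pi.single l 1) a ≠ 0) :
    Par (algebraMap (PP k) S (X i)) (algebraMap (PP k) S (X j)) (algebraMap (PP k) S a) := by
  have e1 : ({algebraMap (PP k) S (X i)} : Set S) =
      (fun i => algebraMap (PP k) S (X i)) '' {i} := by rw [Set.image_singleton]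
  have e2 : ({algebraMap (PP k) S (X i), algebraMap (PP k) S (X j)} : Set S) =
      (fun i => algebraMap (PP k) S (X i)) '' {i, j} := by rw [Set.image_pair]
  refine ⟨?_, ?_, ?_, ?_, ?_⟩
  · intro h0
    have h1 : (X i : PP k) = 0 := by
      apply IsLocalization.injective S (VerP_MM_le k)
      rw [h0, map_zero]
    exact X_ne_zero i h1
  · rw [e1]
    exact VerP_primeS k S {i}
  · rw [e2]
    exact VerP_primeS k S {i, j}
  · intro h
    rw [e1] at h
    have h2 := VerP_mem k S {i} (X j) h
    have h3 : Ideal.span (X '' {i} : Set (PP k)) ≤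
        RingHom.ker (eval (Pi.single j 1) : PP k →+* k) := by
      rw [Ideal.span_le]
      rintro _ ⟨m, hm, rfl⟩
      rw [Set.mem_singleton_iff] at hm
      show eval (Pi.single j 1) (X m : PP k) = 0
      rw [eval_X, hm, Pi.single_eq_of_ne hij]
    have h4 : eval (Pi.single j 1) (X j : PP k) = 0 := h3 h2
    rw [eval_X, Pi.single_eq_same] at h4
    exact one_ne_zero h4
  · intro h
    rw [e2] at h
    have h2 := VerP_mem k S {i, j} a h
    have h3 : Ideal.span (X '' {i, j} : Set (PP k)) ≤
        RingHom.ker (eval (Pi.single l 1) : PP k →+* k) := by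
      rw [Ideal.span_le]
      rintro _ ⟨m, hm, rfl⟩
      show eval (Pi.single l 1) (X m : PP k) = 0
      rcases hm with hm | hm
      · rw [eval_X, hm, Pi.single_eq_of_ne hil]
      · rw [Set.mem_singleton_iff] at hm
        rw [eval_X, hm, Pi.single_eq_of_ne hjl]
    exact ha (h3 h2)

include Q in
theorem S_isUnit [IsLocalRing Q] (a : PP k) (ha : constantCoeff a ≠ 0) :
    IsUnit (algebraMap (PP k) S a) := by
  by_contra hu
  obtain ⟨P, hP, hPa⟩ := exists_max_ideal_of_mem_nonunits (mem_nonunits_iff.2 hu)
  letI : Algebra k Q := ((algebraMap (VV k) Q).comp (algebraMap k (VV k))).toAlgebra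
  haveI : IsScalarTower k (VV k) Q := IsScalarTower.of_algebraMap_eq' rfl
  letI : Algebra k S := ((algebraMap (PP k) S).comp (algebraMap k (PP k))).toAlgebra
  haveI : IsScalarTower k (PP k) S := IsScalarTower.of_algebraMap_eq' rfl
  haveI : Module.Finite Q S := S_finite k Q S
  haveI : Algebra.IsIntegral Q S := Algebra.IsIntegral.of_finite Q S
  have h1 : (P.comap (algebraMap Q S)).IsMaximal :=
    Ideal.isMaximal_comap_of_isIntegral_of_isMaximal P
  have h2 : P.comap (algebraMap Q S) = maximalIdeal Q := IsLocalRing.eq_maximalIdeal h1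
  have h3 : Ideal.map (algebraMap Q S) (maximalIdeal Q) ≤ P := by
    rw [← h2]
    exact Ideal.map_comap_le
  rw [Q_map k Q S] at h3
  have h4 : Ideal.span (Set.range fun i => algebraMap (PP k) S (X i)) ≤ P :=
    (Ideal.IsPrime.pow_le_iff (by norm_num)).1 h3
  have h5 : a - C (constantCoeff a) ∈ Ideal.span (X '' Set.univ : Set (PP k)) := by
    rw [mem_ideal_span_X_image]
    intro m hm
    by_contra hc
    push Not at hc
    have hm0 : m = 0 := by
      ext i
      exact hc i (Set.mem_univ _)
    rw [mem_support_iff, hm0] at hm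
    apply hm
    rw [coeff_sub, coeff_zero_C, ← constantCoeff_eq, sub_self]
  have h6 : algebraMap (PP k) S (a - C (constantCoeff a)) ∈ P := by
    apply h4
    have h7 := Ideal.mem_map_of_mem (algebraMap (PP k) S) h5
    rw [VerP_map, Set.image_univ] at h7
    exact h7
  have h8 : algebraMap (PP k) S (C (constantCoeff a)) ∈ P := by
    have h9 := sub_mem hPa h6
    rw [← map_sub] at h9
    have h10 : a - (a - C (constantCoeff a)) = C (constantCoeff a) := by ring
    rwa [h10] at h9
  apply hP.ne_top
  apply Ideal.eq_top_of_isUnit_mem _ h8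
  apply IsUnit.map
  apply IsUnit.map
  exact IsUnit.mk0 _ ha

end MP72Q2
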