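import Pool.Agent.Lib.MP_72c78a_ag_Q2.VerF
import Pool.Agent.Lib.MP_72c78a_ag_Q2.VerP
import Pool.Agent.Lib.MP_72c78a_ag_Q2.FP
import Pool.Agent.Lib.MP_72c78a_ag_Q2.Nak
import Pool.Agent.Lib.MP_72c78a_ag_Q2.DerC

/-!
# Assembly: the presentation of the derivations of `Q / (f)`
-/

set_option autoImplicit false

namespace MP72Q2

open MvPolynomial IsLocalRing

universe u

section grad

variable {A : Type*} [CommRing A]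

/-- the tail of `F` -/
def LT : List (ℤ × ℕ × ℕ × ℕ) := L4 ++ (L5 ++ (L6 ++ L7))

theorem LL_eq : LL = L3 ++ LT := rfl

/-- the first partial derivative of `x ^ 9 + y ^ 9 + z ^ 9` -/
theorem lead (x y z : A) :
    ev (x ^ 3 + y ^ 3 + z ^ 3) (x * y * z) (x ^ 3 * y ^ 3 + y ^ 3 * z ^ 3 + z ^ 3 * x ^ 3) (lp L3) *
        (3 * x ^ 2) +
      ev (x ^ 3 + y ^ 3 + z ^ 3) (x * y * z) (x ^ 3 * y ^ 3 + y ^ 3 * z ^ 3 + z ^ 3 * x ^ 3)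
        (lt L3) * (y * z) +
      ev (x ^ 3 + y ^ 3 + z ^ 3) (x * y * z) (x ^ 3 * y ^ 3 + y ^ 3 * z ^ 3 + z ^ 3 * x ^ 3)
        (lq L3) * (3 * x ^ 2 * (y ^ 3 + z ^ 3)) = 18 * x ^ 8 := by
  simp only [ev, lp, lt, lq, L3, List.map_cons, List.map_nil, List.sum_cons, List.sum_nil]
  push_cast
  ring

end grad

section

variable {k Q S : Type u} [Field k] [CommRing Q] [CommRing S] [Algebra k Q] [Algebra k S]
  [Algebra Q S] (Fr : Frame k Q S)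

namespace Frame

/-- `x ^ 3 + y ^ 3 + z ^ 3` -/
def sp : S := Fr.X 0 ^ 3 + Fr.X 1 ^ 3 + Fr.X 2 ^ 3

/-- `x y z` -/
def st : S := Fr.X 0 * Fr.X 1 * Fr.X 2

/-- `x ^ 3 y ^ 3 + y ^ 3 z ^ 3 + z ^ 3 x ^ 3` -/
def sq : S := Fr.X 0 ^ 3 * Fr.X 1 ^ 3 + Fr.X 1 ^ 3 * Fr.X 2 ^ 3 + Fr.X 2 ^ 3 * Fr.X 0 ^ 3

theorem dd_sp (c : Fin 3) : Fr.dd c Fr.sp = 3 * Fr.X c ^ 2 := by
  fin_cases c <;> simp [sp, Derivation.leibniz_pow, Fr.dd_X]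

theorem dd_st0 : Fr.dd 0 Fr.st = Fr.X 1 * Fr.X 2 := by
  simp [st, Derivation.leibniz, Fr.dd_X]; ring

theorem dd_st1 : Fr.dd 1 Fr.st = Fr.X 0 * Fr.X 2 := by
  simp [st, Derivation.leibniz, Fr.dd_X]; ring

theorem dd_st2 : Fr.dd 2 Fr.st = Fr.X 0 * Fr.X 1 := by
  simp [st, Derivation.leibniz, Fr.dd_X]

theorem dd_sq0 : Fr.dd 0 Fr.sq = 3 * Fr.X 0 ^ 2 * (Fr.X 1 ^ 3 + Fr.X 2 ^ 3) := by
  simp [sq, Derivation.leibniz, Derivation.leibniz_pow, Fr.dd_X]; ring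

theorem dd_sq1 : Fr.dd 1 Fr.sq = 3 * Fr.X 1 ^ 2 * (Fr.X 2 ^ 3 + Fr.X 0 ^ 3) := by
  simp [sq, Derivation.leibniz, Derivation.leibniz_pow, Fr.dd_X]; ring

theorem dd_sq2 : Fr.dd 2 Fr.sq = 3 * Fr.X 2 ^ 2 * (Fr.X 0 ^ 3 + Fr.X 1 ^ 3) := by
  simp [sq, Derivation.leibniz, Derivation.leibniz_pow, Fr.dd_X]; ring

/-- the polynomial `f` in `S` -/
def F : S := ev Fr.sp Fr.st Fr.sq LL

theorem dd_F (c : Fin 3) : Fr.dd c Fr.F =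
    ev Fr.sp Fr.st Fr.sq (lp LL) * Fr.dd c Fr.sp + ev Fr.sp Fr.st Fr.sq (lt LL) * Fr.dd c Fr.st +
      ev Fr.sp Fr.st Fr.sq (lq LL) * Fr.dd c Fr.sq := ev_D _ _ _ _ _

/-- `F` is homogeneous of degree zero -/
theorem e_sp : Fr.e 0 Fr.sp = Fr.sp := by
  have h : ∀ i, Fr.e 0 (Fr.X i ^ 3) = Fr.X i ^ 3 := by
    intro i
    have := Fr.e_XXX i i i
    rwa [show Fr.X i * Fr.X i * Fr.X i = Fr.X i ^ 3 by ring] at this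
  simp only [sp, map_add, h]

theorem e_st : Fr.e 0 Fr.st = Fr.st := Fr.e_XXX 0 1 2

end Frame

end

end MP72Q2
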