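import Pool.Agent.Lib.MP_72c78a_ag_Q2.Asm

/-!
# Assembly: the presentation of the derivations of `Q / (f)`
-/

set_option autoImplicit false

namespace MP72Q2

open IsLocalRing

universe u

variable {k Q S : Type u} [Field k] [CommRing Q] [CommRing S] [Algebra k Q] [Algebra k S]
  [Algebra Q S] (Fr : Frame k Q S)

namespace Frame

/-- The ideal generated by the variables. -/
def M : Ideal S := Ideal.span (Set.range Fr.X)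

theorem X_mem (i : Fin 3) : Fr.X i ∈ Fr.M := Ideal.subset_span ⟨i, rfl⟩

theorem mul_mem_M {a b : S} {i j n : ℕ} (ha : a ∈ Fr.M ^ i) (hb : b ∈ Fr.M ^ j) (h : i + j = n) :
    a * b ∈ Fr.M ^ n := by
  rw [← h, pow_add]
  exact Ideal.mul_mem_mul ha hb

theorem X_pow_mem (i : Fin 3) (n : ℕ) : Fr.X i ^ n ∈ Fr.M ^ n := Ideal.pow_mem_pow (Fr.X_mem i) n

theorem sp_mem : Fr.sp ∈ Fr.M ^ 3 :=
  add_mem (add_mem (Fr.X_pow_mem 0 3) (Fr.X_pow_mem 1 3)) (Fr.X_pow_mem 2 3)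

theorem st_mem : Fr.st ∈ Fr.M ^ 3 := by
  have h : ∀ i, Fr.X i ∈ Fr.M ^ 1 := fun i => by rw [pow_one]; exact Fr.X_mem i
  exact Fr.mul_mem_M (Fr.mul_mem_M (h 0) (h 1) rfl) (h 2) rfl

theorem sq_mem : Fr.sq ∈ (Fr.M ^ 3) ^ 2 := by
  rw [← pow_mul]
  exact add_mem (add_mem (Fr.mul_mem_M (Fr.X_pow_mem 0 3) (Fr.X_pow_mem 1 3) rfl)
    (Fr.mul_mem_M (Fr.X_pow_mem 1 3) (Fr.X_pow_mem 2 3) rfl))
    (Fr.mul_mem_M (Fr.X_pow_mem 2 3) (Fr.X_pow_mem 0 3) rfl)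

/-- the gradient of `F` -/
def nn : Fin 3 → S := fun c => Fr.dd c Fr.F

/-- the lower order terms of the gradient -/
def rr : Fin 3 → S := fun c =>
  ev Fr.sp Fr.st Fr.sq (lp LT) * Fr.dd c Fr.sp + ev Fr.sp Fr.st Fr.sq (lt LT) * Fr.dd c Fr.st +
      ev Fr.sp Fr.st Fr.sq (lq LT) * Fr.dd c Fr.sq

theorem nn_eq (c : Fin 3) : Fr.nn c = 18 * Fr.X c ^ 8 + Fr.rr c := by
  have h : 18 * Fr.X c ^ 8 = ev Fr.sp Fr.st Fr.sq (lp L3) * Fr.dd c Fr.sp +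
      ev Fr.sp Fr.st Fr.sq (lt L3) * Fr.dd c Fr.st +
      ev Fr.sp Fr.st Fr.sq (lq L3) * Fr.dd c Fr.sq := by
    fin_cases c
    · have := lead (Fr.X 0) (Fr.X 1) (Fr.X 2)
      simp only [Fin.zero_eta]
      rw [← this, Fr.dd_sp, Fr.dd_st0, Fr.dd_sq0]
      rfl
    · have := lead (Fr.X 1) (Fr.X 2) (Fr.X 0)
      simp only [Fin.mk_one]
      rw [← this, Fr.dd_sp, Fr.dd_st1, Fr.dd_sq1]
      have e1 : Fr.X 1 ^ 3 + Fr.X 2 ^ 3 + Fr.X 0 ^ 3 = Fr.sp := by simp only [sp]; ring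
      have e2 : Fr.X 1 * Fr.X 2 * Fr.X 0 = Fr.st := by simp only [st]; ring
      have e3 : Fr.X 1 ^ 3 * Fr.X 2 ^ 3 + Fr.X 2 ^ 3 * Fr.X 0 ^ 3 + Fr.X 0 ^ 3 * Fr.X 1 ^ 3 =
        Fr.sq := by simp only [sq]; ring
      rw [e1, e2, e3]; ring
    · have := lead (Fr.X 2) (Fr.X 0) (Fr.X 1)
      simp only [Fin.reduceFinMk]
      rw [← this, Fr.dd_sp, Fr.dd_st2, Fr.dd_sq2]
      have e1 : Fr.X 2 ^ 3 + Fr.X 0 ^ 3 + Fr.X 1 ^ 3 = Fr.sp := by simp only [sp]; ring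
      have e2 : Fr.X 2 * Fr.X 0 * Fr.X 1 = Fr.st := by simp only [st]; ring
      have e3 : Fr.X 2 ^ 3 * Fr.X 0 ^ 3 + Fr.X 0 ^ 3 * Fr.X 1 ^ 3 + Fr.X 1 ^ 3 * Fr.X 2 ^ 3 =
        Fr.sq := by simp only [sq]; ring
      rw [e1, e2, e3]
  rw [h, nn, Fr.dd_F, rr, LL_eq, lp_append, lt_append, lq_append, ev_append, ev_append, ev_append]
  ring

theorem rr_mem (c : Fin 3) : Fr.rr c ∈ Fr.M ^ 11 := by
  have hp : ev Fr.sp Fr.st Fr.sq (lp LT) ∈ Fr.M ^ 9 := by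
    have := ev_mem Fr.sp Fr.st Fr.sq Fr.sp_mem Fr.st_mem Fr.sq_mem 3 (lp LT) (by decide)
    rwa [← pow_mul] at this
  have ht : ev Fr.sp Fr.st Fr.sq (lt LT) ∈ Fr.M ^ 9 := by
    have := ev_mem Fr.sp Fr.st Fr.sq Fr.sp_mem Fr.st_mem Fr.sq_mem 3 (lt LT) (by decide)
    rwa [← pow_mul] at this
  have hq : ev Fr.sp Fr.st Fr.sq (lq LT) ∈ Fr.M ^ 6 := by
    have := ev_mem Fr.sp Fr.st Fr.sq Fr.sp_mem Fr.st_mem Fr.sq_mem 2 (lq LT) (by decide)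
    rwa [← pow_mul] at this
  have h1 : ∀ i, Fr.X i ∈ Fr.M ^ 1 := fun i => by rw [pow_one]; exact Fr.X_mem i
  have hsp : Fr.dd c Fr.sp ∈ Fr.M ^ 2 := by
    rw [Fr.dd_sp]
    exact Ideal.mul_mem_left _ _ (Fr.X_pow_mem c 2)
  have hst : Fr.dd c Fr.st ∈ Fr.M ^ 2 := by
    fin_cases c
    · simp only [Fin.zero_eta]; rw [Fr.dd_st0]; exact Fr.mul_mem_M (h1 1) (h1 2) rfl
    · simp only [Fin.mk_one]; rw [Fr.dd_st1]; exact Fr.mul_mem_M (h1 0) (h1 2) rfl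
    · simp only [Fin.reduceFinMk]; rw [Fr.dd_st2]; exact Fr.mul_mem_M (h1 0) (h1 1) rfl
  have hsq : Fr.dd c Fr.sq ∈ Fr.M ^ 5 := by
    have g : ∀ i j l : Fin 3, 3 * Fr.X i ^ 2 * (Fr.X j ^ 3 + Fr.X l ^ 3) ∈ Fr.M ^ 5 := by
      intro i j l
      exact Fr.mul_mem_M (Ideal.mul_mem_left _ _ (Fr.X_pow_mem i 2))
        (add_mem (Fr.X_pow_mem j 3) (Fr.X_pow_mem l 3)) rfl
    fin_cases c
    · simp only [Fin.zero_eta]; rw [Fr.dd_sq0]; exact g _ _ _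
    · simp only [Fin.mk_one]; rw [Fr.dd_sq1]; exact g _ _ _
    · simp only [Fin.reduceFinMk]; rw [Fr.dd_sq2]; exact g _ _ _
  exact add_mem (add_mem (Fr.mul_mem_M hp hsp rfl) (Fr.mul_mem_M ht hst rfl))
    (Fr.mul_mem_M hq hsq rfl)

variable [CharZero k] [IsLocalRing Q] [IsNoetherianRing Q] [Module.Finite Q S]
  (hM : Ideal.map (algebraMap Q S) (maximalIdeal Q) = Ideal.span (Set.range Fr.X) ^ 3)

include hM

theorem M24 : Fr.M ^ 24 ≤ Ideal.span (Set.range Fr.nn) := by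
  have h := nak (k := k) Fr.X hM Fr.nn Fr.rr Fr.nn_eq
  have e : Ideal.span (Set.range Fr.X) = Fr.M := rfl
  rw [e] at h
  exact h Fr.rr_mem

theorem exists_dt {a : S} (ha : a ∈ Fr.M ^ 24) : ∃ s : Fin 3 → S, a = dt s Fr.nn := by
  have h := Fr.M24 hM ha
  obtain ⟨s, hs⟩ := (Ideal.mem_span_range_iff_exists_fun).1 h
  exact ⟨s, by rw [← hs, Fin.sum_univ_three, dt]⟩

theorem exists_dt' {a : S} {n : ℕ} (hn : n = 24) (ha : a ∈ Fr.M ^ n) :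
    ∃ s : Fin 3 → S, a = dt s Fr.nn := by
  have h : Fr.M ^ n ≤ Ideal.span (Set.range Fr.nn) := by
    have g : ∀ m : ℕ, m = 24 → (@HPow.hPow (Ideal S) ℕ (Ideal S) (@instHPow (Ideal S) ℕ
        (@NPow.toPow (Ideal S) Monoid.toNPow)) Fr.M m) ≤ Ideal.span (Set.range Fr.nn) := by
      rintro m rfl
      exact Fr.M24 hM
    exact g n hn
  obtain ⟨s, hs⟩ := (Ideal.mem_span_range_iff_exists_fun).1 (h ha)
  exact ⟨s, by rw [← hs, Fin.sum_univ_three, dt]⟩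

theorem exists_dt_pow (i : Fin 3) (n : ℕ) (hn : n = 24) :
    ∃ s : Fin 3 → S, Fr.X i ^ n = dt s Fr.nn :=
  Fr.exists_dt' hM hn (Fr.X_pow_mem i n)

end Frame

end MP72Q2
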