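import Pool.Agent.Lib.MP_72c78a_ag_Q2.Asm2

/-!
# Assembly: the skew matrix
-/

set_option autoImplicit false

namespace MP72Q2

open IsLocalRing

universe u

variable {k Q S : Type u} [Field k] [CommRing Q] [CommRing S] [Algebra k Q] [Algebra k S]
  [Algebra Q S] (Fr : Frame k Q S)

namespace Frame

theorem e0_mul {a b : S} (ha : Fr.e 0 a = a) (hb : Fr.e 0 b = b) : Fr.e 0 (a * b) = a * b :=
  Fr.e_mul_deg (i := 0) (j := 0) ha hb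

theorem e0_add {i : ZMod 3} {a b : S} (ha : Fr.e i a = a) (hb : Fr.e i b = b) :
    Fr.e i (a + b) = a + b := by rw [map_add, ha, hb]

theorem e0_sub {i : ZMod 3} {a b : S} (ha : Fr.e i a = a) (hb : Fr.e i b = b) :
    Fr.e i (a - b) = a - b := by rw [map_sub, ha, hb]

theorem e0_neg {i : ZMod 3} {a : S} (ha : Fr.e i a = a) : Fr.e i (-a) = -a := by
  rw [map_neg, ha]

theorem e_nat (n : ℕ) : Fr.e 0 (n : S) = n := by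
  have := Fr.e_alg (n : Q)
  rwa [map_natCast] at this

theorem e0_three {a : S} (ha : Fr.e 0 a = a) : Fr.e 0 (3 * a) = 3 * a := by
  have := Fr.e0_mul (Fr.e_nat 3) ha
  exact_mod_cast this

theorem e0_six {a : S} (ha : Fr.e 0 a = a) : Fr.e 0 (6 * a) = 6 * a := by
  have := Fr.e0_mul (Fr.e_nat 6) ha
  exact_mod_cast this

theorem e0_XXv (i j : Fin 3) {v : S} (hv : Fr.e 1 v = v) :
    Fr.e 0 (Fr.X i * Fr.X j * v) = Fr.X i * Fr.X j * v :=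
  Fr.e_mul_deg (i := 2) (j := 1) (Fr.e_XX i j) hv

variable [CharZero k] [IsLocalRing Q] [IsNoetherianRing Q] [Module.Finite Q S] [IsDomain S]

/-- The presentation of the module of derivations of `Q / (f)`. -/
theorem asm (hM : Ideal.map (algebraMap Q S) (maximalIdeal Q) = Ideal.span (Set.range Fr.X) ^ 3)
    (pQ tQ qQ : Q) (hp : algebraMap Q S pQ = Fr.sp) (ht : algebraMap Q S tQ = Fr.st)
    (hq : algebraMap Q S qQ = Fr.sq) (P01 : Par (Fr.X 0) (Fr.X 1) Fr.F)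
    (P12 : Par (Fr.X 1) (Fr.X 2) Fr.F) (P20 : Par (Fr.X 2) (Fr.X 0) Fr.F)
    {R : Type u} [CommRing R] [Algebra k R] (π : Q →ₐ[k] R) (hπ : Function.Surjective π)
    (hker : ∀ q, π q = 0 ↔ ev pQ tQ qQ LL ∣ q) :
    ∃ (φ : (Fin 4 → Q) →ₗ[Q] (Fin 4 → Q)) (Ψ : (Fin 4 → Q) →ₛₗ[(π : Q →+* R)] Derivation k R R),
      Function.Injective φ ∧ Function.Surjective Ψ ∧ ∀ σ, Ψ σ = 0 ↔ ∃ w, φ w = σ := by
  have hev : ∀ l, algebraMap Q S (ev pQ tQ qQ l) = ev Fr.sp Fr.st Fr.sq l := fun l => by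
    rw [ev_map, hp, ht, hq]
  have hF : algebraMap Q S (ev pQ tQ qQ LL) = Fr.F := hev LL
  set Fp := ev Fr.sp Fr.st Fr.sq (lp LL) with hFp
  set Ft := ev Fr.sp Fr.st Fr.sq (lt LL) with hFt
  set Fq := ev Fr.sp Fr.st Fr.sq (lq LL) with hFq
  have eFp : Fr.e 0 Fp = Fp := by rw [hFp, ← hev, Fr.e_alg]
  have eFt : Fr.e 0 Ft = Ft := by rw [hFt, ← hev, Fr.e_alg]
  have eFq : Fr.e 0 Fq = Fq := by rw [hFq, ← hev, Fr.e_alg]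
  have esp : Fr.e 0 Fr.sp = Fr.sp := by rw [← hp, Fr.e_alg]
  have est : Fr.e 0 Fr.st = Fr.st := by rw [← ht, Fr.e_alg]
  have esq : Fr.e 0 Fr.sq = Fr.sq := by rw [← hq, Fr.e_alg]
  have eF : Fr.e 0 Fr.F = Fr.F := by rw [← hF, Fr.e_alg]
  -- the residual
  have hres := residual Fr.sp Fr.st Fr.sq Fr.sp_mem Fr.st_mem Fr.sq_mem
  rw [← pow_mul] at hres
  obtain ⟨s', hs'⟩ := Fr.exists_dt hM hres
  -- degree zero part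
  have hnn : ∀ c, Fr.e (-1) (Fr.nn c) = Fr.nn c := by
    intro c
    have := Fr.dd_e 0 c Fr.F
    rw [eF, zero_sub] at this
    exact this.symm
  have hs : (27 * Fr.F - hh Fr.sp Fr.st Fr.sq Fp Ft Fq -
      9 * (Fr.sp * Fp + Fr.st * Ft + 2 * Fr.sq * Fq)) =
      Fr.e 1 (s' 0) * Fr.nn 0 + Fr.e 1 (s' 1) * Fr.nn 1 + Fr.e 1 (s' 2) * Fr.nn 2 := by
    have h1 : Fr.e 0 (27 * Fr.F - hh Fr.sp Fr.st Fr.sq Fp Ft Fq -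
      9 * (Fr.sp * Fp + Fr.st * Ft + 2 * Fr.sq * Fq)) = (27 * Fr.F -
      hh Fr.sp Fr.st Fr.sq Fp Ft Fq - 9 * (Fr.sp * Fp + Fr.st * Ft + 2 * Fr.sq * Fq)) := by
      have : ∃ a : Q, algebraMap Q S a = (27 * Fr.F -
        hh Fr.sp Fr.st Fr.sq Fp Ft Fq - 9 * (Fr.sp * Fp + Fr.st * Ft + 2 * Fr.sq * Fq)) := by
        refine ⟨27 * ev pQ tQ qQ LL - hh pQ tQ qQ (ev pQ tQ qQ (lp LL)) (ev pQ tQ qQ (lt LL))
          (ev pQ tQ qQ (lq LL)) - 9 * (pQ * ev pQ tQ qQ (lp LL) + tQ * ev pQ tQ qQ (lt LL) +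
          2 * qQ * ev pQ tQ qQ (lq LL)), ?_⟩
        simp only [hh, map_sub, map_add, map_mul, map_pow, map_neg, map_ofNat, hev, hp, ht, hq]
        rfl
      obtain ⟨a, ha⟩ := this
      rw [← ha, Fr.e_alg]
    have h2 : ∀ c, Fr.e 0 (s' c * Fr.nn c) = Fr.e 1 (s' c) * Fr.nn c := by
      intro c
      have := Fr.e_mul (-1) 1 (Fr.nn c) (s' c) (hnn c)
      rw [show (-1 : ZMod 3) + 1 = 0 by decide] at this
      rw [mul_comm (s' c), this, mul_comm]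
    rw [← h1, show (27 * Fr.F - hh Fr.sp Fr.st Fr.sq Fp Ft Fq -
      9 * (Fr.sp * Fp + Fr.st * Ft + 2 * Fr.sq * Fq)) = dt s' Fr.nn from hs', dt, map_add, map_add,
      h2, h2, h2]
  set v : Fin 3 → S := fun c => 3 * Fr.X c + Fr.e 1 (s' c) with hv
  have ev1 : ∀ c, Fr.e 1 (v c) = v c := by
    intro c
    have h3 : Fr.e 1 (3 * Fr.X c) = 3 * Fr.X c := by
      have := Fr.e_mul_deg (i := 0) (j := 1) (Fr.e_nat 3) (Fr.e_X c)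
      exact_mod_cast this
    exact Fr.e0_add h3 (Fr.e_idem 1 _)
  set D := mkD (Fr.X 0) (Fr.X 1) (Fr.X 2) (v 0) (v 1) (v 2) Fp Ft Fq with hD
  have hn0 : Fr.nn 0 = Fp * (3 * Fr.X 0 ^ 2) + Ft * (Fr.X 1 * Fr.X 2) +
      Fq * (3 * Fr.X 0 ^ 2 * (Fr.X 1 ^ 3 + Fr.X 2 ^ 3)) := by
    rw [nn, Fr.dd_F, Fr.dd_sp, Fr.dd_st0, Fr.dd_sq0]
  have hn1 : Fr.nn 1 = Fp * (3 * Fr.X 1 ^ 2) + Ft * (Fr.X 0 * Fr.X 2) +
      Fq * (3 * Fr.X 1 ^ 2 * (Fr.X 2 ^ 3 + Fr.X 0 ^ 3)) := by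
    rw [nn, Fr.dd_F, Fr.dd_sp, Fr.dd_st1, Fr.dd_sq1]
  have hn2 : Fr.nn 2 = Fp * (3 * Fr.X 2 ^ 2) + Ft * (Fr.X 0 * Fr.X 1) +
      Fq * (3 * Fr.X 2 ^ 2 * (Fr.X 0 ^ 3 + Fr.X 1 ^ 3)) := by
    rw [nn, Fr.dd_F, Fr.dd_sp, Fr.dd_st2, Fr.dd_sq2]
  have hDn : D.n = Fr.nn := by
    funext c
    fin_cases c
    · exact (mkD_n0 _ _ _ _ _ _ _ _ _).trans hn0.symm
    · exact (mkD_n1 _ _ _ _ _ _ _ _ _).trans hn1.symm
    · exact (mkD_n2 _ _ _ _ _ _ _ _ _).trans hn2.symm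
  have hpf : D.pf = 27 * algebraMap Q S (ev pQ tQ qQ LL) := by
    rw [hF]
    have h1 := mkD_pf (Fr.X 0) (Fr.X 1) (Fr.X 2) (v 0) (v 1) (v 2) Fp Ft Fq
    rw [← hD, hDn] at h1
    have e1 : Fr.X 0 ^ 3 + Fr.X 1 ^ 3 + Fr.X 2 ^ 3 = Fr.sp := rfl
    have e2 : Fr.X 0 * Fr.X 1 * Fr.X 2 = Fr.st := rfl
    have e3 : Fr.X 0 ^ 3 * Fr.X 1 ^ 3 + Fr.X 1 ^ 3 * Fr.X 2 ^ 3 + Fr.X 2 ^ 3 * Fr.X 0 ^ 3 =
      Fr.sq := rfl
    rw [e1, e2, e3] at h1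
    rw [h1]
    have e4 : dt ![v 0, v 1, v 2] Fr.nn = 3 * (Fr.X 0 * Fr.nn 0 + Fr.X 1 * Fr.nn 1 +
      Fr.X 2 * Fr.nn 2) + (Fr.e 1 (s' 0) * Fr.nn 0 + Fr.e 1 (s' 1) * Fr.nn 1 +
        Fr.e 1 (s' 2) * Fr.nn 2) := by
      simp only [dt, hv, Matrix.cons_val_zero, Matrix.cons_val_one, Matrix.cons_val]
      ring
    have e5 : 3 * (Fr.X 0 * Fr.nn 0 + Fr.X 1 * Fr.nn 1 + Fr.X 2 * Fr.nn 2) =
        9 * (Fr.sp * Fp + Fr.st * Ft + 2 * Fr.sq * Fq) := by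
      rw [hn0, hn1, hn2]
      simp only [sp, st, sq]
      ring
    rw [e4, e5, ← hs]
    ring
  have hent : ∀ {a : S}, Fr.e 0 a = a → ∃ q, algebraMap Q S q = a := fun h =>
    Fr.exists_of_e_zero h
  have eXX : ∀ (i j l : Fin 3), Fr.e 0 (Fr.X i ^ 2 * Fr.X j) = Fr.X i ^ 2 * Fr.X j := by
    intro i j l
    have := Fr.e_XXX i i j
    rwa [show Fr.X i * Fr.X i * Fr.X j = Fr.X i ^ 2 * Fr.X j by ring] at this
  have eXY : ∀ (i j : Fin 3), Fr.e 0 (Fr.X i * Fr.X j ^ 2) = Fr.X i * Fr.X j ^ 2 := by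
    intro i j
    have := Fr.e_XXX i j j
    rwa [show Fr.X i * Fr.X j * Fr.X j = Fr.X i * Fr.X j ^ 2 by ring] at this
  have eX2v : ∀ (i c : Fin 3), Fr.e 0 (Fr.X i ^ 2 * v c) = Fr.X i ^ 2 * v c := by
    intro i c
    have := Fr.e0_XXv i i (ev1 c)
    rwa [show Fr.X i * Fr.X i * v c = Fr.X i ^ 2 * v c by ring] at this
  have a12 : Fr.e 0 D.a12 = D.a12 := by
    have : D.a12 = 3 * ((Fr.X 0 ^ 2 * Fr.X 2 + Fr.X 0 * Fr.X 1 ^ 2 + Fr.X 1 * Fr.X 2 ^ 2) * Fq) +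
      Fr.X 0 * Fr.X 2 * v 0 + Fr.X 0 * Fr.X 1 * v 1 + Fr.X 1 * Fr.X 2 * v 2 := by
      simp only [hD, mkD]; ring
    rw [this]
    exact Fr.e0_add (Fr.e0_add (Fr.e0_add (Fr.e0_three (Fr.e0_mul (Fr.e0_add (Fr.e0_add
      (eXX 0 2 0) (eXY 0 1)) (eXY 1 2)) eFq)) (Fr.e0_XXv 0 2 (ev1 0))) (Fr.e0_XXv 0 1 (ev1 1)))
      (Fr.e0_XXv 1 2 (ev1 2))
  have a34 : Fr.e 0 D.a34 = D.a34 := by
    have : D.a34 = 3 * ((Fr.X 0 ^ 2 * Fr.X 1 + Fr.X 1 ^ 2 * Fr.X 2 + Fr.X 0 * Fr.X 2 ^ 2) * Fq) +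
      Fr.X 0 * Fr.X 1 * v 0 + Fr.X 1 * Fr.X 2 * v 1 + Fr.X 0 * Fr.X 2 * v 2 := by
      simp only [hD, mkD]; ring
    rw [this]
    exact Fr.e0_add (Fr.e0_add (Fr.e0_add (Fr.e0_three (Fr.e0_mul (Fr.e0_add (Fr.e0_add
      (eXX 0 1 0) (eXX 1 2 0)) (eXY 0 2)) eFq)) (Fr.e0_XXv 0 1 (ev1 0))) (Fr.e0_XXv 1 2 (ev1 1)))
      (Fr.e0_XXv 0 2 (ev1 2))
  have a13 : Fr.e 0 D.a13 = D.a13 := by
    have : D.a13 = Fr.X 1 * Fr.X 2 * v 0 - Fr.X 0 ^ 2 * v 0 + 3 * Fp - Ft := by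
      simp only [hD, mkD]; ring
    rw [this]
    exact Fr.e0_sub (Fr.e0_add (Fr.e0_sub (Fr.e0_XXv 1 2 (ev1 0)) (eX2v 0 0))
      (Fr.e0_three eFp)) eFt
  have a24 : Fr.e 0 D.a24 = D.a24 := by
    have : D.a24 = Fr.X 0 * Fr.X 2 * v 1 - Fr.X 1 ^ 2 * v 1 + 3 * Fp - Ft := by
      simp only [hD, mkD]; ring
    rw [this]
    exact Fr.e0_sub (Fr.e0_add (Fr.e0_sub (Fr.e0_XXv 0 2 (ev1 1)) (eX2v 1 1))
      (Fr.e0_three eFp)) eFt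
  have a14 : Fr.e 0 D.a14 = D.a14 := by
    have : D.a14 = Fr.X 0 ^ 2 * v 0 + Fr.X 1 ^ 2 * v 1 + Fr.X 0 * Fr.X 1 * v 2 +
      6 * (Fr.st * Fq) - 3 * Fp := by
      simp only [hD, mkD, st]; ring
    rw [this]
    exact Fr.e0_sub (Fr.e0_add (Fr.e0_add (Fr.e0_add (eX2v 0 0) (eX2v 1 1))
      (Fr.e0_XXv 0 1 (ev1 2))) (Fr.e0_six (Fr.e0_mul est eFq))) (Fr.e0_three eFp)
  have a23 : Fr.e 0 D.a23 = D.a23 := by
    have : D.a23 = -(Fr.X 1 * Fr.X 2 * v 0 + Fr.X 0 * Fr.X 2 * v 1 + Fr.X 2 ^ 2 * v 2) -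
      6 * (Fr.st * Fq) + Ft := by
      simp only [hD, mkD, st]; ring
    rw [this]
    exact Fr.e0_add (Fr.e0_sub (Fr.e0_neg (Fr.e0_add (Fr.e0_add (Fr.e0_XXv 1 2 (ev1 0))
      (Fr.e0_XXv 0 2 (ev1 1))) (eX2v 2 2))) (Fr.e0_six (Fr.e0_mul est eFq))) eFt
  obtain ⟨q12, h12⟩ := hent a12
  obtain ⟨q13, h13⟩ := hent a13
  obtain ⟨q14, h14⟩ := hent a14
  obtain ⟨q23, h23⟩ := hent a23
  obtain ⟨q24, h24⟩ := hent a24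
  obtain ⟨q34, h34⟩ := hent a34
  have hΦ : ∀ j c, Fr.e 1 (D.Φ j c) = D.Φ j c := by
    have z : Fr.e 1 (0 : S) = 0 := map_zero _
    intro j c
    fin_cases j <;> fin_cases c <;>
      simp [hD, mkD, Fr.e_X]
  have hunit : IsUnit (27 : S) := by
    have : IsUnit ((algebraMap k S) 27) := (IsUnit.mk0 (27 : k) (by norm_num)).map _
    rwa [map_ofNat] at this
  obtain ⟨N, hN⟩ : ∃ N : ℕ, N = 24 := ⟨_, rfl⟩
  obtain ⟨s0, hs0⟩ := Fr.exists_dt_pow hM 0 N hN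
  obtain ⟨t0, ht0⟩ := Fr.exists_dt_pow hM 1 N hN
  rw [← hF] at P01 P12 P20
  exact Fr.der_main D q12 q13 q14 q23 q24 q34 h12 h13 h14 h23 h24 h34 hΦ
    (fun c => by rw [hDn, hF]; rfl) hunit hpf P01 P12 P20 (N := N) (s := s0) (t := t0)
    (by rw [hDn]; exact hs0) (by rw [hDn]; exact ht0) π hπ hker

end Frame

end MP72Q2
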