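import Mathlib

/-!
# Exactness for a `4 × 4` skew matrix with Pfaffian `κ f`

`S` is a commutative ring, `D` a skew `4 × 4` matrix `(a i j)` together with four vectors `Φ j` in `S ^ 3`;
`δ i = ∑ j, a i j Φ j`, `n = ∑ i < j, a i j Φ i × Φ j`, `pf` the Pfaffian.
-/

set_option autoImplicit false

namespace MP72Q2

/-- A skew symmetric `4 × 4` matrix (its entries above the diagonal) and four vectors of length `3`. -/
structure PD (S : Type*) where
  a12 : S
  a13 : S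
  a14 : S
  a23 : S
  a24 : S
  a34 : S
  Φ : Fin 4 → Fin 3 → S

variable {S : Type*} [CommRing S]

/-- The cross product. -/
def cr (u v : Fin 3 → S) : Fin 3 → S :=
  ![u 1 * v 2 - u 2 * v 1, u 2 * v 0 - u 0 * v 2, u 0 * v 1 - u 1 * v 0]

/-- The dot product. -/
def dt (u v : Fin 3 → S) : S := u 0 * v 0 + u 1 * v 1 + u 2 * v 2

namespace PD

variable (D : PD S)

/-- The Pfaffian. -/
def pf : S := D.a12 * D.a34 - D.a13 * D.a24 + D.a14 * D.a23

/-- The skew matrix applied to a vector. -/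
def mul (s : Fin 4 → S) : Fin 4 → S :=
  ![D.a12 * s 1 + D.a13 * s 2 + D.a14 * s 3, -D.a12 * s 0 + D.a23 * s 2 + D.a24 * s 3,
    -D.a13 * s 0 - D.a23 * s 1 + D.a34 * s 3, -D.a14 * s 0 - D.a24 * s 1 - D.a34 * s 2]

/-- The Pfaffian adjoint applied to a vector. -/
def adj (s : Fin 4 → S) : Fin 4 → S :=
  ![D.a34 * s 1 - D.a24 * s 2 + D.a23 * s 3, -D.a34 * s 0 + D.a14 * s 2 - D.a13 * s 3,
    D.a24 * s 0 - D.a14 * s 1 + D.a12 * s 3, -D.a23 * s 0 + D.a13 * s 1 - D.a12 * s 2]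

/-- `δ i = ∑ j, a i j Φ j` -/
def δ (i : Fin 4) (c : Fin 3) : S := D.mul (fun j => D.Φ j c) i

/-- `n = ∑ i < j, a i j Φ i × Φ j` -/
def n (c : Fin 3) : S :=
  D.a12 * cr (D.Φ 0) (D.Φ 1) c + D.a13 * cr (D.Φ 0) (D.Φ 2) c + D.a14 * cr (D.Φ 0) (D.Φ 3) c +
  D.a23 * cr (D.Φ 1) (D.Φ 2) c + D.a24 * cr (D.Φ 1) (D.Φ 3) c + D.a34 * cr (D.Φ 2) (D.Φ 3) c

/-- The entries of the skew matrix. -/
def a (i j : Fin 4) : S := D.mul (Pi.single j 1) i

theorem mul_adj (s : Fin 4 → S) (i : Fin 4) : D.mul (D.adj s) i = -D.pf * s i := by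
  fin_cases i <;> simp [mul, adj, pf] <;> ring

theorem adj_mul (s : Fin 4 → S) (i : Fin 4) : D.adj (D.mul s) i = -D.pf * s i := by
  fin_cases i <;> simp [mul, adj, pf] <;> ring

theorem delta_n (i : Fin 4) : D.pf ∣ dt (D.δ i) D.n := by
  fin_cases i
  · exact ⟨dt (D.Φ 1) (cr (D.Φ 2) (D.Φ 3)), by simp [dt, δ, mul, n, cr, pf]; ring⟩
  · exact ⟨-dt (D.Φ 0) (cr (D.Φ 2) (D.Φ 3)), by simp [dt, δ, mul, n, cr, pf]; ring⟩
  · exact ⟨dt (D.Φ 0) (cr (D.Φ 1) (D.Φ 3)), by simp [dt, δ, mul, n, cr, pf]; ring⟩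
  · exact ⟨-dt (D.Φ 0) (cr (D.Φ 1) (D.Φ 2)), by simp [dt, δ, mul, n, cr, pf]; ring⟩

theorem cross_aux (i j : Fin 4) : ∃ u : Fin 3 → S, ∀ c,
    cr (D.δ i) (D.δ j) c - D.a i j * D.n c = D.pf * u c := by
  fin_cases i <;> fin_cases j
  · exact ⟨0, fun c => by fin_cases c <;> simp [cr, δ, mul, a, n] <;> ring⟩
  · exact ⟨-cr (D.Φ 2) (D.Φ 3), fun c => by fin_cases c <;> simp [cr, δ, mul, a, n, pf] <;> ring⟩
  · exact ⟨cr (D.Φ 1) (D.Φ 3), fun c => by fin_cases c <;> simp [cr, δ, mul, a, n, pf] <;> ring⟩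
  · exact ⟨-cr (D.Φ 1) (D.Φ 2), fun c => by fin_cases c <;> simp [cr, δ, mul, a, n, pf] <;> ring⟩
  · exact ⟨cr (D.Φ 2) (D.Φ 3), fun c => by fin_cases c <;> simp [cr, δ, mul, a, n, pf] <;> ring⟩
  · exact ⟨0, fun c => by fin_cases c <;> simp [cr, δ, mul, a, n] <;> ring⟩
  · exact ⟨-cr (D.Φ 0) (D.Φ 3), fun c => by fin_cases c <;> simp [cr, δ, mul, a, n, pf] <;> ring⟩
  · exact ⟨cr (D.Φ 0) (D.Φ 2), fun c => by fin_cases c <;> simp [cr, δ, mul, a, n, pf] <;> ring⟩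
  · exact ⟨-cr (D.Φ 1) (D.Φ 3), fun c => by fin_cases c <;> simp [cr, δ, mul, a, n, pf] <;> ring⟩
  · exact ⟨cr (D.Φ 0) (D.Φ 3), fun c => by fin_cases c <;> simp [cr, δ, mul, a, n, pf] <;> ring⟩
  · exact ⟨0, fun c => by fin_cases c <;> simp [cr, δ, mul, a, n] <;> ring⟩
  · exact ⟨-cr (D.Φ 0) (D.Φ 1), fun c => by fin_cases c <;> simp [cr, δ, mul, a, n, pf] <;> ring⟩
  · exact ⟨cr (D.Φ 1) (D.Φ 2), fun c => by fin_cases c <;> simp [cr, δ, mul, a, n, pf] <;> ring⟩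
  · exact ⟨-cr (D.Φ 0) (D.Φ 2), fun c => by fin_cases c <;> simp [cr, δ, mul, a, n, pf] <;> ring⟩
  · exact ⟨cr (D.Φ 0) (D.Φ 1), fun c => by fin_cases c <;> simp [cr, δ, mul, a, n, pf] <;> ring⟩
  · exact ⟨0, fun c => by fin_cases c <;> simp [cr, δ, mul, a, n] <;> ring⟩

theorem cross (i j : Fin 4) (c : Fin 3) : D.pf ∣ cr (D.δ i) (D.δ j) c - D.a i j * D.n c := by
  obtain ⟨u, hu⟩ := D.cross_aux i j
  exact ⟨u c, hu c⟩

theorem adj_rel (s : Fin 4 → S) (c : Fin 3) :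
    ∑ j, D.adj s j * D.δ j c = D.pf * ∑ j, s j * D.Φ j c := by
  simp only [Fin.sum_univ_four]
  simp [adj, δ, mul, pf]
  ring

/-- The three term relation. -/
theorem three (θ : Fin 3 → S) (τ : Fin 4 → S) {f : S} (hpf : f ∣ D.pf)
    (hN : ∀ s, (∀ c, f ∣ D.n c * s) → f ∣ s) (hθ : f ∣ dt θ D.n)
    (hτ : ∀ i c, f ∣ cr θ (D.δ i) c - τ i * D.n c) (i j : Fin 4) (c : Fin 3) :
    f ∣ D.a i j * θ c - τ j * D.δ i c + τ i * D.δ j c := by
  apply hN
  intro m
  have h1 := (hpf.trans (D.cross i j m))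
  have h2 := hτ i m
  have h3 := hτ j m
  -- `n m * a i j * θ c` etc.
  have key : D.n m * (D.a i j * θ c - τ j * D.δ i c + τ i * D.δ j c) =
      -(cr (D.δ i) (D.δ j) m - D.a i j * D.n m) * θ c +
      (cr θ (D.δ j) m - τ j * D.n m) * D.δ i c - (cr θ (D.δ i) m - τ i * D.n m) * D.δ j c +
      (cr (D.δ i) (D.δ j) m * θ c - cr θ (D.δ j) m * D.δ i c + cr θ (D.δ i) m * D.δ j c) := by
    ring
  have h4 : f ∣ dt θ (cr (D.δ i) (D.δ j)) := by
    have e : dt θ (cr (D.δ i) (D.δ j)) = D.a i j * dt θ D.n +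
        (θ 0 * (cr (D.δ i) (D.δ j) 0 - D.a i j * D.n 0) +
        θ 1 * (cr (D.δ i) (D.δ j) 1 - D.a i j * D.n 1) +
        θ 2 * (cr (D.δ i) (D.δ j) 2 - D.a i j * D.n 2)) := by
      simp only [dt]; ring
    rw [e]
    refine dvd_add (hθ.mul_left _) (dvd_add (dvd_add ?_ ?_) ?_) <;>
      exact (hpf.trans (D.cross i j _)).mul_left _
  have h5 : cr (D.δ i) (D.δ j) m * θ c - cr θ (D.δ j) m * D.δ i c + cr θ (D.δ i) m * D.δ j c =
      if m = c then dt θ (cr (D.δ i) (D.δ j)) else 0 := by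
    fin_cases m <;> fin_cases c <;> simp [cr, dt] <;> ring
  rw [key]
  refine dvd_add (dvd_sub (dvd_add ((dvd_neg.mpr h1).mul_right _) (h3.mul_right _))
    (h2.mul_right _)) ?_
  rw [h5]
  split_ifs
  · exact h4
  · exact dvd_zero f

variable {D} {f κ : S}

/-- The exactness in the middle: every `θ` orthogonal to `n` modulo `f` is a combination of the `δ i`
modulo `f`. -/
theorem coreA (hκ : IsUnit κ) (hpf : D.pf = κ * f) (hf : f ∈ nonZeroDivisors S)
    (hN : ∀ s, (∀ c, f ∣ D.n c * s) → f ∣ s)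
    (hd : ∀ w : Fin 3 → S, (∀ c, f ∣ cr w D.n c) → ∃ μ, ∀ c, f ∣ w c - μ * D.n c)
    (θ : Fin 3 → S) (hθ : f ∣ dt θ D.n) :
    ∃ σ : Fin 4 → S, ∀ c, f ∣ θ c + ∑ j, σ j * D.δ j c := by
  have hpf' : f ∣ D.pf := ⟨κ, by rw [hpf, mul_comm]⟩
  have hδ : ∀ i, f ∣ dt (D.δ i) D.n := fun i => hpf'.trans (D.delta_n i)
  -- step 1 and 2
  have h1 : ∀ (θ : Fin 3 → S), f ∣ dt θ D.n → ∀ i c, f ∣ cr (cr θ (D.δ i)) D.n c := by
    intro θ hθ i c
    have e : cr (cr θ (D.δ i)) D.n c = dt θ D.n * D.δ i c - dt (D.δ i) D.n * θ c := by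
      fin_cases c <;> simp [cr, dt] <;> ring
    rw [e]
    exact dvd_sub (hθ.mul_right _) ((hδ i).mul_right _)
  choose τ hτ using fun i => hd (cr θ (D.δ i)) (h1 θ hθ i)
  have h3 := fun i j c => D.three θ τ hpf' hN hθ hτ i j c
  -- step 4
  have h4 : ∀ i j k, f ∣ D.a i j * τ k - D.a i k * τ j + D.a j k * τ i := by
    intro i j k
    apply hN
    intro m
    have e : D.n m * (D.a i j * τ k - D.a i k * τ j + D.a j k * τ i) =
        -D.a i j * (cr θ (D.δ k) m - τ k * D.n m) + τ j * (cr (D.δ i) (D.δ k) m - D.a i k * D.n m)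
        - τ i * (cr (D.δ j) (D.δ k) m - D.a j k * D.n m)
        + cr (fun c => D.a i j * θ c - τ j * D.δ i c + τ i * D.δ j c) (D.δ k) m := by
      fin_cases m <;> simp [cr] <;> ring
    rw [e]
    refine dvd_add (dvd_sub (dvd_add ((hτ k m).mul_left _)
      ((hpf'.trans (D.cross i k m)).mul_left _)) ((hpf'.trans (D.cross j k m)).mul_left _)) ?_
    fin_cases m
    · exact dvd_sub ((h3 i j 1).mul_right _) ((h3 i j 2).mul_right _)
    · exact dvd_sub ((h3 i j 2).mul_right _) ((h3 i j 0).mul_right _)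
    · exact dvd_sub ((h3 i j 0).mul_right _) ((h3 i j 1).mul_right _)
  have h5 : ∀ i, f ∣ D.adj τ i := by
    intro i
    fin_cases i
    · have := h4 1 2 3
      simp only [a, mul] at this
      simp [adj] at this ⊢
      exact this.trans (dvd_of_eq (by ring))
    · have := (dvd_neg (a := f)).mpr (h4 0 2 3)
      simp only [a, mul] at this
      simp [adj] at this ⊢
      exact this.trans (dvd_of_eq (by ring))
    · have := h4 0 1 3
      simp only [a, mul] at this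
      simp [adj] at this ⊢
      exact this.trans (dvd_of_eq (by ring))
    · have := (dvd_neg (a := f)).mpr (h4 0 1 2)
      simp only [a, mul] at this
      simp [adj] at this ⊢
      exact this.trans (dvd_of_eq (by ring))
  choose w hw using h5
  obtain ⟨u, hu⟩ := hκ
  have h6 : ∀ i, τ i = D.mul (fun j => -(↑u⁻¹ : S) * w j) i := by
    intro i
    have e1 := D.mul_adj τ i
    have e2 : D.mul (D.adj τ) i = f * D.mul w i := by
      have : D.adj τ = fun j => f * w j := funext hw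
      rw [this]
      fin_cases i <;> simp [mul] <;> ring
    have e3 : D.mul (fun j => -(↑u⁻¹ : S) * w j) i = -(↑u⁻¹ : S) * D.mul w i := by
      fin_cases i <;> simp [mul] <;> ring
    rw [e3]
    have e4 : f * (κ * τ i + D.mul w i) = 0 := by
      have : f * D.mul w i = -D.pf * τ i := e2.symm.trans e1
      rw [mul_add, this, hpf]; ring
    have e5 : κ * τ i + D.mul w i = 0 := by
      have := hf.1 _ e4
      exact this
    have e6 : D.mul w i = -(κ * τ i) := by linear_combination e5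
    rw [e6, ← hu]
    have := u.inv_mul
    linear_combination (-τ i) * this
  set σ : Fin 4 → S := fun j => -(↑u⁻¹ : S) * w j with hσ
  refine ⟨σ, ?_⟩
  -- `θ' = θ + ∑ σ j δ j`
  set θ' : Fin 3 → S := fun c => θ c + ∑ j, σ j * D.δ j c with hθ'
  have g1 : f ∣ dt θ' D.n := by
    have e : dt θ' D.n = dt θ D.n + ∑ j, σ j * dt (D.δ j) D.n := by
      simp only [hθ', dt, Fin.sum_univ_four]; ring
    rw [e]
    exact dvd_add hθ (Finset.dvd_sum fun j _ => (hδ j).mul_left _)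
  have g2 : ∀ i c, f ∣ cr θ' (D.δ i) c - (0 : Fin 4 → S) i * D.n c := by
    intro i c
    have e : cr θ' (D.δ i) c - (0 : Fin 4 → S) i * D.n c =
        (cr θ (D.δ i) c - τ i * D.n c) + ∑ j, σ j * (cr (D.δ j) (D.δ i) c - D.a j i * D.n c)
        + (τ i - D.mul σ i) * D.n c := by
      have e' : ∑ j, σ j * D.a j i = -D.mul σ i := by
        simp only [Fin.sum_univ_four]
        fin_cases i <;> simp [a, mul] <;> ring
      have e'' : ∑ j, σ j * (cr (D.δ j) (D.δ i) c - D.a j i * D.n c) =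
          (∑ j, σ j * cr (D.δ j) (D.δ i) c) - (∑ j, σ j * D.a j i) * D.n c := by
        simp only [Fin.sum_univ_four]; ring
      rw [e'', e']
      have e3 : cr θ' (D.δ i) c = cr θ (D.δ i) c + ∑ j, σ j * cr (D.δ j) (D.δ i) c := by
        simp only [hθ', Fin.sum_univ_four]
        fin_cases c <;> simp [cr] <;> ring
      rw [e3]
      simp only [Pi.zero_apply]
      ring
    rw [e, h6 i, sub_self, zero_mul, add_zero]
    exact dvd_add (by rw [← h6 i]; exact hτ i c)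
      (Finset.dvd_sum fun j _ => ((hpf'.trans (D.cross j i c))).mul_left _)
  have g3 : ∀ i j c, f ∣ D.a i j * θ' c := by
    intro i j c
    have := D.three θ' 0 hpf' hN g1 g2 i j c
    simpa using this
  intro c
  apply hN
  intro m
  have e : D.n m * (θ c + ∑ j, σ j * D.δ j c) =
      cr (D.Φ 0) (D.Φ 1) m * (D.a 0 1 * θ' c) + cr (D.Φ 0) (D.Φ 2) m * (D.a 0 2 * θ' c) +
      cr (D.Φ 0) (D.Φ 3) m * (D.a 0 3 * θ' c) + cr (D.Φ 1) (D.Φ 2) m * (D.a 1 2 * θ' c) +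
      cr (D.Φ 1) (D.Φ 3) m * (D.a 1 3 * θ' c) + cr (D.Φ 2) (D.Φ 3) m * (D.a 2 3 * θ' c) := by
    have : θ c + ∑ j, σ j * D.δ j c = θ' c := rfl
    rw [this]
    simp [a, mul, n]
    ring
  rw [e]
  refine dvd_add (dvd_add (dvd_add (dvd_add (dvd_add ?_ ?_) ?_) ?_) ?_) ?_ <;>
    exact (g3 _ _ _).mul_left _

/-- The relations between the `δ i` modulo `f`. -/
theorem coreB (hκ : IsUnit κ) (hpf : D.pf = κ * f) (hf : f ∈ nonZeroDivisors S)
    (hN : ∀ s, (∀ c, f ∣ D.n c * s) → f ∣ s)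
    (σ : Fin 4 → S) (hσ : ∀ c, f ∣ ∑ j, σ j * D.δ j c) : ∃ w : Fin 4 → S, σ = D.adj w := by
  have hpf' : f ∣ D.pf := ⟨κ, by rw [hpf, mul_comm]⟩
  have h1 : ∀ i, f ∣ D.mul σ i := by
    intro i
    apply hN
    intro c
    have e' : ∑ j, σ j * D.a j i = -D.mul σ i := by
      simp only [Fin.sum_univ_four]
      fin_cases i <;> simp [a, mul] <;> ring
    have e : D.n c * D.mul σ i = (∑ j, σ j * (cr (D.δ j) (D.δ i) c - D.a j i * D.n c)) -
        cr (fun c => ∑ j, σ j * D.δ j c) (D.δ i) c := by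
      have e'' : ∑ j, σ j * (cr (D.δ j) (D.δ i) c - D.a j i * D.n c) =
          (∑ j, σ j * cr (D.δ j) (D.δ i) c) - (∑ j, σ j * D.a j i) * D.n c := by
        simp only [Fin.sum_univ_four]; ring
      rw [e'', e']
      have e3 : cr (fun c => ∑ j, σ j * D.δ j c) (D.δ i) c =
          ∑ j, σ j * cr (D.δ j) (D.δ i) c := by
        simp only [Fin.sum_univ_four]
        fin_cases c <;> simp [cr] <;> ring
      rw [e3]; ring
    rw [e]
    refine dvd_sub (Finset.dvd_sum fun j _ => ((hpf'.trans (D.cross j i c))).mul_left _) ?_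
    fin_cases c
    · exact dvd_sub ((hσ 1).mul_right _) ((hσ 2).mul_right _)
    · exact dvd_sub ((hσ 2).mul_right _) ((hσ 0).mul_right _)
    · exact dvd_sub ((hσ 0).mul_right _) ((hσ 1).mul_right _)
  choose w hw using h1
  obtain ⟨u, hu⟩ := hκ
  refine ⟨fun j => -(↑u⁻¹ : S) * w j, funext fun i => ?_⟩
  have e1 := D.adj_mul σ i
  have e2 : D.adj (D.mul σ) i = f * D.adj w i := by
    have : D.mul σ = fun j => f * w j := funext hw
    rw [this]
    fin_cases i <;> simp [adj] <;> ring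
  have e3 : D.adj (fun j => -(↑u⁻¹ : S) * w j) i = -(↑u⁻¹ : S) * D.adj w i := by
    fin_cases i <;> simp [adj] <;> ring
  rw [e3]
  have e4 : f * (κ * σ i + D.adj w i) = 0 := by
    have : f * D.adj w i = -D.pf * σ i := e2.symm.trans e1
    rw [mul_add, this, hpf]; ring
  have e5 : κ * σ i + D.adj w i = 0 := hf.1 _ e4
  have e6 : D.adj w i = -(κ * σ i) := by linear_combination e5
  rw [e6, ← hu]
  have := u.inv_mul
  linear_combination (-σ i) * this

end PD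

end MP72Q2
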