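import Mathlib

/-!
# Definitions for MP_72c78a_ag, Q2

Quasi-deformations, CI-dimension and complete intersection local rings.
-/

set_option autoImplicit false

namespace MP72Q2

open IsLocalRing CategoryTheory TensorProduct

universe u

/-- A quasi-deformation `R → R' ← Q` of the local ring `R`: `R'` and `Q` are noetherian local rings,
`R → R'` is a flat local homomorphism, and `Q → R'` is surjective with kernel generated by the
`Q`-regular sequence `rs`. -/
structure QuasiDeformation (R : Type u) [CommRing R] [IsLocalRing R] where
  /-- the flat local `R`-algebra -/
  R' : Type u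
  /-- the ring of which `R'` is a quotient -/
  Q : Type u
  [commRing' : CommRing R']
  [isLocalRing' : IsLocalRing R']
  [isNoetherianRing' : IsNoetherianRing R']
  [commRingQ : CommRing Q]
  [isLocalRingQ : IsLocalRing Q]
  [isNoetherianRingQ : IsNoetherianRing Q]
  [algebra' : Algebra R R']
  [algebraQ : Algebra Q R']
  flat : Module.Flat R R'
  isLocalHom : IsLocalHom (algebraMap R R')
  surjective : Function.Surjective (algebraMap Q R')
  /-- the regular sequence -/
  rs : List Q
  regular : RingTheory.Sequence.IsRegular Q rs
  ker_eq : RingHom.ker (algebraMap Q R') = Ideal.ofList rs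

attribute [instance] QuasiDeformation.commRing' QuasiDeformation.isLocalRing'
  QuasiDeformation.isNoetherianRing' QuasiDeformation.commRingQ QuasiDeformation.isLocalRingQ
  QuasiDeformation.isNoetherianRingQ QuasiDeformation.algebra' QuasiDeformation.algebraQ

/-- The CI-dimension of the `R`-module `M` is at most `n`: there is a quasi-deformation
`R → R' ← Q` such that the projective dimension over `Q` of `R' ⊗ M` is at most `c + n`, where `c` is
the length of the regular sequence generating the kernel of `Q → R'` (so `c` is the projective
dimension of the `Q`-module `R'`). -/
def CIdimLE (R : Type u) [CommRing R] [IsLocalRing R] (M : Type u) [AddCommGroup M] [Module R M]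
    (n : ℕ) : Prop :=
  ∃ D : QuasiDeformation R, HasProjectiveDimensionLE
    ((ModuleCat.restrictScalars (algebraMap D.Q D.R')).obj (ModuleCat.of D.R' (D.R' ⊗[R] M)))
    (D.rs.length + n)

/-- The local ring `R` is a complete intersection: its completion is the quotient of a regular local
ring by an ideal generated by a regular sequence. -/
def IsCI (R : Type u) [CommRing R] [IsLocalRing R] : Prop :=
  ∃ (T : Type u) (_ : CommRing T) (_ : IsRegularLocalRing T)
    (φ : T →+* AdicCompletion (maximalIdeal R) R),
    Function.Surjective φ ∧
      ∃ rs : List T, RingTheory.Sequence.IsRegular T rs ∧ RingHom.ker φ = Ideal.ofList rs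

end MP72Q2
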