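import Pool.Agent.Lib.MP_72c78a_ag_Q2.Frame

/-!
# JOB DerA: derivations of `R = Q / (f)` from vector fields of degree one

`der_Q`: for `θ` of degree one, `q ↦ θ · grad q` is a derivation of `Q`: choose (`Frame.exists_of_e_zero`,
`Frame.e_dot`) the element of `Q` with image `θ · grad q`; additivity, `k`-linearity (`Frame.tower`) and the Leibniz
rule follow from injectivity (`Frame.inj`).
`der_R`: if moreover `f` divides `θ · grad f` then this derivation maps `(f)` to itself
(`Frame.dvd_of_dvd`), so it induces a derivation of `R` (`Derivation.liftOfSurjective`).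
-/

set_option autoImplicit false

namespace MP72Q2

universe u

variable {k Q S : Type u} [Field k] [CommRing Q] [CommRing S] [Algebra k Q] [Algebra k S]
  [Algebra Q S]

namespace Frame

variable (Fr : Frame k Q S)

private theorem DerA_dt_add (θ u v : Fin 3 → S) : dt θ (u + v) = dt θ u + dt θ v := by
  simp only [dt, Pi.add_apply]
  ring

private theorem DerA_grad_add (a b : S) : Fr.grad (a + b) = Fr.grad a + Fr.grad b := by
  funext c
  exact map_add (Fr.dd c) a b

include Fr in
private theorem DerA_smul (c : k) (q : Q) : algebraMap Q S (c • q) = c • algebraMap Q S q := by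
  rw [Algebra.smul_def, map_mul, Fr.tower, ← Algebra.smul_def]

private theorem DerA_dt_smul (c : k) (θ : Fin 3 → S) (s : S) :
    dt θ (Fr.grad (c • s)) = c • dt θ (Fr.grad s) := by
  simp only [dt, grad, Derivation.map_smul, smul_add, mul_smul_comm]

private theorem DerA_dt_mul (θ : Fin 3 → S) (a b : S) :
    dt θ (Fr.grad (a * b)) = a * dt θ (Fr.grad b) + b * dt θ (Fr.grad a) := by
  simp only [dt, grad, Derivation.leibniz, smul_eq_mul]
  ring

theorem der_Q (θ : Fin 3 → S) (hθ : ∀ c, Fr.e 1 (θ c) = θ c) :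
    ∃ d : Derivation k Q Q, ∀ q, algebraMap Q S (d q) = dt θ (Fr.grad (algebraMap Q S q)) := by
  have h1 : ∀ q : Q, ∃ r : Q, algebraMap Q S r = dt θ (Fr.grad (algebraMap Q S q)) :=
    fun q => Fr.exists_of_e_zero (Fr.e_dot hθ q)
  choose g hg using h1
  refine ⟨Derivation.mk' { toFun := g, map_add' := fun a b => ?_, map_smul' := fun c a => ?_ }
    (fun a b => ?_), fun q => hg q⟩
  · apply Fr.inj
    rw [hg, map_add, map_add, hg, hg, Fr.DerA_grad_add, DerA_dt_add]
  · apply Fr.inj
    rw [hg, Fr.DerA_smul, Fr.DerA_dt_smul, RingHom.id_apply, Fr.DerA_smul, hg]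
  · apply Fr.inj
    show algebraMap Q S (g (a * b)) = algebraMap Q S (a • g b + b • g a)
    rw [hg, map_mul, Fr.DerA_dt_mul, map_add, smul_eq_mul, smul_eq_mul, map_mul, map_mul, hg, hg]

theorem der_R {R : Type u} [CommRing R] [Algebra k R] (π : Q →ₐ[k] R)
    (hπ : Function.Surjective π) {f : Q} (hker : ∀ q, π q = 0 ↔ f ∣ q) (θ : Fin 3 → S)
    (hθ : ∀ c, Fr.e 1 (θ c) = θ c)
    (hf : algebraMap Q S f ∣ dt θ (Fr.grad (algebraMap Q S f))) :
    ∃ d : Derivation k R R, ∀ q r : Q,
      algebraMap Q S r = dt θ (Fr.grad (algebraMap Q S q)) → d (π q) = π r := by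
  obtain ⟨d, hd⟩ := Fr.der_Q θ hθ
  have hdf : f ∣ d f := Fr.dvd_of_dvd (by rw [hd]; exact hf)
  have hker2 : ∀ x, π x = 0 → π (d x) = 0 := by
    intro x hx
    rw [hker] at hx ⊢
    obtain ⟨y, rfl⟩ := hx
    rw [Derivation.leibniz, smul_eq_mul, smul_eq_mul]
    exact dvd_add (dvd_mul_right f _) (hdf.mul_left y)
  refine ⟨Derivation.liftOfSurjective hπ hker2, fun q r hr => ?_⟩
  rw [Derivation.liftOfSurjective_apply]
  have h2 : d q = r := Fr.inj (by rw [hd, hr])
  rw [h2]

end Frame

end MP72Q2
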