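import Pool.Agent.Lib.MP_72c78a_ag_Q2.DerA

/-!
# JOB DerB: every derivation of `R = Q / (f)` comes from a vector field of degree one

Write `F = algebraMap Q S f`, `x i = Fr.X i`. Let `d` be a derivation of `R`.
* For every `q : Q` choose `q' : Q` with `π q' = d (π q)` (write `L q` for it). For a relation between
  elements of `Q` apply `d ∘ π` and the Leibniz rule; an equality `π a = π b` means `f ∣ a - b`
  (`hker`), so `F ∣ algebraMap a - algebraMap b`.
* Let `a i : Q` with `algebraMap (a i) = x i ^ 3`, `b i j` with `algebraMap (b i j) = x i * x j ^ 2`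
  (`Fr.exists_mon`), `A i = algebraMap (L (a i))`, `B = algebraMap (L (b i j))`. In `Q` (by injectivity)
  `b i j ^ 3 = a i * a j ^ 2`, so `F ∣ 3 (x i x j ^ 2) ^ 2 B - (x j ^ 6 A i + 2 x i ^ 3 x j ^ 3 A j)`, that is
  `F ∣ x j ^ 3 * (3 x i ^ 2 x j B - x j ^ 3 A i - 2 x i ^ 3 A j)`, and `Par.regx_pow` (for the pair
  starting with `x j`) gives `F ∣ 3 x i ^ 2 x j B - x j ^ 3 A i - 2 x i ^ 3 A j`. Now `Par.reg2` for the
  pair `x i, x j` (`j` the successor of `i`), exponents `2, 3`: there is `s` with `F ∣ A i - x i ^ 2 * s`.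
  Put `t i = Fr.e 1 s`: apply `Fr.e 0` (`Fr.dvd_e`; `Fr.e_alg`; `Fr.e_mul 2 1 (x i ^ 2) s`, `2 + 1 = 0`):
  `F ∣ A i - x i ^ 2 * t i`.
* `θ i = algebraMap Q S (algebraMap k Q 3⁻¹) * t i`; `Fr.e 1 (θ i) = θ i` (`Fr.e 1` is `Q`-linear, and
  `Fr.e_idem`).
  So `F ∣ A i - 3 * x i ^ 2 * θ i`.
* For a monomial `m` with `algebraMap m = x i * x j * x l`: `m ^ 3 = a i * a j * a l` in `Q`; applying `d ∘ π`:
  `F ∣ 3 m ^ 2 M - (A i x j ^ 3 x l ^ 3 + x i ^ 3 A j x l ^ 3 + x i ^ 3 x j ^ 3 A l)`, `M = algebraMap (L m)`;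
  with `A i ≡ 3 x i ^ 2 θ i` the bracket is `3 m ^ 2 (θ i x j x l + x i θ j x l + x i x j θ l)
  = 3 m ^ 2 (θ · grad m)` (`Fr.dd_X`, Leibniz), so `F ∣ 3 (x i x j x l) ^ 2 (M - θ · grad m)`; cancel `3`
  (a unit, `CharZero k`) and the variables (`Par.regx`).
* So the two derivations `Q → R` (`R` a `Q`-module via `π`), `q ↦ d (π q)` and `q ↦ π (θ · grad q)`
  (`Frame.der_Q` in DerA: derivation of `Q` composed with `π`) agree on the monomials `m`; by `Fr.ext` they
  agree.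
-/

set_option autoImplicit false

namespace MP72Q2

universe u

variable {k Q S : Type u} [Field k] [CharZero k] [CommRing Q] [CommRing S] [IsDomain S]
  [Algebra k Q] [Algebra k S] [Algebra Q S]

namespace Frame

variable (Fr : Frame k Q S)

private theorem DerB_dt_mul (θ : Fin 3 → S) (a b : S) :
    dt θ (Fr.grad (a * b)) = a * dt θ (Fr.grad b) + b * dt θ (Fr.grad a) := by
  simp only [dt, Frame.grad, Derivation.leibniz, smul_eq_mul]
  ring

private theorem DerB_dt_X (θ : Fin 3 → S) (i : Fin 3) : dt θ (Fr.grad (Fr.X i)) = θ i := by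
  simp only [dt, Frame.grad, Fr.dd_X]
  fin_cases i <;> simp

omit [CharZero k] [IsDomain S] in
private theorem DerB_lift {R : Type u} [CommRing R] [Algebra k R] (π : Q →ₐ[k] R)
    {f : Q} (hker : ∀ q, π q = 0 ↔ f ∣ q) (d : Derivation k R R) (L : Q → Q)
    (hL : ∀ q, π (L q) = d (π q)) (m a b c : Q) (h : m * m * m = a * b * c) :
    algebraMap Q S f ∣ 3 * algebraMap Q S m ^ 2 * algebraMap Q S (L m) -
      (algebraMap Q S (L a) * algebraMap Q S b * algebraMap Q S c +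
        algebraMap Q S a * algebraMap Q S (L b) * algebraMap Q S c +
        algebraMap Q S a * algebraMap Q S b * algebraMap Q S (L c)) := by
  have e : d (π m * π m * π m) = d (π a * π b * π c) := by
    rw [← map_mul, ← map_mul, ← map_mul, ← map_mul, h]
  simp only [Derivation.leibniz, smul_eq_mul] at e
  have e2 : f ∣ 3 * m ^ 2 * L m - (L a * b * c + a * L b * c + a * b * L c) := by
    rw [← hker]
    simp only [map_sub, map_mul, map_add, map_pow, map_ofNat, hL]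
    linear_combination e
  have e3 := map_dvd (algebraMap Q S) e2
  simp only [map_sub, map_mul, map_add, map_pow, map_ofNat] at e3
  exact e3

omit [CharZero k] in
private theorem DerB_t {R : Type u} [CommRing R] [Algebra k R] (π : Q →ₐ[k] R)
    {f : Q} (hker : ∀ q, π q = 0 ↔ f ∣ q) (d : Derivation k R R) (L : Q → Q)
    (hL : ∀ q, π (L q) = d (π q)) (a : Fin 3 → Q) (ha : ∀ i, algebraMap Q S (a i) = Fr.X i ^ 3)
    (i j : Fin 3) (hij : Par (Fr.X i) (Fr.X j) (algebraMap Q S f)) {y : S}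
    (hj : Par (Fr.X j) y (algebraMap Q S f)) :
    ∃ t, Fr.e 1 t = t ∧ algebraMap Q S f ∣ algebraMap Q S (L (a i)) - Fr.X i ^ 2 * t := by
  obtain ⟨b, hb⟩ := Fr.exists_mon i j j
  have h : b * b * b = a i * a j * a j := by
    apply Fr.inj
    simp only [map_mul, hb, ha]
    ring
  have h1 := DerB_lift (S := S) π hker d L hL b (a i) (a j) (a j) h
  rw [hb, ha, ha] at h1
  have h2 : algebraMap Q S f ∣ Fr.X j ^ 3 * (3 * Fr.X i ^ 2 * Fr.X j * algebraMap Q S (L b) -
      Fr.X j ^ 3 * algebraMap Q S (L (a i)) - 2 * Fr.X i ^ 3 * algebraMap Q S (L (a j))) :=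
    h1.trans (dvd_of_eq (by ring))
  have h3 := hj.regx_pow 3 h2
  have h4 : algebraMap Q S f ∣ Fr.X j ^ 3 * algebraMap Q S (L (a i)) -
      Fr.X i ^ 2 * (3 * Fr.X j * algebraMap Q S (L b) - 2 * Fr.X i * algebraMap Q S (L (a j))) := by
    rw [← dvd_neg]
    exact h3.trans (dvd_of_eq (by ring))
  obtain ⟨s, hs⟩ := hij.reg2 2 3 h4
  refine ⟨Fr.e 1 s, Fr.e_idem 1 s, ?_⟩
  have h5 := Fr.dvd_e 0 hs
  have h6 : Fr.e 0 (Fr.X i ^ 2 * s) = Fr.X i ^ 2 * Fr.e 1 s := by
    have h7 := Fr.e_mul 2 1 (Fr.X i ^ 2) s (by rw [sq]; exact Fr.e_XX i i)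
    rwa [show (2 : ZMod 3) + 1 = 0 by decide] at h7
  rwa [map_sub, Fr.e_alg, h6] at h5

theorem exists_theta {R : Type u} [CommRing R] [Algebra k R] (π : Q →ₐ[k] R)
    (hπ : Function.Surjective π) {f : Q} (hker : ∀ q, π q = 0 ↔ f ∣ q)
    (h01 : Par (Fr.X 0) (Fr.X 1) (algebraMap Q S f)) (h12 : Par (Fr.X 1) (Fr.X 2) (algebraMap Q S f))
    (h20 : Par (Fr.X 2) (Fr.X 0) (algebraMap Q S f)) (d : Derivation k R R) :
    ∃ θ : Fin 3 → S, (∀ c, Fr.e 1 (θ c) = θ c) ∧ ∀ q r : Q,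
      algebraMap Q S r = dt θ (Fr.grad (algebraMap Q S q)) → d (π q) = π r := by
  classical
  choose L hL using fun q => hπ (d (π q))
  choose a ha' using fun i => Fr.exists_mon i i i
  have ha : ∀ i, algebraMap Q S (a i) = Fr.X i ^ 3 := fun i => by rw [ha']; ring
  have hreg : ∀ (i : Fin 3) (c : S), algebraMap Q S f ∣ Fr.X i * c → algebraMap Q S f ∣ c := by
    intro i c h
    fin_cases i
    · exact h01.regx h
    · exact h12.regx h
    · exact h20.regx h
  have ht : ∀ i, ∃ t, Fr.e 1 t = t ∧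
      algebraMap Q S f ∣ algebraMap Q S (L (a i)) - Fr.X i ^ 2 * t := by
    intro i
    fin_cases i
    · exact DerB_t Fr π hker d L hL a ha 0 1 h01 h12
    · exact DerB_t Fr π hker d L hL a ha 1 2 h12 h20
    · exact DerB_t Fr π hker d L hL a ha 2 0 h20 h01
  choose t ht1 ht2 using ht
  obtain ⟨u, hu⟩ : ∃ u : Q, u = algebraMap k Q 3⁻¹ := ⟨_, rfl⟩
  have hu3 : 3 * algebraMap Q S u = 1 := by
    rw [hu, Fr.tower]
    have h1 : (3 : S) = algebraMap k S 3 := (map_ofNat (algebraMap k S) 3).symm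
    rw [h1, ← map_mul, mul_inv_cancel₀ (by norm_num : (3 : k) ≠ 0), map_one]
  obtain ⟨θ, hθ⟩ : ∃ θ : Fin 3 → S, ∀ i, θ i = algebraMap Q S u * t i := ⟨_, fun _ => rfl⟩
  have hθ1 : ∀ c, Fr.e 1 (θ c) = θ c := by
    intro c
    rw [hθ, ← Algebra.smul_def, map_smul, ht1]
  have hθ3 : ∀ i, 3 * θ i = t i := by
    intro i
    rw [hθ, ← mul_assoc, hu3, one_mul]
  have hA : ∀ i, algebraMap Q S f ∣ algebraMap Q S (L (a i)) - 3 * Fr.X i ^ 2 * θ i := by
    intro i
    refine (ht2 i).trans (dvd_of_eq ?_)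
    rw [← hθ3]
    ring
  obtain ⟨δ, hδ⟩ := Fr.der_Q θ hθ1
  -- the monomials
  have hmon : ∀ m : Q, (∃ i j l, algebraMap Q S m = Fr.X i * Fr.X j * Fr.X l) → π (L m) = π (δ m) := by
    rintro m ⟨i, j, l, hm⟩
    have h : m * m * m = a i * a j * a l := by
      apply Fr.inj
      simp only [map_mul, hm, ha]
      ring
    have h1 := DerB_lift (S := S) π hker d L hL m (a i) (a j) (a l) h
    rw [hm, ha, ha, ha] at h1
    have hg : algebraMap Q S (δ m) = θ i * Fr.X j * Fr.X l + Fr.X i * θ j * Fr.X l +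
        Fr.X i * Fr.X j * θ l := by
      rw [hδ, hm, DerB_dt_mul, DerB_dt_mul, DerB_dt_X, DerB_dt_X, DerB_dt_X]
      ring
    have h2 : algebraMap Q S f ∣ 3 * (Fr.X i * Fr.X j * Fr.X l) ^ 2 *
        (algebraMap Q S (L m) - algebraMap Q S (δ m)) := by
      have e : 3 * (Fr.X i * Fr.X j * Fr.X l) ^ 2 * (algebraMap Q S (L m) - algebraMap Q S (δ m)) =
          (3 * (Fr.X i * Fr.X j * Fr.X l) ^ 2 * algebraMap Q S (L m) -
            (algebraMap Q S (L (a i)) * Fr.X j ^ 3 * Fr.X l ^ 3 +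
              Fr.X i ^ 3 * algebraMap Q S (L (a j)) * Fr.X l ^ 3 +
              Fr.X i ^ 3 * Fr.X j ^ 3 * algebraMap Q S (L (a l)))) +
          ((algebraMap Q S (L (a i)) - 3 * Fr.X i ^ 2 * θ i) * (Fr.X j ^ 3 * Fr.X l ^ 3) +
            (algebraMap Q S (L (a j)) - 3 * Fr.X j ^ 2 * θ j) * (Fr.X i ^ 3 * Fr.X l ^ 3) +
            (algebraMap Q S (L (a l)) - 3 * Fr.X l ^ 2 * θ l) * (Fr.X i ^ 3 * Fr.X j ^ 3)) := by
        rw [hg]
        ring
      rw [e]
      exact dvd_add h1 (dvd_add (dvd_add ((hA i).mul_right _) ((hA j).mul_right _))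
        ((hA l).mul_right _))
    have h3 : algebraMap Q S f ∣ (Fr.X i * Fr.X j * Fr.X l) ^ 2 *
        (algebraMap Q S (L m) - algebraMap Q S (δ m)) := by
      have e : (Fr.X i * Fr.X j * Fr.X l) ^ 2 * (algebraMap Q S (L m) - algebraMap Q S (δ m)) =
          algebraMap Q S u * (3 * (Fr.X i * Fr.X j * Fr.X l) ^ 2 *
            (algebraMap Q S (L m) - algebraMap Q S (δ m))) := by
        linear_combination (-(Fr.X i * Fr.X j * Fr.X l) ^ 2 *
          (algebraMap Q S (L m) - algebraMap Q S (δ m))) * hu3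
      rw [e]
      exact h2.mul_left _
    have h4 : algebraMap Q S f ∣ Fr.X i * (Fr.X j * (Fr.X l * (Fr.X i * (Fr.X j * (Fr.X l *
        (algebraMap Q S (L m) - algebraMap Q S (δ m))))))) :=
      h3.trans (dvd_of_eq (by ring))
    have h5 := hreg _ _ (hreg _ _ (hreg _ _ (hreg _ _ (hreg _ _ (hreg _ _ h4)))))
    rw [← map_sub] at h5
    have h6 := (hker _).2 (Fr.dvd_of_dvd h5)
    rw [map_sub] at h6
    exact sub_eq_zero.1 h6
  -- comparison of the two derivations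
  letI : Algebra Q R := (π : Q →+* R).toAlgebra
  have hsm : ∀ (q : Q) (r : R), q • r = π q * r := fun q r => rfl
  let D₁ : Derivation k Q R := Derivation.mk' (d.toLinearMap ∘ₗ π.toLinearMap) (by
    intro x y
    show d (π (x * y)) = x • d (π y) + y • d (π x)
    rw [map_mul, Derivation.leibniz, hsm, hsm, smul_eq_mul, smul_eq_mul])
  let D₂ : Derivation k Q R := Derivation.mk' (π.toLinearMap ∘ₗ δ.toLinearMap) (by
    intro x y
    show π (δ (x * y)) = x • π (δ y) + y • π (δ x)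
    rw [Derivation.leibniz, hsm, hsm, map_add, smul_eq_mul, smul_eq_mul, map_mul, map_mul])
  have hD : D₁ = D₂ := by
    refine Fr.ext R D₁ D₂ ?_
    intro m hm
    show d (π m) = π (δ m)
    rw [← hL]
    exact hmon m hm
  refine ⟨θ, hθ1, fun q r hr => ?_⟩
  have h1 : D₁ q = D₂ q := by rw [hD]
  have h2 : d (π q) = π (δ q) := h1
  have h3 : δ q = r := Fr.inj (by rw [hδ, hr])
  rw [h2, h3]

end Frame

end MP72Q2
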