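import Pool.Agent.Lib.MP_72c78a_ag_Q2.VerL

/-!
# JOB Edim: generators of the maximal ideal and of its square

`gen28`: the square of the maximal ideal of `Q` is generated by (at most) 28 elements. Let
`I = {(a, b, c) ∈ Fin 7 × Fin 7 × Fin 7 | a + b + c = 6}` (a `Finset.filter`, `card = 28` by `decide`), and for
`(a, b, c)` let `m a b c : VV k` be the monomial `X 0 ^ a * X 1 ^ b * X 2 ^ c`. By `Q_max`, `maximalIdeal Q ^ 2` is
generated by the products of two cubic monomials (`Ideal.span_mul_span`), which are the `m a b c`,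
`(a, b, c) ∈ I` (each product of two cubic monomials is an `m a b c`; each `m a b c` with `a + b + c = 6` is
a product of two cubic monomials: `decide`-like case check or by a general argument). Take the image
finset.

`edim`: `R = Q / (f)`, `f ∈ m_Q ^ 2`, has embedding dimension at least `10`. Let `W = (I3 → k)` with
`I3 = {(a, b, c) ∈ Fin 4 × Fin 4 × Fin 4 | a + b + c = 3}` (ten elements, `decide`), and
`χ : VV k → TrivSqZeroExt k W`, `v ↦ inl (v(0)) + inr (fun (a, b, c) => coefficient of X^a Y^b Z^c in v)`: a ring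
homomorphism, because for `v, w ∈ VV` the coefficient of a cubic monomial `μ` in `v w` is
`v(0) coeff μ w + w(0) coeff μ v` (`MvPolynomial.coeff_mul`: the monomials of `v`, `w` have degrees divisible by
`3`). Elements outside `nV` are mapped to units (`TrivSqZeroExt.isUnit_iff_isUnit_fst`), so `χ` extends to
`Q → TrivSqZeroExt k W =: E` (`IsLocalization.lift`); it maps `m_Q` into the ideal `J = ker fst` (by `Q_max`), so
`m_Q ^ 2` and `f` to `J ^ 2 = 0`, and factors through `χ' : R → E` (`Ideal.Quotient.lift` or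
`RingHom.liftOfSurjective`). `χ'` maps `m_R` onto `J` (the cubic monomials map to the basis vectors, and
`inl c` is hit), so `J = map χ' m_R` and `J.spanFinrank ≤ (maximalIdeal R).spanFinrank`
(`Ideal.spanFinrank_map_le_of_fg`). Finally `J` needs at least `10` generators: if
`J = span s` then, since `(inl c + inr w) * inr w' = inr (c w')`, the second components of the elements
of `s` span the `k`-vector space `W` of dimension `10` (`finrank_span_le_card`/`finrank_le_of_span_eq_top`);
`Submodule.FG.exists_span_finset_card_eq_spanFinrank`.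
-/

set_option autoImplicit false

namespace MP72Q2

open MvPolynomial IsLocalRing

universe u

section aux

variable (k : Type u) [Field k]

/-- number of occurrences of `c` -/
private def ind (c i : Fin 3) : ℕ := if i = c then 1 else 0

private theorem ind_sum (i : Fin 3) : ind 0 i + ind 1 i + ind 2 i = 1 := by
  revert i
  decide

private theorem X_ind (i : Fin 3) :
    (X i : PP k) = X 0 ^ ind 0 i * X 1 ^ ind 1 i * X 2 ^ ind 2 i := by
  fin_cases i
  · show (X 0 : PP k) = X 0 ^ 1 * X 1 ^ 0 * X 2 ^ 0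
    ring
  · show (X 1 : PP k) = X 0 ^ 0 * X 1 ^ 1 * X 2 ^ 0
    ring
  · show (X 2 : PP k) = X 0 ^ 0 * X 1 ^ 0 * X 2 ^ 1
    ring

/-- six indices -/
private abbrev Six := Fin 3 × Fin 3 × Fin 3 × Fin 3 × Fin 3 × Fin 3

/-- number of occurrences of `c` -/
private def cn (c : Fin 3) (τ : Six) : ℕ :=
  ind c τ.1 + ind c τ.2.1 + ind c τ.2.2.1 + ind c τ.2.2.2.1 + ind c τ.2.2.2.2.1 +
    ind c τ.2.2.2.2.2

private theorem cn_sum (τ : Six) : cn 0 τ + cn 1 τ + cn 2 τ = 6 := by
  unfold cn
  have h1 := ind_sum τ.1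
  have h2 := ind_sum τ.2.1
  have h3 := ind_sum τ.2.2.1
  have h4 := ind_sum τ.2.2.2.1
  have h5 := ind_sum τ.2.2.2.2.1
  have h6 := ind_sum τ.2.2.2.2.2
  omega

/-- the product of two cubic monomials -/
private noncomputable def pr (τ : Six) : VV k :=
  cub k τ.1 τ.2.1 τ.2.2.1 * cub k τ.2.2.2.1 τ.2.2.2.2.1 τ.2.2.2.2.2

private theorem coe_pr (τ : Six) :
    (pr k τ : PP k) = X 0 ^ cn 0 τ * X 1 ^ cn 1 τ * X 2 ^ cn 2 τ := by
  have e : (pr k τ : PP k) = X τ.1 * X τ.2.1 * X τ.2.2.1 *
      (X τ.2.2.2.1 * X τ.2.2.2.2.1 * X τ.2.2.2.2.2) := rfl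
  rw [e, X_ind k τ.1, X_ind k τ.2.1, X_ind k τ.2.2.1, X_ind k τ.2.2.2.1, X_ind k τ.2.2.2.2.1,
    X_ind k τ.2.2.2.2.2]
  unfold cn
  ring

private theorem pr_eq (τ σ : Six) (h0 : cn 0 τ = cn 0 σ) (h1 : cn 1 τ = cn 1 σ) :
    pr k τ = pr k σ := by
  apply Subtype.ext
  have h2 : cn 2 τ = cn 2 σ := by
    have := cn_sum τ
    have := cn_sum σ
    omega
  rw [coe_pr, coe_pr, h0, h1, h2]

/-- the pair of numbers of occurrences -/
private def ct (τ : Six) : ℕ × ℕ := (cn 0 τ, cn 1 τ)

private theorem card_ct : (Finset.univ.image ct).card ≤ 28 := by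
  have h : Finset.univ.image ct ⊆
      ((Finset.range 7 ×ˢ Finset.range 7).filter fun p => p.1 + p.2 ≤ 6) := by
    intro p hp
    obtain ⟨τ, -, rfl⟩ := Finset.mem_image.1 hp
    have h1 := cn_sum τ
    rw [Finset.mem_filter, Finset.mem_product, Finset.mem_range, Finset.mem_range]
    unfold ct
    refine ⟨⟨?_, ?_⟩, ?_⟩ <;> show _ <;> dsimp only <;> omega
  refine (Finset.card_le_card h).trans ?_
  decide

private theorem card_pr {Q : Type u} [CommRing Q] [Algebra (VV k) Q] [DecidableEq Q] :
    (Finset.univ.image fun τ : Six => algebraMap (VV k) Q (pr k τ)).card ≤ 28 := by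
  classical
  set F : Six → Q := fun τ => algebraMap (VV k) Q (pr k τ) with hF
  have h1 : ∀ τ σ : Six, ct τ = ct σ → F τ = F σ := by
    intro τ σ h
    have h0 : cn 0 τ = cn 0 σ := congrArg Prod.fst h
    have h1 : cn 1 τ = cn 1 σ := congrArg Prod.snd h
    rw [hF]
    show algebraMap (VV k) Q (pr k τ) = algebraMap (VV k) Q (pr k σ)
    rw [pr_eq k τ σ h0 h1]
  let G : ℕ × ℕ → Q := fun p => if h : ∃ τ, ct τ = p then F h.choose else 0
  have h2 : ∀ τ, F τ = G (ct τ) := by
    intro τ
    have h3 : ∃ σ, ct σ = ct τ := ⟨τ, rfl⟩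
    show F τ = if h : ∃ σ, ct σ = ct τ then F h.choose else 0
    rw [dif_pos h3]
    exact h1 _ _ h3.choose_spec.symm
  have h3 : Finset.univ.image F = (Finset.univ.image ct).image G := by
    rw [Finset.image_image]
    refine Finset.image_congr fun τ _ => ?_
    exact h2 τ
  rw [h3]
  exact Finset.card_image_le.trans card_ct

/-- the exponents of the cubic monomials -/
private def tb : Fin 10 → Fin 3 → ℕ :=
  ![![3, 0, 0], ![0, 3, 0], ![0, 0, 3], ![2, 1, 0], ![2, 0, 1], ![1, 2, 0], ![0, 2, 1],
    ![1, 0, 2], ![0, 1, 2], ![1, 1, 1]]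

private theorem tb_sum (n : Fin 10) : tb n 0 + tb n 1 + tb n 2 = 3 := by
  revert n
  decide

private theorem tb_inj : Function.Injective tb := by
  unfold Function.Injective
  decide

/-- the exponents of the cubic monomials -/
private noncomputable def ex (n : Fin 10) : Fin 3 →₀ ℕ := Finsupp.equivFunOnFinite.symm (tb n)

private theorem ex_apply (n : Fin 10) (i : Fin 3) : ex n i = tb n i := rfl

private theorem ex_inj : Function.Injective ex := fun _ _ h =>
  tb_inj (Finsupp.equivFunOnFinite.symm.injective h)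

private theorem wt (d : Fin 3 →₀ ℕ) : Finsupp.weight w3 d = ((d 0 + d 1 + d 2 : ℕ) : ZMod 3) := by
  rw [Finsupp.weight_apply, Finsupp.sum_fintype _ (fun i c => c • w3 i) (fun i => zero_smul _ _),
    Fin.sum_univ_three]
  simp only [w3, nsmul_eq_mul, mul_one]
  push_cast
  ring

private theorem VV_coeff (v : VV k) (d : Fin 3 →₀ ℕ) (h : ¬ 3 ∣ d 0 + d 1 + d 2) :
    coeff d (v : PP k) = 0 := by
  by_contra hc
  have h1 : Finsupp.weight w3 d = 0 := ((mem_VV k _).1 v.2) hc
  rw [wt, ZMod.natCast_eq_zero_iff] at h1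
  exact h h1

private theorem coeff_prod (v w : VV k) (n : Fin 10) :
    coeff (ex n) ((v : PP k) * (w : PP k)) = constantCoeff (v : PP k) * coeff (ex n) (w : PP k) +
      coeff (ex n) (v : PP k) * constantCoeff (w : PP k) := by
  classical
  have hne : ex n ≠ 0 := by
    intro h0
    have h1 := tb_sum n
    rw [← ex_apply, ← ex_apply, ← ex_apply, h0] at h1
    simp at h1
  rw [coeff_mul, Finset.sum_eq_add (0, ex n) (ex n, 0)]
  · rfl
  · intro h
    exact hne (congrArg Prod.fst h).symm
  · rintro ⟨a, b⟩ hab ⟨h1, h2⟩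
    rw [Finset.HasAntidiagonal.mem_antidiagonal] at hab
    dsimp only at hab ⊢
    have ha : a ≠ 0 := by
      rintro rfl
      rw [zero_add] at hab
      exact h1 (by rw [hab])
    have hb : b ≠ 0 := by
      rintro rfl
      rw [add_zero] at hab
      exact h2 (by rw [hab])
    have s1 : ∀ i, a i + b i = tb n i := by
      intro i
      rw [← ex_apply, ← hab]
      rfl
    have s2 := tb_sum n
    have e0 := s1 0
    have e1 := s1 1
    have e2 := s1 2
    have pa : a 0 + a 1 + a 2 ≠ 0 := by
      intro h3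
      apply ha
      ext i
      fin_cases i
      · show a 0 = 0
        omega
      · show a 1 = 0
        omega
      · show a 2 = 0
        omega
    have pb : b 0 + b 1 + b 2 ≠ 0 := by
      intro h3
      apply hb
      ext i
      fin_cases i
      · show b 0 = 0
        omega
      · show b 1 = 0
        omega
      · show b 2 = 0
        omega
    rw [VV_coeff k v a (by omega), zero_mul]
  · intro h
    exact absurd (Finset.HasAntidiagonal.mem_antidiagonal.2 (zero_add _)) h
  · intro h
    exact absurd (Finset.HasAntidiagonal.mem_antidiagonal.2 (add_zero _)) h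

/-- the target -/
private abbrev EE : Type u := TrivSqZeroExt k (Fin 10 → k)

/-- constant and cubic coefficients -/
private noncomputable def chi : VV k →+* EE k where
  toFun v := (constantCoeff (v : PP k), fun n => coeff (ex n) (v : PP k))
  map_one' := by
    refine Prod.ext ?_ ?_
    · exact map_one _
    · funext n
      show coeff (ex n) (1 : PP k) = 0
      rw [coeff_one, if_neg]
      intro h0
      have h1 := tb_sum n
      rw [← ex_apply, ← ex_apply, ← ex_apply, ← h0] at h1
      simp at h1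
  map_mul' v w := by
    refine Prod.ext ?_ ?_
    · exact map_mul _ _ _
    · funext n
      show coeff (ex n) ((v : PP k) * (w : PP k)) = constantCoeff (v : PP k) * coeff (ex n) (w : PP k) +
        coeff (ex n) (v : PP k) * constantCoeff (w : PP k)
      exact coeff_prod k v w n
  map_zero' := by
    refine Prod.ext ?_ ?_
    · exact map_zero _
    · funext n
      rfl
  map_add' v w := by
    refine Prod.ext ?_ ?_
    · exact map_add _ _ _
    · funext n
      exact coeff_add _ _ _

private theorem chi_fst (v : VV k) : (chi k v).fst = constantCoeff (v : PP k) := rfl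

private theorem chi_snd (v : VV k) (n : Fin 10) : (chi k v).snd n = coeff (ex n) (v : PP k) := rfl

/-- the cubic monomials -/
private noncomputable def mo (n : Fin 10) : VV k :=
  ⟨monomial (ex n) 1, by
    rw [mem_VV]
    apply isWeightedHomogeneous_monomial
    rw [wt, ex_apply, ex_apply, ex_apply, tb_sum]
    rfl⟩

private theorem chi_mo (n : Fin 10) : chi k (mo k n) = TrivSqZeroExt.inr (Pi.single n 1) := by
  classical
  refine Prod.ext ?_ ?_
  · show constantCoeff (monomial (ex n) (1 : k)) = 0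
    rw [constantCoeff_eq, coeff_monomial, if_neg]
    intro h0
    have h1 := tb_sum n
    rw [← ex_apply, ← ex_apply, ← ex_apply, h0] at h1
    simp at h1
  · funext m
    show coeff (ex m) (monomial (ex n) (1 : k)) = (Pi.single n 1 : Fin 10 → k) m
    rw [coeff_monomial, Pi.single_apply]
    by_cases h : m = n
    · rw [if_pos (by rw [h]), if_pos h]
    · rw [if_neg (fun h' => h (ex_inj h').symm), if_neg h]

private theorem mo_nV (n : Fin 10) : mo k n ∈ nV k := by
  rw [mem_nV, ← chi_fst, chi_mo]
  rfl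

end aux

variable (k : Type u) [Field k] (Q : Type u) [CommRing Q] [Algebra (VV k) Q]
  [IsLocalization.AtPrime Q (nV k)]

include k in
theorem gen28 [IsLocalRing Q] : ∃ s : Finset Q, s.card ≤ 28 ∧
    Ideal.span (s : Set Q) = maximalIdeal Q ^ 2 := by
  classical
  let _ : Algebra k Q := ((algebraMap (VV k) Q).comp (algebraMap k (VV k))).toAlgebra
  have : IsScalarTower k (VV k) Q := IsScalarTower.of_algebraMap_eq' rfl
  refine ⟨Finset.univ.image fun τ : Six => algebraMap (VV k) Q (pr k τ), card_pr k, ?_⟩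
  rw [Q_max k Q, pow_two, Ideal.span_mul_span']
  congr 1
  ext m
  rw [Finset.coe_image, Finset.coe_univ, Set.image_univ]
  constructor
  · rintro ⟨⟨i, j, l, i', j', l'⟩, rfl⟩
    refine ⟨_, ⟨i, j, l, rfl⟩, _, ⟨i', j', l', rfl⟩, ?_⟩
    show algebraMap (VV k) Q _ * algebraMap (VV k) Q _ = _
    rw [← map_mul]
    rfl
  · rintro ⟨_, ⟨i, j, l, rfl⟩, _, ⟨i', j', l', rfl⟩, rfl⟩
    refine ⟨⟨i, j, l, i', j', l'⟩, ?_⟩
    show _ = algebraMap (VV k) Q _ * algebraMap (VV k) Q _
    rw [← map_mul]
    rfl

include k in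
theorem edim [IsLocalRing Q] [IsNoetherianRing Q] {R : Type u} [CommRing R] [IsLocalRing R]
    (π : Q →+* R) (hπ : Function.Surjective π) (f : Q) (hker : RingHom.ker π = Ideal.span {f})
    (hf : f ∈ maximalIdeal Q ^ 2) : 10 ≤ (maximalIdeal R).spanFinrank := by
  classical
  let _ : Algebra k Q := ((algebraMap (VV k) Q).comp (algebraMap k (VV k))).toAlgebra
  have : IsScalarTower k (VV k) Q := IsScalarTower.of_algebraMap_eq' rfl
  have hu : ∀ y : (nV k).primeCompl, IsUnit (chi k (y : VV k)) := by
    rintro ⟨y, hy⟩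
    rw [TrivSqZeroExt.isUnit_iff_isUnit_fst, chi_fst]
    exact isUnit_iff_ne_zero.2 fun h0 => hy ((mem_nV k y).2 h0)
  let cQ : Q →+* EE k := IsLocalization.lift hu
  have cQ_eq : ∀ v : VV k, cQ (algebraMap (VV k) Q v) = chi k v := fun v =>
    IsLocalization.lift_eq hu v
  have cQ_m : ∀ q ∈ maximalIdeal Q, (cQ q).fst = 0 := by
    have h1 : maximalIdeal Q ≤
        RingHom.ker ((TrivSqZeroExt.fstHom k k (Fin 10 → k) : EE k →+* k).comp cQ) := by
      rw [Q_max k Q, Ideal.span_le]
      rintro _ ⟨i, j, l, rfl⟩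
      show (cQ (algebraMap (VV k) Q (cub k i j l))).fst = 0
      rw [cQ_eq, chi_fst]
      show constantCoeff (X i * X j * X l : PP k) = 0
      rw [map_mul, constantCoeff_X, mul_zero]
    exact fun q hq => h1 hq
  have sq0 : ∀ a b : EE k, a.fst = 0 → b.fst = 0 → a * b = 0 := by
    intro a b ha hb
    refine TrivSqZeroExt.ext ?_ ?_
    · rw [TrivSqZeroExt.fst_mul, ha, zero_mul, TrivSqZeroExt.fst_zero]
    · rw [TrivSqZeroExt.snd_mul, ha, hb, zero_smul, MulOpposite.op_zero, zero_smul, add_zero,
        TrivSqZeroExt.snd_zero]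
  have hle : RingHom.ker π ≤ RingHom.ker cQ := by
    rw [hker, Ideal.span_singleton_le_iff_mem]
    have h2 : maximalIdeal Q ^ 2 ≤ RingHom.ker cQ := by
      rw [pow_two, Ideal.mul_le]
      intro a ha b hb
      rw [RingHom.mem_ker, map_mul]
      exact sq0 _ _ (cQ_m a ha) (cQ_m b hb)
    exact h2 hf
  let cR : R →+* EE k := RingHom.liftOfSurjective π hπ ⟨cQ, hle⟩
  have cR_eq : ∀ q : Q, cR (π q) = cQ q := fun q =>
    RingHom.liftOfRightInverse_comp_apply π _ (Function.rightInverse_surjInv hπ) ⟨cQ, hle⟩ q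
  have : IsNoetherianRing R := isNoetherianRing_of_surjective Q R π hπ
  have hfm : f ∈ maximalIdeal Q := Ideal.pow_le_self (by norm_num) hf
  have hπm : ∀ q ∈ maximalIdeal Q, π q ∈ maximalIdeal R := by
    intro q hq
    rw [mem_maximalIdeal, mem_nonunits_iff]
    intro hun
    obtain ⟨r, hr⟩ := isUnit_iff_exists_inv.1 hun
    obtain ⟨s, rfl⟩ := hπ r
    have h1 : q * s - 1 ∈ RingHom.ker π := by
      rw [RingHom.mem_ker, map_sub, map_mul, hr, map_one, sub_self]
    rw [hker] at h1
    have h2 : q * s - 1 ∈ maximalIdeal Q :=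
      (Ideal.span_singleton_le_iff_mem _).2 hfm h1
    have h3 : (1 : Q) ∈ maximalIdeal Q := by
      have h4 := (maximalIdeal Q).sub_mem (Ideal.mul_mem_right s _ hq) h2
      rwa [sub_sub_cancel] at h4
    exact (Ideal.ne_top_iff_one _).1 (maximalIdeal.isMaximal Q).ne_top h3
  have hπm' : ∀ r ∈ maximalIdeal R, ∃ q ∈ maximalIdeal Q, π q = r := by
    intro r hr
    obtain ⟨q, rfl⟩ := hπ r
    refine ⟨q, ?_, rfl⟩
    rw [mem_maximalIdeal, mem_nonunits_iff] at hr ⊢
    exact fun h => hr (h.map π)
  set J : Ideal (EE k) := (maximalIdeal R).map cR with hJ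
  have hmfg : (maximalIdeal R).FG := IsNoetherian.noetherian _
  have hJfg : J.FG := hmfg.map cR
  have hJf : ∀ x ∈ J, x.fst = 0 := by
    have h1 : J ≤ RingHom.ker (TrivSqZeroExt.fstHom k k (Fin 10 → k) : EE k →+* k) := by
      rw [hJ, Ideal.map_le_iff_le_comap]
      intro r hr
      obtain ⟨q, hq, rfl⟩ := hπm' r hr
      show (cR (π q)).fst = 0
      rw [cR_eq]
      exact cQ_m q hq
    exact fun x hx => h1 hx
  have hJb : ∀ n : Fin 10, (TrivSqZeroExt.inr (Pi.single n 1) : EE k) ∈ J := by
    intro n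
    have h1 : cR (π (algebraMap (VV k) Q (mo k n))) = TrivSqZeroExt.inr (Pi.single n 1) := by
      rw [cR_eq, cQ_eq, chi_mo]
    rw [← h1]
    apply Ideal.mem_map_of_mem
    apply hπm
    rw [IsLocalization.AtPrime.to_map_mem_maximal_iff Q (nV k)]
    exact mo_nV k n
  obtain ⟨s, hs1, hs2⟩ := Submodule.FG.exists_span_finset_card_eq_spanFinrank hJfg
  have hsp : ∀ x ∈ Submodule.span (EE k) (s : Set (EE k)),
      x.snd ∈ Submodule.span k (Set.range fun y : s => (y : EE k).snd) := by
    intro x hx
    induction hx using Submodule.span_induction with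
    | mem x hx => exact Submodule.subset_span ⟨⟨x, hx⟩, rfl⟩
    | zero => exact Submodule.zero_mem _
    | add x y _ _ h1 h2 =>
      rw [TrivSqZeroExt.snd_add]
      exact Submodule.add_mem _ h1 h2
    | smul e x hx h1 =>
      have h2 : x.fst = 0 := hJf x (by rw [← hs2]; exact hx)
      rw [smul_eq_mul, TrivSqZeroExt.snd_mul, h2, MulOpposite.op_zero, zero_smul, add_zero]
      exact Submodule.smul_mem _ _ h1
  have htop : Submodule.span k (Set.range fun y : s => (y : EE k).snd) = ⊤ := by
    rw [eq_top_iff, ← (Pi.basisFun k (Fin 10)).span_eq, Submodule.span_le]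
    rintro _ ⟨n, rfl⟩
    have h1 := hsp (TrivSqZeroExt.inr (Pi.single n 1)) (by rw [hs2]; exact hJb n)
    rw [TrivSqZeroExt.snd_inr] at h1
    rw [Pi.basisFun_apply]
    exact h1
  have h10 := finrank_le_of_span_eq_top htop
  rw [Module.finrank_fin_fun, Fintype.card_coe, hs1] at h10
  exact h10.trans (Ideal.spanFinrank_map_le_of_fg cR hmfg)

end MP72Q2
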