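import Mathlib

/-!
# JOB Form: local rings essentially of finite type

Let `Q` be a local ring essentially of finite type over the field `k` and `I₀` a proper ideal. Then
`Q ⧸ I₀` is isomorphic to a quotient of the local ring of a polynomial ring `k[x_1, …, x_m]` at a prime.

Proof. `Algebra.EssFiniteType k Q`: there is a finite set `σ ⊆ Q` such that every `s : Q` satisfies
`∃ b ∈ Algebra.adjoin k σ, IsUnit b ∧ b * s ∈ Algebra.adjoin k σ` (`Algebra.essFiniteType_iff`). Let `m` be
the cardinality, `ψ = aeval` of an enumeration `Fin m → Q` of `σ`: `MvPolynomial (Fin m) k →ₐ[k] Q`, its range is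
`Algebra.adjoin k σ` (`Algebra.adjoin_range_eq_range_aeval`). `q = (maximalIdeal Q).comap ψ` is prime, elements
outside `q` are mapped to units of `Q`, so `ψ` extends to `Ψ : Localization.AtPrime q →ₐ[k] Q`
(`IsLocalization.liftAlgHom` or `IsLocalization.lift`), surjective: `s = (b s) / b`, both images of polynomials,
the one of `b` being outside `q`. Put `I = RingHom.ker ((Ideal.Quotient.mkₐ k I₀).comp Ψ)` (or the comap
of `I₀`), and `π = (Ideal.quotientKerAlgEquivOfSurjective _).symm.comp (Ideal.Quotient.mkₐ k I₀)`.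
`Localization.AtPrime q ⧸ I ≃ Q ⧸ I₀`, so `I` is prime (radical, proper) if `I₀` is
(`Ideal.comap` of a prime is prime; `Ideal.IsRadical.comap`).
-/

set_option autoImplicit false

namespace MP72Q2

open IsLocalRing

universe u

theorem form_main (k : Type u) [Field k] (Q : Type u) [CommRing Q] [IsLocalRing Q] [Algebra k Q]
    [Algebra.EssFiniteType k Q] (I₀ : Ideal Q) :
    ∃ (m : ℕ) (q : Ideal (MvPolynomial (Fin m) k)) (_ : q.IsPrime)
      (I : Ideal (Localization.AtPrime q)) (π : Q →ₐ[k] (Localization.AtPrime q ⧸ I)),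
      (I₀.IsPrime → I.IsPrime) ∧ (I₀.IsRadical → I.IsRadical) ∧
      Function.Surjective π ∧ RingHom.ker (π : Q →+* (Localization.AtPrime q ⧸ I)) = I₀ := by
  classical
  obtain ⟨σ, hσ⟩ := (Algebra.essFiniteType_iff (R := k) (S := Q)).1 inferInstance
  set f : Fin σ.card → Q := fun i => ((σ.equivFin).symm i : Q) with hf
  have hrange : Set.range f = (σ : Set Q) := by
    ext x
    constructor
    · rintro ⟨i, rfl⟩
      exact ((σ.equivFin).symm i).2
    · intro hx
      exact ⟨σ.equivFin ⟨x, hx⟩, by rw [hf]; simp⟩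
  set ψ : MvPolynomial (Fin σ.card) k →ₐ[k] Q := MvPolynomial.aeval f with hψ
  have hadj : ∀ x : Q, x ∈ Algebra.adjoin k (σ : Set Q) → ∃ p, ψ p = x := by
    intro x hx
    rw [← hrange, Algebra.adjoin_range_eq_range_aeval] at hx
    exact hx
  set q : Ideal (MvPolynomial (Fin σ.card) k) := (maximalIdeal Q).comap ψ with hq
  have hqp : q.IsPrime := by
    rw [hq]
    infer_instance
  have hunit : ∀ y : q.primeCompl, IsUnit (ψ y) := by
    intro y
    by_contra h2
    exact y.2 ((mem_maximalIdeal _).2 h2 : ψ y ∈ maximalIdeal Q)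
  set Ψ : Localization.AtPrime q →ₐ[k] Q := IsLocalization.liftAlgHom (M := q.primeCompl) (f := ψ) hunit with hΨ
  have hΨa : ∀ p, Ψ (algebraMap _ _ p) = ψ p := fun p => IsLocalization.lift_eq hunit p
  have hsurj : Function.Surjective Ψ := by
    intro s
    obtain ⟨t, ht, htu, hst⟩ := hσ s
    obtain ⟨b, hb⟩ := hadj t ht
    obtain ⟨a, ha⟩ := hadj (s * t) hst
    have hbq : b ∈ q.primeCompl := by
      intro h1
      have h2 : ψ b ∈ maximalIdeal Q := h1
      rw [hb, mem_maximalIdeal] at h2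
      exact h2 htu
    refine ⟨IsLocalization.mk' (Localization.AtPrime q) a ⟨b, hbq⟩, ?_⟩
    have h1 : Ψ (IsLocalization.mk' (Localization.AtPrime q) a ⟨b, hbq⟩) * ψ b = ψ a := by
      rw [← hΨa b, ← map_mul, ← hΨa a]
      refine congrArg Ψ ?_
      exact IsLocalization.mk'_spec (Localization.AtPrime q) a ⟨b, hbq⟩
    rw [ha, hb] at h1
    exact htu.mul_right_cancel h1
  set I : Ideal (Localization.AtPrime q) := I₀.comap Ψ with hI
  set Φ : Localization.AtPrime q →ₐ[k] (Q ⧸ I₀) := (Ideal.Quotient.mkₐ k I₀).comp Ψ with hΦ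
  have hΦs : Function.Surjective Φ := (Ideal.Quotient.mkₐ_surjective k I₀).comp hsurj
  have hker : RingHom.ker Φ = I := by
    ext x
    rw [RingHom.mem_ker, hI, Ideal.mem_comap]
    exact Ideal.Quotient.eq_zero_iff_mem
  set e1 : (Localization.AtPrime q ⧸ I) ≃ₐ[k] (Localization.AtPrime q ⧸ RingHom.ker Φ) :=
    Ideal.quotientEquivAlgOfEq k hker.symm with he1
  set e : (Localization.AtPrime q ⧸ I) ≃ₐ[k] (Q ⧸ I₀) :=
    e1.trans (Ideal.quotientKerAlgEquivOfSurjective hΦs) with he
  refine ⟨σ.card, q, hqp, I, (e.symm : (Q ⧸ I₀) →ₐ[k] _).comp (Ideal.Quotient.mkₐ k I₀), ?_, ?_, ?_, ?_⟩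
  · intro h
    rw [hI]
    infer_instance
  · intro h
    rw [hI]
    exact h.comap (Ψ : Localization.AtPrime q →+* Q)
  · exact e.symm.surjective.comp (Ideal.Quotient.mkₐ_surjective k I₀)
  · ext x
    rw [RingHom.mem_ker]
    show e.symm (Ideal.Quotient.mk I₀ x) = 0 ↔ x ∈ I₀
    rw [map_eq_zero_iff e.symm e.symm.injective, Ideal.Quotient.eq_zero_iff_mem]

end MP72Q2
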