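import Pool.Agent.Lib.MP_72c78a_ag_Q2.Reg

/-!
# The frame: a `ℤ / 3`-graded ring `S` with degree zero part `Q`
-/

set_option autoImplicit false

namespace MP72Q2

universe u

/-- `S` is a `ℤ / 3`-graded ring with degree zero part `Q` (the projections are `e i`), `X i` are elements of
degree one and `dd i` the partial derivatives; the derivations of `Q` are determined by their values
on the monomials of degree three. -/
structure Frame (k Q S : Type u) [Field k] [CommRing Q] [CommRing S] [Algebra k Q] [Algebra k S]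
    [Algebra Q S] where
  /-- the variables -/
  X : Fin 3 → S
  /-- the projections onto the homogeneous parts -/
  e : ZMod 3 → (S →ₗ[Q] S)
  /-- the partial derivatives -/
  dd : Fin 3 → Derivation k S S
  inj : Function.Injective (algebraMap Q S)
  tower : ∀ c : k, algebraMap Q S (algebraMap k Q c) = algebraMap k S c
  e_mem : ∀ s, ∃ q, algebraMap Q S q = e 0 s
  e_alg : ∀ q, e 0 (algebraMap Q S q) = algebraMap Q S q
  e_idem : ∀ i s, e i (e i s) = e i s
  e_X : ∀ i, e 1 (X i) = X i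
  e_mul : ∀ (i j : ZMod 3) (a b : S), e i a = a → e (i + j) (a * b) = a * e j b
  dd_X : ∀ i j, dd i (X j) = if i = j then 1 else 0
  dd_e : ∀ i c a, dd c (e i a) = e (i - 1) (dd c a)
  ext : ∀ (M : Type u) [AddCommGroup M] [Module Q M] [Module k M] (D₁ D₂ : Derivation k Q M),
    (∀ m : Q, (∃ i j l, algebraMap Q S m = X i * X j * X l) → D₁ m = D₂ m) → D₁ = D₂

variable {k Q S : Type u} [Field k] [CommRing Q] [CommRing S] [Algebra k Q] [Algebra k S]
  [Algebra Q S]

namespace Frame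

variable (Fr : Frame k Q S)

/-- The gradient. -/
def grad (s : S) : Fin 3 → S := fun c => Fr.dd c s

theorem e_mul_deg {i j : ZMod 3} {a b : S} (ha : Fr.e i a = a) (hb : Fr.e j b = b) :
    Fr.e (i + j) (a * b) = a * b := by
  rw [Fr.e_mul i j a b ha, hb]

theorem e_XX (i j : Fin 3) : Fr.e 2 (Fr.X i * Fr.X j) = Fr.X i * Fr.X j :=
  Fr.e_mul_deg (i := 1) (j := 1) (Fr.e_X i) (Fr.e_X j)

theorem e_XXX (i j l : Fin 3) : Fr.e 0 (Fr.X i * Fr.X j * Fr.X l) = Fr.X i * Fr.X j * Fr.X l :=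
  Fr.e_mul_deg (i := 2) (j := 1) (Fr.e_XX i j) (Fr.e_X l)

/-- The monomials of degree three. -/
theorem exists_mon (i j l : Fin 3) : ∃ m : Q, algebraMap Q S m = Fr.X i * Fr.X j * Fr.X l := by
  obtain ⟨q, hq⟩ := Fr.e_mem (Fr.X i * Fr.X j * Fr.X l)
  exact ⟨q, by rw [hq, Fr.e_XXX]⟩

theorem exists_of_e_zero {s : S} (h : Fr.e 0 s = s) : ∃ q, algebraMap Q S q = s := by
  obtain ⟨q, hq⟩ := Fr.e_mem s
  exact ⟨q, by rw [hq, h]⟩

include Fr in
/-- divisibility by an element of `Q` -/
theorem dvd_of_dvd {f q : Q} (h : algebraMap Q S f ∣ algebraMap Q S q) : f ∣ q := by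
  obtain ⟨s, hs⟩ := h
  obtain ⟨r, hr⟩ := Fr.e_mem s
  refine ⟨r, Fr.inj ?_⟩
  have h1 := Fr.e_alg q
  rw [hs, ← Algebra.smul_def, map_smul, Algebra.smul_def, ← hr, ← Algebra.smul_def] at h1
  rw [hs, map_mul, ← Algebra.smul_def, ← h1, Algebra.smul_def]

/-- the projections preserve divisibility by an element of `Q` -/
theorem dvd_e {f : Q} {s : S} (i : ZMod 3) (h : algebraMap Q S f ∣ s) :
    algebraMap Q S f ∣ Fr.e i s := by
  obtain ⟨t, rfl⟩ := h
  rw [← Algebra.smul_def, map_smul, Algebra.smul_def]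
  exact dvd_mul_right _ _

/-- `θ · grad q` has degree zero if `θ` has degree one and `q` has degree zero. -/
theorem e_dot {θ : Fin 3 → S} (hθ : ∀ c, Fr.e 1 (θ c) = θ c) (q : Q) :
    Fr.e 0 (dt θ (Fr.grad (algebraMap Q S q))) = dt θ (Fr.grad (algebraMap Q S q)) := by
  have h : ∀ c, Fr.e (-1) (Fr.dd c (algebraMap Q S q)) = Fr.dd c (algebraMap Q S q) := by
    intro c
    have := Fr.dd_e 0 c (algebraMap Q S q)
    rw [Fr.e_alg, zero_sub] at this
    exact this.symm
  have h2 : ∀ c, Fr.e 0 (θ c * Fr.dd c (algebraMap Q S q)) = θ c * Fr.dd c (algebraMap Q S q) := by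
    intro c
    have := Fr.e_mul_deg (hθ c) (h c)
    rwa [show (1 : ZMod 3) + -1 = 0 by decide] at this
  simp only [dt, grad, map_add, h2]

end Frame

end MP72Q2
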