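import Pool.Agent.Lib.MP_463376_co.P4d

/-!
# JOB Gr: the square of the maximal ideal of a regular local ring

In a regular local ring of dimension `n` the square of the maximal ideal needs at least
`n (n + 1) / 2` generators.

`regular_sub`: `x : Fin n → T` generates the maximal ideal, `n = dim T`. For a set `J` of indices the
ring `D = T ⧸ span (x '' J)` is a regular local ring (if it is local, which is an instance argument here
through `Nontrivial`; it is local as a quotient of a local ring, `IsLocalRing.of_surjective'`), hence a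
domain (`(MP463376.P4.regular_main d D h).1` in P4d): its maximal ideal is generated by the images of the `x l`,
`l ∉ J`, and `dim D ≥ n - |J|` (`ringKrullDim_le_ringKrullDim_quotient_add_card`), use
`IsRegularLocalRing.of_spanFinrank_maximalIdeal_le`. So the ideal `span (x '' J)` is PRIME for every `J`
(also for `J` = all indices: the maximal ideal).
`regular_notMem`: `x i ∉ span (x '' J)` for `i ∉ J`: otherwise the maximal ideal would be generated by
`n - 1` elements (`n ≤ spanFinrank`, `Submodule.spanFinrank_span_le_ncard_of_finite`).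
`quad`: if `∑ i, ∑ j ≥ i, c i j * x i * x j = 0` (sum over all pairs, with `c i j = 0` for `j < i`) then
all `c i j` are in the maximal ideal.
 * `c i i`: modulo `P = span (x l, l ≠ i)` (prime) the relation is `c i i * x i ^ 2 ∈ P`, `x i ∉ P`, so
   `c i i ∈ P`.
 * `c i j`, `i < j`: let `P = span (x l, l ≠ i, j)`, prime; `x i, x j ∉ P`; `P_i = P + (x i)`,
   `P_j = P + (x j)` are prime too and `x j ∉ P_i`, `x i ∉ P_j`. Modulo `P`:
   `c i i x i ^ 2 + c i j x i x j + c j j x j ^ 2 ∈ P`. So `c j j x j ^ 2 ∈ P_i`, `c j j ∈ P_i`: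
   `c j j = a x i + p`, likewise `c i i = b x j + p'`. Then
   `x i x j (b x i + c i j + a x j) ∈ P`, so `b x i + c i j + a x j ∈ P` and `c i j ∈ m`.
`gr_main`: suppose `m ^ 2 = span s` with `2 * s.card < n (n + 1)`. The module `m ^ 2 / m ^ 3` over the
residue field `K` is spanned by `s.card` elements, so its dimension is at most `s.card`
(`finrank_le_card...`/`finrank_span_le_card`), hence the `n (n + 1) / 2` classes of `x i * x j`, `i ≤ j`, are
linearly dependent: there are `c i j`, not all in `m`, with `∑ c i j x i x j ∈ m ^ 3`. (An elementary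
way: each `x i x j` is `∑_s r_{ij,s} s`; a homogeneous linear system over `K` with more unknowns
than equations has a nonzero solution `c̄`; lift it to `T`; then
`∑ c i j x i x j = ∑_s (∑ c i j r_{ij,s}) s ∈ m * span s = m ^ 3`.) Since `m ^ 3 = m * m ^ 2` and
`m ^ 2` is generated by the `x i x j`, `i ≤ j`, subtract to get `∑ c' i j x i x j = 0` with
`c' i j - c i j ∈ m`, contradicting `quad`.
-/

set_option autoImplicit false

namespace MP72Q2

open IsLocalRing

universe u

variable {T : Type u} [CommRing T] [IsRegularLocalRing T] {n : ℕ}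

theorem regular_sub (hn : ringKrullDim T = (n : ℕ)) (x : Fin n → T)
    (hx : Ideal.span (Set.range x) = maximalIdeal T) (J : Set (Fin n)) :
    (Ideal.span (x '' J)).IsPrime := by
  classical
  set I := Ideal.span (x '' J) with hI
  have hIm : I ≤ maximalIdeal T := by
    rw [hI, ← hx]
    exact Ideal.span_mono (Set.image_subset_range _ _)
  have hne : I ≠ ⊤ := by
    intro h
    rw [h] at hIm
    exact (maximalIdeal.isMaximal T).ne_top (top_le_iff.mp hIm)
  have : Nontrivial (T ⧸ I) := Ideal.Quotient.nontrivial_iff.mpr hne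
  have : IsLocalRing (T ⧸ I) :=
    IsLocalRing.of_surjective' (Ideal.Quotient.mk I) Ideal.Quotient.mk_surjective
  have h1 : maximalIdeal (T ⧸ I) = (maximalIdeal T).map (Ideal.Quotient.mk I) := by
    symm
    apply IsLocalRing.eq_maximalIdeal
    refine (Ideal.map_eq_top_or_isMaximal_of_surjective _ Ideal.Quotient.mk_surjective
      (maximalIdeal.isMaximal T)).resolve_left ?_
    intro h
    have h2 := congrArg (Ideal.comap (Ideal.Quotient.mk I)) h
    rw [Ideal.comap_map_of_surjective _ Ideal.Quotient.mk_surjective, Ideal.comap_top,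
      ← RingHom.ker_eq_comap_bot, Ideal.mk_ker, sup_eq_left.mpr hIm] at h2
    exact (maximalIdeal.isMaximal T).ne_top h2
  have h2 : maximalIdeal (T ⧸ I) = Ideal.span ((Ideal.Quotient.mk I) '' (x '' Jᶜ)) := by
    rw [h1, ← hx, Ideal.map_span]
    apply le_antisymm
    · rw [Ideal.span_le]
      rintro _ ⟨_, ⟨l, rfl⟩, rfl⟩
      by_cases hl : l ∈ J
      · have : Ideal.Quotient.mk I (x l) = 0 :=
          Ideal.Quotient.eq_zero_iff_mem.mpr (Ideal.subset_span ⟨l, hl, rfl⟩)
        rw [this]
        exact Ideal.zero_mem _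
      · exact Ideal.subset_span ⟨x l, ⟨l, hl, rfl⟩, rfl⟩
    · apply Ideal.span_mono
      rintro _ ⟨_, ⟨l, hl, rfl⟩, rfl⟩
      exact ⟨x l, ⟨l, rfl⟩, rfl⟩
  have hcard : (maximalIdeal (T ⧸ I)).spanFinrank ≤ (Jᶜ).ncard := by
    rw [h2]
    refine (Submodule.spanFinrank_span_le_ncard_of_finite (Set.toFinite _)).trans ?_
    refine (Set.ncard_image_le (Set.toFinite _)).trans ?_
    exact Set.ncard_image_le (Set.toFinite _)
  have hJ : J.ncard + (Jᶜ).ncard = n := by
    have := Set.ncard_add_ncard_compl J
    simpa using this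
  have hdim : ringKrullDim T ≤ ringKrullDim (T ⧸ I) + (J.ncard : ℕ) := by
    let S : Finset T := (Set.toFinite J).toFinset.image x
    have hS : (S : Set T) = x '' J := by
      rw [Finset.coe_image, Set.Finite.coe_toFinset]
    have h3 := ringKrullDim_le_ringKrullDim_quotient_add_card S (by
      rw [IsLocalRing.ringJacobson_eq_maximalIdeal, hS, ← hx]
      rintro _ ⟨l, hl, rfl⟩
      exact Ideal.subset_span ⟨l, rfl⟩)
    rw [hS] at h3
    refine h3.trans ?_
    have h4 : S.card ≤ J.ncard := by
      refine Finset.card_image_le.trans ?_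
      rw [Set.ncard_eq_toFinset_card J (Set.toFinite J)]
    have h5 : ((S.card : ℕ) : WithBot ℕ∞) ≤ ((J.ncard : ℕ) : WithBot ℕ∞) := by exact_mod_cast h4
    exact add_le_add le_rfl h5
  obtain ⟨D, hD⟩ : ∃ D : ℕ, ringKrullDim (T ⧸ I) = ((D : ℕ) : WithBot ℕ∞) := by
    have hfin : (maximalIdeal (T ⧸ I)).height ≠ ⊤ := Ideal.height_ne_top_of_isPrime
    obtain ⟨D, hD⟩ := ENat.ne_top_iff_exists.mp hfin
    exact ⟨D, by rw [← maximalIdeal_height_eq_ringKrullDim, ← hD]; rfl⟩
  rw [hD, hn] at hdim
  have hdim' : n ≤ D + J.ncard := by exact_mod_cast hdim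
  have hreg : IsRegularLocalRing (T ⧸ I) := by
    apply IsRegularLocalRing.of_spanFinrank_maximalIdeal_le
    rw [hD]
    have : (maximalIdeal (T ⧸ I)).spanFinrank ≤ D := by omega
    exact_mod_cast this
  have hdom := (MP463376.P4.regular_main D (T ⧸ I) hD).1
  exact (Ideal.Quotient.isDomain_iff_prime I).mp hdom

theorem regular_notMem (hn : ringKrullDim T = (n : ℕ)) (x : Fin n → T)
    (hx : Ideal.span (Set.range x) = maximalIdeal T) (J : Set (Fin n)) (i : Fin n) (hi : i ∉ J) :
    x i ∉ Ideal.span (x '' J) := by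
  classical
  intro h
  have h1 : x i ∈ Ideal.span (x '' ({i}ᶜ : Set (Fin n))) := by
    refine Ideal.span_mono (Set.image_mono ?_) h
    intro j hj hji
    rw [Set.mem_singleton_iff] at hji
    exact hi (hji ▸ hj)
  have h2 : maximalIdeal T = Ideal.span (x '' ({i}ᶜ : Set (Fin n))) := by
    rw [← hx]
    apply le_antisymm
    · rw [Ideal.span_le]
      rintro _ ⟨l, rfl⟩
      by_cases hl : l = i
      · rw [hl]
        exact h1
      · exact Ideal.subset_span ⟨l, hl, rfl⟩
    · exact Ideal.span_mono (Set.image_subset_range _ _)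
  have h3 : (maximalIdeal T).spanFinrank ≤ ({i}ᶜ : Set (Fin n)).ncard := by
    rw [h2]
    refine (Submodule.spanFinrank_span_le_ncard_of_finite (Set.toFinite _)).trans ?_
    exact Set.ncard_image_le (Set.toFinite _)
  have h4 : ((maximalIdeal T).spanFinrank : WithBot ℕ∞) = (n : ℕ) := by
    rw [IsRegularLocalRing.spanFinrank_maximalIdeal, hn]
  have h5 : (maximalIdeal T).spanFinrank = n := by exact_mod_cast h4
  have h6 : ({i} : Set (Fin n)).ncard + ({i}ᶜ : Set (Fin n)).ncard = n := by
    have := Set.ncard_add_ncard_compl ({i} : Set (Fin n))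
    simpa using this
  rw [Set.ncard_singleton] at h6
  omega

theorem quad (hn : ringKrullDim T = (n : ℕ)) (x : Fin n → T)
    (hx : Ideal.span (Set.range x) = maximalIdeal T) (c : Fin n → Fin n → T)
    (hc : ∑ i, ∑ j ∈ Finset.Ici i, c i j * (x i * x j) = 0) (i j : Fin n) (hij : i ≤ j) :
    c i j ∈ maximalIdeal T := by
  classical
  have hmem : ∀ (J : Set (Fin n)), Ideal.span (x '' J) ≤ maximalIdeal T := by
    intro J
    rw [← hx]
    exact Ideal.span_mono (Set.image_subset_range _ _)
  have hxm : ∀ l, x l ∈ maximalIdeal T := by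
    intro l
    rw [← hx]
    exact Ideal.subset_span ⟨l, rfl⟩
  rcases eq_or_lt_of_le hij with h | h
  · subst h
    have hP := regular_sub hn x hx ({i}ᶜ : Set (Fin n))
    have hxi : x i ∉ Ideal.span (x '' ({i}ᶜ : Set (Fin n))) :=
      regular_notMem hn x hx _ i (by simp)
    refine hmem ({i}ᶜ : Set (Fin n)) ?_
    generalize hPe : Ideal.span (x '' ({i}ᶜ : Set (Fin n))) = P at hP hxi ⊢
    have hin : ∀ l, l ≠ i → Ideal.Quotient.mk P (x l) = 0 := by
      intro l hl
      rw [Ideal.Quotient.eq_zero_iff_mem, ← hPe]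
      exact Ideal.subset_span ⟨l, hl, rfl⟩
    have h1 := congrArg (Ideal.Quotient.mk P) hc
    simp only [map_sum, map_zero, map_mul] at h1
    rw [Finset.sum_eq_single i, Finset.sum_eq_single_of_mem i (Finset.mem_Ici.mpr le_rfl)] at h1
    · rw [← map_mul, ← map_mul, Ideal.Quotient.eq_zero_iff_mem] at h1
      rcases hP.mem_or_mem h1 with h2 | h2
      · exact h2
      · rcases hP.mem_or_mem h2 with h3 | h3 <;> exact absurd h3 hxi
    · intro b _ hb
      rw [hin b hb]
      simp
    · intro a _ ha
      refine Finset.sum_eq_zero ?_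
      intro b _
      rw [hin a ha]
      simp
    · intro h2
      exact absurd (Finset.mem_univ i) h2
  · have hne : i ≠ j := ne_of_lt h
    have hP := regular_sub hn x hx ({i, j}ᶜ : Set (Fin n))
    have hPi := regular_sub hn x hx ({j}ᶜ : Set (Fin n))
    have hPj := regular_sub hn x hx ({i}ᶜ : Set (Fin n))
    have hxi : x i ∉ Ideal.span (x '' ({i, j}ᶜ : Set (Fin n))) :=
      regular_notMem hn x hx _ i (by simp)
    have hxj : x j ∉ Ideal.span (x '' ({i, j}ᶜ : Set (Fin n))) :=
      regular_notMem hn x hx _ j (by simp)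
    have hxi' : x i ∉ Ideal.span (x '' ({i}ᶜ : Set (Fin n))) :=
      regular_notMem hn x hx _ i (by simp)
    have hxj' : x j ∉ Ideal.span (x '' ({j}ᶜ : Set (Fin n))) :=
      regular_notMem hn x hx _ j (by simp)
    have hPm := hmem ({i, j}ᶜ : Set (Fin n))
    have hsi : ({j}ᶜ : Set (Fin n)) = insert i ({i, j}ᶜ : Set (Fin n)) := by
      ext l
      simp only [Set.mem_compl_iff, Set.mem_singleton_iff, Set.mem_insert_iff]
      constructor
      · intro hl
        by_cases hli : l = i
        · exact Or.inl hli
        · exact Or.inr (fun h => h.elim hli hl)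
      · rintro (rfl | hl)
        · exact hne
        · exact fun h => hl (Or.inr h)
    have hsj : ({i}ᶜ : Set (Fin n)) = insert j ({i, j}ᶜ : Set (Fin n)) := by
      ext l
      simp only [Set.mem_compl_iff, Set.mem_singleton_iff, Set.mem_insert_iff]
      constructor
      · intro hl
        by_cases hlj : l = j
        · exact Or.inl hlj
        · exact Or.inr (fun h => h.elim hl hlj)
      · rintro (rfl | hl)
        · exact hne.symm
        · exact fun h => hl (Or.inl h)
    rw [hsi, Set.image_insert_eq] at hPi hxj'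
    rw [hsj, Set.image_insert_eq] at hPj hxi'
    have hin : ∀ l, l ≠ i → l ≠ j →
        Ideal.Quotient.mk (Ideal.span (x '' ({i, j}ᶜ : Set (Fin n)))) (x l) = 0 := by
      intro l hl hl'
      rw [Ideal.Quotient.eq_zero_iff_mem]
      refine Ideal.subset_span ⟨l, ?_, rfl⟩
      intro h
      rcases h with h | h
      · exact hl h
      · exact hl' h
    have h1 := congrArg
      (Ideal.Quotient.mk (Ideal.span (x '' ({i, j}ᶜ : Set (Fin n))))) hc
    simp only [map_sum, map_zero, map_mul] at h1
    rw [Fintype.sum_eq_add i j hne] at h1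
    · rw [Finset.sum_eq_add_of_mem i j (Finset.mem_Ici.mpr le_rfl) (Finset.mem_Ici.mpr hij) hne,
        Finset.sum_eq_single_of_mem j (Finset.mem_Ici.mpr le_rfl)] at h1
      · simp only [← map_mul, ← map_add] at h1
        rw [Ideal.Quotient.eq_zero_iff_mem] at h1
        -- `c j j ∈ P_i`
        have hle : Ideal.span (x '' ({i, j}ᶜ : Set (Fin n))) ≤
            Ideal.span (insert (x i) (x '' ({i, j}ᶜ : Set (Fin n)))) :=
          Ideal.span_mono (Set.subset_insert _ _)
        have hle' : Ideal.span (x '' ({i, j}ᶜ : Set (Fin n))) ≤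
            Ideal.span (insert (x j) (x '' ({i, j}ᶜ : Set (Fin n)))) :=
          Ideal.span_mono (Set.subset_insert _ _)
        have hxiI : x i ∈ Ideal.span (insert (x i) (x '' ({i, j}ᶜ : Set (Fin n)))) :=
          Ideal.subset_span (Set.mem_insert _ _)
        have hxjI : x j ∈ Ideal.span (insert (x j) (x '' ({i, j}ᶜ : Set (Fin n)))) :=
          Ideal.subset_span (Set.mem_insert _ _)
        have h2 : c j j * (x j * x j) ∈
            Ideal.span (insert (x i) (x '' ({i, j}ᶜ : Set (Fin n)))) := by
          have h3 := hle h1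
          have h4 : (c i i * x i + c i j * x j) * x i ∈
              Ideal.span (insert (x i) (x '' ({i, j}ᶜ : Set (Fin n)))) :=
            Ideal.mul_mem_left _ _ hxiI
          have h5 := Ideal.sub_mem _ h3 h4
          have h6 : c i i * (x i * x i) + c i j * (x i * x j) + c j j * (x j * x j) -
              (c i i * x i + c i j * x j) * x i = c j j * (x j * x j) := by ring
          rwa [h6] at h5
        have h2' : c i i * (x i * x i) ∈
            Ideal.span (insert (x j) (x '' ({i, j}ᶜ : Set (Fin n)))) := by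
          have h3 := hle' h1
          have h4 : (c j j * x j + c i j * x i) * x j ∈
              Ideal.span (insert (x j) (x '' ({i, j}ᶜ : Set (Fin n)))) :=
            Ideal.mul_mem_left _ _ hxjI
          have h5 := Ideal.sub_mem _ h3 h4
          have h6 : c i i * (x i * x i) + c i j * (x i * x j) + c j j * (x j * x j) -
              (c j j * x j + c i j * x i) * x j = c i i * (x i * x i) := by ring
          rwa [h6] at h5
        have h7 : c j j ∈ Ideal.span (insert (x i) (x '' ({i, j}ᶜ : Set (Fin n)))) := by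
          rcases hPi.mem_or_mem h2 with h8 | h8
          · exact h8
          · rcases hPi.mem_or_mem h8 with h9 | h9 <;> exact absurd h9 hxj'
        have h7' : c i i ∈ Ideal.span (insert (x j) (x '' ({i, j}ᶜ : Set (Fin n)))) := by
          rcases hPj.mem_or_mem h2' with h8 | h8
          · exact h8
          · rcases hPj.mem_or_mem h8 with h9 | h9 <;> exact absurd h9 hxi'
        obtain ⟨a, p, hp, hap⟩ := Ideal.mem_span_insert.mp h7
        obtain ⟨b, q, hq, hbq⟩ := Ideal.mem_span_insert.mp h7'
        have h8 : x i * (x j * (b * x i + c i j + a * x j)) ∈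
            Ideal.span (x '' ({i, j}ᶜ : Set (Fin n))) := by
          have h9 : p * (x j * x j) + q * (x i * x i) ∈
              Ideal.span (x '' ({i, j}ᶜ : Set (Fin n))) :=
            Ideal.add_mem _ (Ideal.mul_mem_right _ _ hp) (Ideal.mul_mem_right _ _ hq)
          have h10 := Ideal.sub_mem _ h1 h9
          have h11 : c i i * (x i * x i) + c i j * (x i * x j) + c j j * (x j * x j) -
              (p * (x j * x j) + q * (x i * x i)) =
              x i * (x j * (b * x i + c i j + a * x j)) := by
            rw [hap, hbq]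
            ring
          rwa [h11] at h10
        have h12 : b * x i + c i j + a * x j ∈
            Ideal.span (x '' ({i, j}ᶜ : Set (Fin n))) := by
          rcases hP.mem_or_mem h8 with h9 | h9
          · exact absurd h9 hxi
          · rcases hP.mem_or_mem h9 with h10 | h10
            · exact absurd h10 hxj
            · exact h10
        have h13 := Ideal.sub_mem _ (hPm h12)
          (Ideal.add_mem _ (Ideal.mul_mem_left _ b (hxm i)) (Ideal.mul_mem_left _ a (hxm j)))
        have h14 : b * x i + c i j + a * x j - (b * x i + a * x j) = c i j := by ring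
        rwa [h14] at h13
      · intro b hb hbj
        have hb' : j < b := lt_of_le_of_ne (Finset.mem_Ici.mp hb) (Ne.symm hbj)
        rw [hin b (ne_of_gt (h.trans hb')) hbj]
        simp
      · intro b _ hb
        rw [hin b hb.1 hb.2]
        simp
    · intro a ha
      refine Finset.sum_eq_zero ?_
      intro b _
      rw [hin a ha.1 ha.2]
      simp

lemma two_sum (n : ℕ) : 2 * ∑ i : Fin n, (n - (i : ℕ)) = n * (n + 1) := by
  have h1 : ∑ i : Fin n, (n - (i : ℕ)) = ∑ i ∈ Finset.range n, (n - i) :=
    Fin.sum_univ_eq_sum_range (fun i => n - i) n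
  have h2 : ∑ i ∈ Finset.range n, (n - i) = ∑ i ∈ Finset.range n, (i + 1) := by
    rw [← Finset.sum_range_reflect]
    refine Finset.sum_congr rfl ?_
    intro i hi
    have := Finset.mem_range.mp hi
    omega
  have h3 : ∀ m : ℕ, 2 * ∑ i ∈ Finset.range m, (i + 1) = m * (m + 1) := by
    intro m
    induction m with
    | zero => simp
    | succ k ih =>
      rw [Finset.sum_range_succ, mul_add, ih]
      ring
  rw [h1, h2, h3]

theorem gr_main (hn : ringKrullDim T = (n : ℕ)) (s : Finset T)
    (hs : Ideal.span (s : Set T) = maximalIdeal T ^ 2) : n * (n + 1) ≤ 2 * s.card := by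
  classical
  by_contra hcon
  push Not at hcon
  -- generators of the maximal ideal
  obtain ⟨s₀, hs₀, hspan₀⟩ := Submodule.FG.exists_span_finset_card_eq_spanFinrank
    (maximalIdeal T).fg_of_isNoetherianRing
  have hcard₀ : s₀.card = n := by
    have h4 : ((maximalIdeal T).spanFinrank : WithBot ℕ∞) = (n : ℕ) := by
      rw [IsRegularLocalRing.spanFinrank_maximalIdeal, hn]
    have h5 : (maximalIdeal T).spanFinrank = n := by exact_mod_cast h4
    rw [hs₀, h5]
  let e : Fin n ≃ s₀ := (s₀.equivFinOfCardEq hcard₀).symm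
  let x : Fin n → T := fun i => (e i : T)
  have hrange : Set.range x = (s₀ : Set T) := by
    ext t
    constructor
    · rintro ⟨i, rfl⟩
      exact (e i).2
    · intro ht
      exact ⟨e.symm ⟨t, ht⟩, by simp [x]⟩
  have hx : Ideal.span (Set.range x) = maximalIdeal T := by
    rw [hrange]
    exact hspan₀
  clear_value x
  let ι := Σ i : Fin n, {j // j ∈ Finset.Ici i}
  let f : ι → T := fun p => x p.1 * x p.2.1
  have hm2 : maximalIdeal T ^ 2 = Submodule.span T (Set.range f) := by
    rw [pow_two]
    apply le_antisymm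
    · rw [← hx, Ideal.span_mul_span']
      rw [Ideal.span_le]
      rintro _ ⟨_, ⟨a, rfl⟩, _, ⟨b, rfl⟩, rfl⟩
      rcases le_total a b with h | h
      · exact Submodule.subset_span ⟨⟨a, ⟨b, Finset.mem_Ici.mpr h⟩⟩, rfl⟩
      · refine Submodule.subset_span ⟨⟨b, ⟨a, Finset.mem_Ici.mpr h⟩⟩, ?_⟩
        exact mul_comm _ _
    · rw [Submodule.span_le]
      rintro _ ⟨p, rfl⟩
      refine Ideal.mul_mem_mul ?_ ?_ <;>
      · rw [← hx]
        exact Ideal.subset_span ⟨_, rfl⟩
  have hr : ∀ p : ι, ∃ r : T → T, ∑ t ∈ s, r t • t = f p := by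
    intro p
    have h1 : f p ∈ Submodule.span T (s : Set T) := by
      have h2 : f p ∈ maximalIdeal T ^ 2 := by
        rw [hm2]
        exact Submodule.subset_span ⟨p, rfl⟩
      rw [← hs] at h2
      exact h2
    rw [Submodule.mem_span_finset] at h1
    obtain ⟨c, -, hc⟩ := h1
    exact ⟨c, hc⟩
  choose r hr using hr
  let v : ι → (s → ResidueField T) := fun p t => residue T (r p t)
  have hcardι : 2 * Fintype.card ι = n * (n + 1) := by
    rw [Fintype.card_sigma]
    have h1 : ∀ i : Fin n, Fintype.card {j // j ∈ Finset.Ici i} = n - (i : ℕ) := by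
      intro i
      rw [Fintype.card_coe, Fin.card_Ici]
    rw [Finset.sum_congr rfl (fun i _ => h1 i), two_sum]
  have hnli : ¬ LinearIndependent (ResidueField T) v := by
    intro h
    have h1 := h.fintype_card_le_finrank
    rw [Module.finrank_fintype_fun_eq_card, Fintype.card_coe] at h1
    omega
  rw [Fintype.not_linearIndependent_iff] at hnli
  obtain ⟨g, hg, p₀, hp₀⟩ := hnli
  choose G hG using fun p => IsLocalRing.residue_surjective (R := T) (g p)
  have hGm : ∀ t ∈ s, ∑ p, G p * r p t ∈ maximalIdeal T := by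
    intro t ht
    rw [← IsLocalRing.residue_eq_zero_iff, map_sum]
    have h1 := congrFun hg ⟨t, ht⟩
    rw [Finset.sum_apply] at h1
    refine (Finset.sum_congr rfl ?_).trans h1
    intro p _
    rw [map_mul, hG]
    rfl
  have hsum : ∑ p, G p * f p = ∑ t ∈ s, (∑ p, G p * r p t) * t := by
    have h1 : ∀ p, G p * f p = ∑ t ∈ s, G p * r p t * t := by
      intro p
      rw [← hr p, Finset.mul_sum]
      refine Finset.sum_congr rfl ?_
      intro t _
      rw [smul_eq_mul, mul_assoc]
    rw [Finset.sum_congr rfl (fun p _ => h1 p), Finset.sum_comm]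
    refine Finset.sum_congr rfl ?_
    intro t _
    rw [Finset.sum_mul]
  have hin : ∑ p, G p * f p ∈ maximalIdeal T • Submodule.span T (Set.range f) := by
    rw [hsum]
    refine Submodule.sum_mem _ ?_
    intro t ht
    refine Submodule.smul_mem_smul (hGm t ht) ?_
    rw [← hm2, ← hs]
    exact Ideal.subset_span ht
  rw [Submodule.mem_ideal_smul_span_iff_exists_sum] at hin
  obtain ⟨a, ha, hasum⟩ := hin
  rw [Finsupp.sum_fintype _ _ (by intro i; simp)] at hasum
  let c : Fin n → Fin n → T := fun i j =>
    if h : j ∈ Finset.Ici i then G ⟨i, ⟨j, h⟩⟩ - a ⟨i, ⟨j, h⟩⟩ else 0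
  have hcval : ∀ p : ι, c p.1 p.2.1 = G p - a p := by
    intro p
    simp only [c]
    rw [dif_pos p.2.2]
  have hzero : ∑ i, ∑ j ∈ Finset.Ici i, c i j * (x i * x j) = 0 := by
    have h1 : ∑ i, ∑ j ∈ Finset.Ici i, c i j * (x i * x j) = ∑ p : ι, c p.1 p.2.1 * f p := by
      rw [Fintype.sum_sigma]
      refine Finset.sum_congr rfl ?_
      intro i _
      exact (Finset.sum_coe_sort (Finset.Ici i) (fun j => c i j * (x i * x j))).symm
    rw [h1, Finset.sum_congr rfl (fun p _ => by rw [hcval p])]
    have h2 : ∀ p : ι, (G p - a p) * f p = G p * f p - a p • f p := by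
      intro p
      rw [smul_eq_mul]
      ring
    rw [Finset.sum_congr rfl (fun p _ => h2 p), Finset.sum_sub_distrib, hasum, sub_self]
  have h3 := quad hn x hx c hzero p₀.1 p₀.2.1 (Finset.mem_Ici.mp p₀.2.2)
  rw [hcval] at h3
  have h4 : G p₀ ∈ maximalIdeal T := by
    have := Ideal.add_mem _ h3 (ha p₀)
    rwa [sub_add_cancel] at this
  apply hp₀
  rw [← hG p₀]
  exact (IsLocalRing.residue_eq_zero_iff _).mpr h4

end MP72Q2
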