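import Mathlib

/-!
# JOB Irr: `x ^ 9 + y ^ 9 + z ^ 9` is prime

In `k[x, y, z]`, `k` a field of characteristic zero. Irreducible by the Eisenstein criterion
(`Polynomial.irreducible_of_eisenstein_criterion`) applied to `X ^ 9 + C c` over the domain
`A = MvPolynomial (Fin 2) k`, `c = y ^ 9 + z ^ 9`, with the prime ideal generated by `y + z`; transport along
`MvPolynomial.finSuccEquiv k 2 : MvPolynomial (Fin 3) k ≃ₐ[k] Polynomial (MvPolynomial (Fin 2) k)`
(`X 0 ↦ X`, `X 1, X 2 ↦ C (X 0), C (X 1)`); irreducible elements of a unique factorization domain are prime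
(`Irreducible.prime`), `MulEquiv.prime_iff`.
* `y + z` is prime in `k[y, z]`: it is the image of `X 0` under the automorphism `y ↦ y + z`, `z ↦ z`
  (or: the quotient map `k[y, z] → k[z]`, `y ↦ -z`, has kernel `(y + z)`).
* `y ^ 9 + z ^ 9 = (y + z) * g`, and `y + z ∤ g`: under `y ↦ -z` the element `g = y ^ 8 - y ^ 7 z + … + z ^ 8` becomes
  `9 z ^ 8 ≠ 0`. So `c ∈ P`, `c ∉ P ^ 2` for `P = span {y + z}`.
* `X ^ 9 + C c` is primitive (monic, `Polynomial.Monic.isPrimitive`), of degree `9`.
-/

set_option autoImplicit false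

namespace MP72Q2

open MvPolynomial

section

variable (k : Type*) [Field k]

private noncomputable def theta : MvPolynomial (Fin 2) k →ₐ[k] Polynomial k :=
  aeval ![-Polynomial.X, Polynomial.X]

private theorem theta_zero : theta k (X 0) = -Polynomial.X := by
  unfold theta
  rw [aeval_X]
  rfl

private theorem theta_one : theta k (X 1) = Polynomial.X := by
  unfold theta
  rw [aeval_X]
  rfl

private theorem ker_theta : Ideal.span {(X 0 + X 1 : MvPolynomial (Fin 2) k)} =
    RingHom.ker (theta k : MvPolynomial (Fin 2) k →+* Polynomial k) := by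
  set P := Ideal.span {(X 0 + X 1 : MvPolynomial (Fin 2) k)} with hP
  apply le_antisymm
  · rw [hP, Ideal.span_singleton_le_iff_mem, RingHom.mem_ker]
    show theta k (X 0 + X 1) = 0
    rw [map_add, theta_zero, theta_one, neg_add_cancel]
  · intro p hp
    rw [RingHom.mem_ker] at hp
    have hp' : theta k p = 0 := hp
    set iota : Polynomial k →ₐ[k] MvPolynomial (Fin 2) k := Polynomial.aeval (X 1) with hi
    have key : (Ideal.Quotient.mkₐ k P).comp (iota.comp (theta k)) = Ideal.Quotient.mkₐ k P := by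
      apply MvPolynomial.algHom_ext
      intro i
      show Ideal.Quotient.mk P (iota (theta k (X i))) = Ideal.Quotient.mk P (X i)
      rw [Ideal.Quotient.eq]
      fin_cases i
      · show iota (theta k (X 0)) - X 0 ∈ P
        rw [theta_zero, hi, map_neg, Polynomial.aeval_X]
        have h1 : -X 1 - X 0 = -(X 0 + X 1 : MvPolynomial (Fin 2) k) := by ring
        rw [h1]
        exact P.neg_mem (Ideal.mem_span_singleton_self _)
      · show iota (theta k (X 1)) - X 1 ∈ P
        rw [theta_one, hi, Polynomial.aeval_X, sub_self]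
        exact P.zero_mem
    have h2 := DFunLike.congr_fun key p
    have h3 : Ideal.Quotient.mk P (iota (theta k p)) = Ideal.Quotient.mk P p := h2
    rw [hp', map_zero, map_zero] at h3
    exact Ideal.Quotient.eq_zero_iff_mem.1 h3.symm

end

theorem prime_fermat (k : Type*) [Field k] [CharZero k] :
    Prime ((X 0 ^ 9 + X 1 ^ 9 + X 2 ^ 9 : MvPolynomial (Fin 3) k)) := by
  set P := Ideal.span {(X 0 + X 1 : MvPolynomial (Fin 2) k)} with hP
  have hPk : P = RingHom.ker (theta k : MvPolynomial (Fin 2) k →+* Polynomial k) := ker_theta k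
  have hprime : P.IsPrime := by
    rw [hPk]
    exact RingHom.ker_isPrime _
  set c : MvPolynomial (Fin 2) k := X 0 ^ 9 + X 1 ^ 9 with hc
  set g : MvPolynomial (Fin 2) k := X 0 ^ 8 - X 0 ^ 7 * X 1 + X 0 ^ 6 * X 1 ^ 2 - X 0 ^ 5 * X 1 ^ 3 +
    X 0 ^ 4 * X 1 ^ 4 - X 0 ^ 3 * X 1 ^ 5 + X 0 ^ 2 * X 1 ^ 6 - X 0 * X 1 ^ 7 + X 1 ^ 8 with hg
  have hcg : c = (X 0 + X 1) * g := by
    rw [hc, hg]
    ring
  have hcP : c ∈ P := by
    rw [hcg]
    exact Ideal.mul_mem_right _ _ (Ideal.mem_span_singleton_self _)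
  have h01 : (X 0 + X 1 : MvPolynomial (Fin 2) k) ≠ 0 := by
    intro h
    have h1 := congrArg (MvPolynomial.eval ![(1 : k), 0]) h
    simp at h1
  have hcP2 : c ∉ P ^ 2 := by
    rw [hP, Ideal.span_singleton_pow, Ideal.mem_span_singleton]
    rintro ⟨h, hh⟩
    rw [hcg] at hh
    have h1 : (X 0 + X 1) * g = (X 0 + X 1) * ((X 0 + X 1) * h) := by
      rw [hh]
      ring
    have h2 : g = (X 0 + X 1) * h := mul_left_cancel₀ h01 h1
    have h3 := congrArg (MvPolynomial.eval ![(-1 : k), 1]) h2
    rw [hg] at h3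
    simp only [map_add, map_sub, map_mul, map_pow, eval_X, Matrix.cons_val_zero, Matrix.cons_val_one] at h3
    norm_num at h3
  set f : Polynomial (MvPolynomial (Fin 2) k) := Polynomial.X ^ 9 + Polynomial.C c with hf
  have hfdeg : f.degree = 9 := by
    rw [hf]
    exact Polynomial.degree_X_pow_add_C (by norm_num) c
  have hfm : f.Monic := Polynomial.monic_X_pow_add_C c (by norm_num)
  have hfirr : Irreducible f := by
    refine Polynomial.irreducible_of_eisenstein_criterion hprime ?_ ?_ ?_ ?_ hfm.isPrimitive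
    · rw [hfm.leadingCoeff]
      exact fun h1 => hprime.ne_top ((Ideal.eq_top_iff_one _).2 h1)
    · intro n hn
      rw [hfdeg] at hn
      have hn' : n < 9 := by exact_mod_cast hn
      rw [hf, Polynomial.coeff_add, Polynomial.coeff_X_pow, if_neg (by omega), zero_add, Polynomial.coeff_C]
      split_ifs
      · exact hcP
      · exact P.zero_mem
    · rw [hfdeg]
      norm_num
    · rw [hf, Polynomial.coeff_add, Polynomial.coeff_X_pow, if_neg (by norm_num), zero_add,
        Polynomial.coeff_C_zero]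
      exact hcP2
  have he : finSuccEquiv k 2 (X 0 ^ 9 + X 1 ^ 9 + X 2 ^ 9 : MvPolynomial (Fin 3) k) = f := by
    have e1 : finSuccEquiv k 2 (X 1) = Polynomial.C (X 0) := finSuccEquiv_X_succ (j := 0)
    have e2 : finSuccEquiv k 2 (X 2) = Polynomial.C (X 1) := finSuccEquiv_X_succ (j := 1)
    rw [map_add, map_add, map_pow, map_pow, map_pow, finSuccEquiv_X_zero, e1, e2, hf, hc, map_add, map_pow,
      map_pow, add_assoc]
  have h4 : Prime (finSuccEquiv k 2 (X 0 ^ 9 + X 1 ^ 9 + X 2 ^ 9 : MvPolynomial (Fin 3) k)) := by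
    rw [he]
    exact hfirr.prime
  exact (MulEquiv.prime_iff (finSuccEquiv k 2).toMulEquiv).1 h4

end MP72Q2
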