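import Pool.Agent.Lib.MP_72c78a_ag_Q2.Gr

/-!
# JOB Nci: quotients of regular local rings by few relations

`nci_step`: `T` regular local of dimension `n`, `φ : T → B` a surjection onto a local ring whose kernel is
generated by `r ≤ n` elements, `e` the minimal number of generators of the maximal ideal of `B`, and
`m_B ^ 2` generated by `N` elements. Then `e * (e + 1) ≤ 2 * (N + e)`.

Proof: induction on `n`. `K = ker φ = span K0`, `K0.card ≤ n`.
* Case 1: `K ≤ m_T ^ 2`. Then `e = n`: `φ` maps `m_T` onto `m_B` (`φ` surjective local) and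
  `m_B / m_B ^ 2 = m_T / (m_T ^ 2 + K) = m_T / m_T ^ 2`; concretely `e ≤ n` because images of generators
  generate, and `n ≤ e` because lifts of `e` generators of `m_B` generate `m_T` modulo
  `K ≤ m_T ^ 2`, so generate `m_T` by Nakayama. Next `m_T ^ 2` is generated by lifts (in `m_T ^ 2`) of the
  `N` generators of `m_B ^ 2` together with `K0` (because `K ≤ m_T ^ 2`): at most `N + n` elements.
  `gr_main`: `n (n + 1) ≤ 2 (N + n)`.
* Case 2: some `g ∈ K0`, `g ∉ m_T ^ 2` (`g ∈ m_T` because `B` is nontrivial; so `n ≥ 1`). `T' = T ⧸ (g)` is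
  regular local of dimension `n - 1` (`MP463376.P4.regular_quotient` in P4d; `IsLocalRing` of the
  quotient by `IsLocalRing.of_surjective'`), `φ` factors through `φ' : T' → B` (`Ideal.Quotient.lift`),
  whose kernel is generated by the images of the elements of `K0` other than `g`: at most
  `n - 1` elements. Use the induction hypothesis.

`nci_main`: apply this to `B = AdicCompletion (maximalIdeal R) R`: if `IsCI R` (`Defs.lean`), the kernel is
`Ideal.ofList rs` with `rs` regular, so `rs.length ≤ dim T`
(`ringKrullDim_add_length_eq_ringKrullDim_of_isRegular`), `rs.toFinset.card ≤ rs.length`.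
`spanFinrank m_B = spanFinrank m_R` (`AdicCompletion.spanFinrank_maximalIdeal_eq`), and
`m_B = m_R B` (`AdicCompletion.maximalIdeal_eq_map`), so `m_B ^ 2` is generated by the images of the
generators of `m_R ^ 2`.
-/

set_option autoImplicit false

namespace MP72Q2

open IsLocalRing

universe u

private theorem Nci_lift {T B : Type u} [CommRing T] [CommRing B] (φ : T →+* B)
    (hφ : Function.Surjective φ) (I : Ideal T) (s : Finset B)
    (hs : Ideal.span (s : Set B) = I.map φ) :
    ∃ L : Finset T, L.card ≤ s.card ∧ (∀ x ∈ L, x ∈ I) ∧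
      I ≤ Ideal.span (L : Set T) ⊔ RingHom.ker φ := by
  classical
  have h1 : ∀ b : B, ∃ x : T, b ∈ s → x ∈ I ∧ φ x = b := by
    intro b
    by_cases hb : b ∈ s
    · have h2 : b ∈ I.map φ := by rw [← hs]; exact Ideal.subset_span hb
      obtain ⟨x, hx, hxb⟩ := (Ideal.mem_map_iff_of_surjective φ hφ).mp h2
      exact ⟨x, fun _ => ⟨hx, hxb⟩⟩
    · exact ⟨0, fun h => absurd h hb⟩
  choose g hg using h1
  refine ⟨s.image g, Finset.card_image_le, ?_, ?_⟩
  · intro x hx
    obtain ⟨b, hb, rfl⟩ := Finset.mem_image.mp hx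
    exact (hg b hb).1
  · intro x hx
    have h3 : φ x ∈ (Ideal.span ((s.image g : Finset T) : Set T)).map φ := by
      rw [Ideal.map_span]
      have h4 : φ x ∈ Ideal.span (s : Set B) := by rw [hs]; exact Ideal.mem_map_of_mem φ hx
      refine Ideal.span_mono ?_ h4
      intro b hb
      exact ⟨g b, Finset.mem_coe.mpr (Finset.mem_image_of_mem g hb), (hg b hb).2⟩
    obtain ⟨y, hy, hyx⟩ := (Ideal.mem_map_iff_of_surjective φ hφ).mp h3
    rw [Submodule.mem_sup]
    refine ⟨y, hy, x - y, ?_, by ring⟩
    change φ (x - y) = 0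
    rw [map_sub, hyx, sub_self]

private theorem Nci_map {T B : Type u} [CommRing T] [IsLocalRing T] [CommRing B] [IsLocalRing B]
    (φ : T →+* B) (hφ : Function.Surjective φ) : (maximalIdeal T).map φ = maximalIdeal B := by
  have hl : IsLocalHom φ := hφ.isLocalHom
  apply le_antisymm
  · rw [Ideal.map_le_iff_le_comap]
    intro x hx
    rw [Ideal.mem_comap, IsLocalRing.mem_maximalIdeal]
    intro hu
    exact (IsLocalRing.mem_maximalIdeal x).mp hx (isUnit_of_map_unit φ x hu)
  · intro b hb
    obtain ⟨x, rfl⟩ := hφ b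
    refine Ideal.mem_map_of_mem φ ?_
    rw [IsLocalRing.mem_maximalIdeal]
    intro hu
    exact (IsLocalRing.mem_maximalIdeal _).mp hb (hu.map φ)

private theorem Nci_case1 (n : ℕ) {T B : Type u} [CommRing T] [IsRegularLocalRing T] [CommRing B]
    [IsLocalRing B] (φ : T →+* B) (hdim : ringKrullDim T = (n : ℕ)) (hφ : Function.Surjective φ)
    (K0 : Finset T) (hK0 : K0.card ≤ n) (hker : RingHom.ker φ = Ideal.span (K0 : Set T))
    (hK : RingHom.ker φ ≤ maximalIdeal T ^ 2) (N0 : Finset B)
    (hN0 : Ideal.span (N0 : Set B) = maximalIdeal B ^ 2) :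
    (maximalIdeal B).spanFinrank * ((maximalIdeal B).spanFinrank + 1) ≤
      2 * (N0.card + (maximalIdeal B).spanFinrank) := by
  classical
  have hmap := Nci_map φ hφ
  have hn : (maximalIdeal T).spanFinrank = n := by
    have h := IsRegularLocalRing.spanFinrank_maximalIdeal (R := T)
    rw [hdim] at h
    exact_mod_cast h
  have hfgB : (maximalIdeal B).FG := by
    rw [← hmap]
    exact (maximalIdeal T).fg_of_isNoetherianRing.map φ
  have he : (maximalIdeal B).spanFinrank = n := by
    apply le_antisymm
    · obtain ⟨s, hs, hspan⟩ := Submodule.FG.exists_span_finset_card_eq_spanFinrank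
        (maximalIdeal T).fg_of_isNoetherianRing
      have h1 : maximalIdeal B = Ideal.span (φ '' (s : Set T)) := by
        rw [← Ideal.map_span, ← hmap]
        congr 1
        exact hspan.symm
      rw [h1, ← hn, ← hs]
      refine (Submodule.spanFinrank_span_le_ncard_of_finite (Set.toFinite _)).trans ?_
      refine (Set.ncard_image_le (Set.toFinite _)).trans ?_
      rw [Set.ncard_coe_finset]
    · obtain ⟨s, hs, hspan⟩ := Submodule.FG.exists_span_finset_card_eq_spanFinrank hfgB
      have hspan' : Ideal.span (s : Set B) = (maximalIdeal T).map φ := by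
        rw [hmap]; exact hspan
      obtain ⟨L, hL, hLm, hLs⟩ := Nci_lift φ hφ (maximalIdeal T) s hspan'
      have h2 : maximalIdeal T ≤ Ideal.span (L : Set T) := by
        refine Submodule.le_of_le_smul_of_le_jacobson_bot (I := maximalIdeal T)
          (maximalIdeal T).fg_of_isNoetherianRing ?_ ?_
        · rw [IsLocalRing.jacobson_eq_maximalIdeal _ bot_ne_top]
        · refine hLs.trans (sup_le_sup_left ?_ _)
          rw [smul_eq_mul, ← pow_two]
          exact hK
      have h3 : maximalIdeal T = Ideal.span (L : Set T) := by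
        refine le_antisymm h2 ?_
        rw [Ideal.span_le]
        exact fun x hx => hLm x hx
      rw [← hn, ← hs, h3]
      refine (Submodule.spanFinrank_span_le_ncard_of_finite (Set.toFinite _)).trans ?_
      rw [Set.ncard_coe_finset]
      exact hL
  rw [he]
  have hN0' : Ideal.span (N0 : Set B) = (maximalIdeal T ^ 2).map φ := by
    rw [Ideal.map_pow, hmap, hN0]
  obtain ⟨L, hL, hLm, hLs⟩ := Nci_lift φ hφ (maximalIdeal T ^ 2) N0 hN0'
  have h4 : Ideal.span ((L ∪ K0 : Finset T) : Set T) = maximalIdeal T ^ 2 := by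
    rw [Finset.coe_union, Ideal.span_union, ← hker]
    refine le_antisymm (sup_le ?_ hK) hLs
    rw [Ideal.span_le]
    exact fun x hx => hLm x hx
  have h5 := gr_main hdim (L ∪ K0) h4
  have h6 := Finset.card_union_le L K0
  omega

theorem nci_step (n : ℕ) : ∀ (T B : Type u) [CommRing T] [IsRegularLocalRing T] [CommRing B]
    [IsLocalRing B] (φ : T →+* B), ringKrullDim T = (n : ℕ) → Function.Surjective φ →
    ∀ K0 : Finset T, K0.card ≤ n → RingHom.ker φ = Ideal.span (K0 : Set T) →
    ∀ N0 : Finset B, Ideal.span (N0 : Set B) = maximalIdeal B ^ 2 →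
    (maximalIdeal B).spanFinrank * ((maximalIdeal B).spanFinrank + 1) ≤
      2 * (N0.card + (maximalIdeal B).spanFinrank) := by
  induction n with
  | zero =>
    intro T B _ _ _ _ φ hdim hφ K0 hK0 hker N0 hN0
    have hK : RingHom.ker φ ≤ maximalIdeal T ^ 2 := by
      have : K0 = ∅ := Finset.card_eq_zero.mp (Nat.le_zero.mp hK0)
      rw [hker, this, Finset.coe_empty, Ideal.span_empty]
      exact bot_le
    exact Nci_case1 0 φ hdim hφ K0 hK0 hker hK N0 hN0
  | succ n ih =>
    intro T B _ _ _ _ φ hdim hφ K0 hK0 hker N0 hN0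
    classical
    by_cases hK : RingHom.ker φ ≤ maximalIdeal T ^ 2
    · exact Nci_case1 (n + 1) φ hdim hφ K0 hK0 hker hK N0 hN0
    · have hex : ∃ g ∈ K0, g ∉ maximalIdeal T ^ 2 := by
        by_contra hcon
        push Not at hcon
        apply hK
        rw [hker, Ideal.span_le]
        exact fun x hx => hcon x hx
      obtain ⟨g, hg, hg2⟩ := hex
      have hgk : φ g = 0 := by
        have : g ∈ RingHom.ker φ := by rw [hker]; exact Ideal.subset_span hg
        exact this
      have hgm : g ∈ maximalIdeal T := by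
        rw [IsLocalRing.mem_maximalIdeal]
        intro hu
        have h1 : IsUnit (φ g) := hu.map φ
        rw [hgk] at h1
        exact not_isUnit_zero h1
      have hne : Nontrivial (T ⧸ Ideal.span {g}) := by
        apply Ideal.Quotient.nontrivial_iff.mpr
        intro h
        rw [Ideal.span_singleton_eq_top] at h
        exact (IsLocalRing.mem_maximalIdeal g).mp hgm h
      have hloc : IsLocalRing (T ⧸ Ideal.span {g}) :=
        IsLocalRing.of_surjective' (Ideal.Quotient.mk (Ideal.span {g}))
          Ideal.Quotient.mk_surjective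
      obtain ⟨hreg, hd⟩ := MP463376.P4.regular_quotient g hgm hg2
      have hd' : ringKrullDim (T ⧸ Ideal.span {g}) = (n : ℕ) := by
        obtain ⟨D, hD⟩ : ∃ D : ℕ, ringKrullDim (T ⧸ Ideal.span {g}) = ((D : ℕ) : WithBot ℕ∞) := by
          have hfin : (maximalIdeal (T ⧸ Ideal.span {g})).height ≠ ⊤ :=
            Ideal.height_ne_top_of_isPrime
          obtain ⟨D, hD⟩ := ENat.ne_top_iff_exists.mp hfin
          exact ⟨D, by rw [← maximalIdeal_height_eq_ringKrullDim, ← hD]; rfl⟩
        rw [hD, hdim] at hd
        have : D + 1 = n + 1 := by exact_mod_cast hd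
        rw [hD]
        have : D = n := by omega
        rw [this]
      have hle : Ideal.span {g} ≤ RingHom.ker φ := by
        rw [Ideal.span_singleton_le_iff_mem]; exact hgk
      refine ih (T ⧸ Ideal.span {g}) B (Ideal.Quotient.lift (Ideal.span {g}) φ hle) hd' ?_
        ((K0.erase g).image (Ideal.Quotient.mk (Ideal.span {g}))) ?_ ?_ N0 hN0
      · intro b
        obtain ⟨x, hx⟩ := hφ b
        exact ⟨Ideal.Quotient.mk _ x, by rw [Ideal.Quotient.lift_mk, hx]⟩
      · refine Finset.card_image_le.trans ?_
        rw [Finset.card_erase_of_mem hg]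
        omega
      · rw [Ideal.ker_quotient_lift, hker, Ideal.map_span, Finset.coe_image]
        apply le_antisymm
        · rw [Ideal.span_le]
          rintro _ ⟨y, hy, rfl⟩
          by_cases hyg : y = g
          · rw [hyg, (Ideal.Quotient.eq_zero_iff_mem).mpr (Ideal.mem_span_singleton_self g)]
            exact Ideal.zero_mem _
          · exact Ideal.subset_span ⟨y, Finset.mem_coe.mpr (Finset.mem_erase.mpr ⟨hyg, hy⟩), rfl⟩
        · apply Ideal.span_mono
          rintro _ ⟨y, hy, rfl⟩
          exact ⟨y, Finset.mem_of_mem_erase (Finset.mem_coe.mp hy), rfl⟩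

end MP72Q2
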