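import Pool.Agent.Lib.MP_72c78a_ag_Q2.Defs
import Pool.Agent.Lib.MP_72c78a_ag_Q2.Nci
import Pool.Agent.Lib.MP_72c78a_ag_Q2.Edim

/-!
# `R` is not a complete intersection
-/

set_option autoImplicit false

namespace MP72Q2

open MvPolynomial IsLocalRing

universe u

variable (k : Type u) [Field k] (Q : Type u) [CommRing Q] [Algebra (VV k) Q]
  [IsLocalization.AtPrime Q (nV k)]

include k in
theorem not_ci [IsLocalRing Q] [IsNoetherianRing Q] {R : Type u} [CommRing R] [IsLocalRing R]
    (π : Q →+* R) (hπ : Function.Surjective π) (f : Q) (hker : RingHom.ker π = Ideal.span {f})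
    (hf : f ∈ maximalIdeal Q ^ 2) : ¬ IsCI R := by
  classical
  have hRn : IsNoetherianRing R := isNoetherianRing_of_surjective Q R π hπ
  have hed := edim k Q π hπ f hker hf
  obtain ⟨s, hs28, hs⟩ := gen28 k Q
  rintro ⟨T, _, _, φ, hφ, rs, hreg, hk⟩
  set e := (maximalIdeal R).spanFinrank with he
  have he' : (maximalIdeal (AdicCompletion (maximalIdeal R) R)).spanFinrank = e :=
    AdicCompletion.spanFinrank_maximalIdeal_eq
  have hdim : ringKrullDim T = ((maximalIdeal T).spanFinrank : ℕ) :=
    (IsRegularLocalRing.spanFinrank_maximalIdeal (R := T)).symm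
  have hlen : rs.length ≤ (maximalIdeal T).spanFinrank := by
    have h1 := ringKrullDim_add_length_eq_ringKrullDim_of_isRegular rs hreg
    rw [hdim] at h1
    have h2 : (0 : WithBot ℕ∞) ≤ ringKrullDim (T ⧸ Ideal.ofList rs) := by
      have : Nontrivial (T ⧸ Ideal.ofList rs) := by
        rw [← hk]
        exact (RingHom.quotientKerEquivOfSurjective hφ).toEquiv.nontrivial
      exact ringKrullDim_nonneg_of_nontrivial
    have h3 : ((rs.length : ℕ) : WithBot ℕ∞) ≤ ((maximalIdeal T).spanFinrank : ℕ) := by
      rw [← h1]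
      exact le_add_of_nonneg_left h2
    exact_mod_cast h3
  let g : Q →+* AdicCompletion (maximalIdeal R) R :=
    (algebraMap R (AdicCompletion (maximalIdeal R) R)).comp π
  have hmR : maximalIdeal R = Ideal.map π (maximalIdeal Q) := by
    apply le_antisymm
    · intro r hr
      obtain ⟨q, rfl⟩ := hπ r
      apply Ideal.mem_map_of_mem
      rw [mem_maximalIdeal, mem_nonunits_iff] at hr ⊢
      exact fun h => hr (h.map π)
    · rw [Ideal.map_le_iff_le_comap]
      intro q hq
      have hne : Ideal.comap π (maximalIdeal R) ≠ ⊤ := Ideal.comap_ne_top π (Ideal.IsPrime.ne_top')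
      exact (IsLocalRing.eq_maximalIdeal (Ideal.comap_isMaximal_of_surjective π hπ)).ge hq
  have hN0 : Ideal.span ((s.image g : Finset _) : Set (AdicCompletion (maximalIdeal R) R)) =
      maximalIdeal (AdicCompletion (maximalIdeal R) R) ^ 2 := by
    have h1 : maximalIdeal (AdicCompletion (maximalIdeal R) R) = Ideal.map g (maximalIdeal Q) := by
      rw [AdicCompletion.maximalIdeal_eq_map, ← Ideal.map_map, ← hmR]
    rw [h1, ← Ideal.map_pow, ← hs, Ideal.map_span, Finset.coe_image]
  have key := nci_step _ T (AdicCompletion (maximalIdeal R) R) φ hdim hφ rs.toFinset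
    ((List.toFinset_card_le rs).trans hlen) (by
      rw [hk, List.coe_toFinset]) (s.image g) hN0
  rw [he'] at key
  have hc : (s.image g).card ≤ 28 := Finset.card_image_le.trans hs28
  nlinarith

end MP72Q2
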