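import Pool.Agent.Lib.MP_72c78a_ag_Q2.VerP
import Pool.Agent.Lib.MP_72c78a_ag_Q2.FP
import Pool.Agent.Lib.MP_72c78a_ag_Q2.Irr

/-!
# JOB PrF: `f` is prime in `S`

* `tc`: the `k`-algebra homomorphism `Φ : PP k → Polynomial (PP k)`, `X i ↦ C (X i) * T`. The coefficient of `T ^ d` in `Φ a`
  is `homogeneousComponent d a`; (lemma: `(Φ a).coeff d = homogeneousComponent d a`, by linearity on
  monomials, or prove only what is needed: (i) `(Φ a).coeff d` is homogeneous of degree `d`, (ii)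
  `(Φ a).coeff 0 = C (constantCoeff a)`, (iii) `Φ` is injective (`T ↦ 1`)).
* `Φ f` has trailing coefficient `2 (x ^ 9 + y ^ 9 + z ^ 9)`: `Φ` maps `p, t, q` (see `coe_fV`, `ev_map`) to
  `C p * T ^ 3`, `C t * T ^ 3`, `C q * T ^ 6`, and `ev (C p T^3) (C t T^3) (C q T^6) LL =
  T ^ 9 * (C (ev p t q L3) + T ^ 3 * g)`, `ev p t q L3 = 2 p ^ 3 - 6 p q + 6 t ^ 3 = 2 (x ^ 9 + y ^ 9 + z ^ 9)` (`ring`).
  (`LL = L3 ++ (L4 ++ (L5 ++ (L6 ++ L7)))`, `ev_append`, unfold `ev`, `ring`.)
* `f` is irreducible in `S`. Not a unit: otherwise `f * s = 1`, with `v s = a` (`S_surj`) `f a = v` in `PP` (`S_inj`), but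
  `f(0) = 0`, `v(0) ≠ 0`. If `f = g h` in `S`, write `v g = g'`, `w h = h'` with `v, w ∈ VV \ nV`, `g', h' ∈ PP`
  (`S_surj`), so `f v w = g' h'` in `PP` (`S_inj`). Apply `Φ` and take trailing coefficients
  (`Polynomial.trailingCoeff_mul`): `2 (x^9+y^9+z^9) * C (v(0)) * C (w(0)) = tc (Φ g') * tc (Φ h')`. By `prime_fermat` one of the
  two factors on the right, say `tc (Φ g')`, is a unit of `PP`, so a nonzero constant; it is homogeneous of
  degree `r = natTrailingDegree (Φ g')`, so `r = 0` and `g'(0) ≠ 0`: `g'` is a unit in `S` (`S_isUnit`), and so is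
  `g` (`v g = g'`).
* `S` is a unique factorization domain (`S_dom`, `S_ufd`), so irreducible elements are prime
  (`Irreducible.prime`).
-/

set_option autoImplicit false

namespace MP72Q2

open MvPolynomial IsLocalRing

universe u

section aux

variable (k : Type u) [Field k]

/-- the homomorphism `X i ↦ X i * T` -/
private noncomputable def Ph : PP k →+* Polynomial (PP k) :=
  eval₂Hom ((Polynomial.C : PP k →+* Polynomial (PP k)).comp (C : k →+* PP k))
    (fun i => Polynomial.C (X i : PP k) * Polynomial.X)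

private theorem Ph_C (c : k) : Ph k (C c) = Polynomial.C (C c) := by
  unfold Ph
  rw [eval₂Hom_C]
  rfl

private theorem Ph_X (i : Fin 3) : Ph k (X i) = Polynomial.C (X i) * Polynomial.X := by
  unfold Ph
  rw [eval₂Hom_X']

private theorem Ph_hom (a : PP k) : ∀ d, ((Ph k a).coeff d).IsHomogeneous d := by
  induction a using MvPolynomial.induction_on with
  | C c =>
    intro d
    rw [Ph_C, Polynomial.coeff_C]
    split_ifs with h
    · subst h
      exact isHomogeneous_C _ _
    · exact isHomogeneous_zero _ _ _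
  | add p q hp hq =>
    intro d
    rw [map_add, Polynomial.coeff_add]
    exact (hp d).add (hq d)
  | mul_X p i hp =>
    intro d
    rw [map_mul, Ph_X, ← mul_assoc]
    cases d with
    | zero =>
      rw [Polynomial.coeff_mul_X_zero]
      exact isHomogeneous_zero _ _ _
    | succ d =>
      rw [Polynomial.coeff_mul_X, Polynomial.coeff_mul_C]
      exact (hp d).mul (isHomogeneous_X k i)

private theorem Ph_zero (a : PP k) : (Ph k a).coeff 0 = C (constantCoeff a) := by
  have h : (Polynomial.constantCoeff (R := PP k)).comp (Ph k) =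
      (C : k →+* PP k).comp (constantCoeff : PP k →+* k) := by
    apply MvPolynomial.ringHom_ext
    · intro c
      rw [RingHom.comp_apply, RingHom.comp_apply, Ph_C, constantCoeff_C,
        Polynomial.constantCoeff_apply, Polynomial.coeff_C_zero]
    · intro i
      rw [RingHom.comp_apply, RingHom.comp_apply, Ph_X, constantCoeff_X, map_zero,
        Polynomial.constantCoeff_apply, Polynomial.coeff_mul_X_zero]
  exact DFunLike.congr_fun h a

private theorem Ph_inj : Function.Injective (Ph k) := by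
  have h : (Polynomial.evalRingHom (1 : PP k)).comp (Ph k) = RingHom.id (PP k) := by
    apply MvPolynomial.ringHom_ext
    · intro c
      rw [RingHom.comp_apply, Ph_C, Polynomial.coe_evalRingHom, Polynomial.eval_C]
      rfl
    · intro i
      rw [RingHom.comp_apply, Ph_X, Polynomial.coe_evalRingHom, Polynomial.eval_mul,
        Polynomial.eval_C, Polynomial.eval_X, mul_one]
      rfl
  intro a b hab
  have ha := DFunLike.congr_fun h a
  have hb := DFunLike.congr_fun h b
  rw [RingHom.comp_apply, RingHom.id_apply] at ha hb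
  rw [← ha, ← hb, hab]

/-- trailing coefficient for the grading -/
private noncomputable def tc (a : PP k) : PP k := (Ph k a).trailingCoeff

private theorem tc_mul (a b : PP k) : tc k (a * b) = tc k a * tc k b := by
  unfold tc
  rw [map_mul, Polynomial.trailingCoeff_mul]

private theorem tc_const (a : PP k) (ha : constantCoeff a ≠ 0) : tc k a = C (constantCoeff a) := by
  unfold tc
  have h0 : (Ph k a).coeff 0 ≠ 0 := by
    rw [Ph_zero]
    exact fun h => ha ((C_eq_zero (σ := Fin 3)).1 h)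
  have h1 : (Ph k a).natTrailingDegree = 0 :=
    Polynomial.natTrailingDegree_eq_zero_of_constantCoeff_ne_zero h0
  rw [Polynomial.trailingCoeff, h1, Ph_zero]

private theorem tc_unit (a : PP k) (ha : IsUnit (tc k a)) : constantCoeff a ≠ 0 := by
  obtain ⟨r, hr, h⟩ := isUnit_iff_eq_C_of_isReduced.1 ha
  have hne : tc k a ≠ 0 := ha.ne_zero
  have h1 : (tc k a).IsHomogeneous (Ph k a).natTrailingDegree := Ph_hom k a _
  have h2 : (tc k a).IsHomogeneous 0 := by
    rw [h]
    exact isHomogeneous_C _ _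
  have h3 : (Ph k a).natTrailingDegree = 0 := h1.inj_right h2 hne
  intro h0
  apply hne
  unfold tc
  rw [Polynomial.trailingCoeff, h3, Ph_zero, h0, map_zero]

/-- the homomorphism on the part of weight `n` -/
private theorem ev_weight (A B D : PP k) (n : ℕ) (l : List (ℤ × ℕ × ℕ × ℕ))
    (h : ∀ m ∈ l, m.2.1 + m.2.2.1 + 2 * m.2.2.2 = n) :
    ev (Polynomial.C A * Polynomial.X ^ 3) (Polynomial.C B * Polynomial.X ^ 3)
      (Polynomial.C D * Polynomial.X ^ 6) l =
      Polynomial.C (ev A B D l) * (Polynomial.X ^ 3) ^ n := by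
  induction l with
  | nil => simp [ev]
  | cons m l ih =>
    have ih' := ih fun a ha => h a (List.mem_cons_of_mem _ ha)
    have h0 := h m List.mem_cons_self
    simp only [ev, List.map_cons, List.sum_cons] at ih' ⊢
    rw [ih', ← h0]
    simp only [map_add, map_mul, map_pow, map_intCast]
    ring

private theorem Ph_f : ∃ g : Polynomial (PP k), Ph k (fV k : PP k) =
    Polynomial.X ^ 9 * (Polynomial.C (2 * (X 0 ^ 9 + X 1 ^ 9 + X 2 ^ 9)) +
      g * Polynomial.X) := by
  have e0 : Ph k (X 0 ^ 3 + X 1 ^ 3 + X 2 ^ 3) =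
      Polynomial.C (X 0 ^ 3 + X 1 ^ 3 + X 2 ^ 3) * Polynomial.X ^ 3 := by
    simp only [map_add, map_pow, Ph_X]
    ring
  have e1 : Ph k (X 0 * X 1 * X 2) = Polynomial.C (X 0 * X 1 * X 2) * Polynomial.X ^ 3 := by
    simp only [map_mul, Ph_X]
    ring
  have e2 : Ph k (X 0 ^ 3 * X 1 ^ 3 + X 1 ^ 3 * X 2 ^ 3 + X 2 ^ 3 * X 0 ^ 3) =
      Polynomial.C (X 0 ^ 3 * X 1 ^ 3 + X 1 ^ 3 * X 2 ^ 3 + X 2 ^ 3 * X 0 ^ 3) *
        Polynomial.X ^ 6 := by
    simp only [map_add, map_mul, map_pow, Ph_X]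
    ring
  have e3 : ev (X 0 ^ 3 + X 1 ^ 3 + X 2 ^ 3) (X 0 * X 1 * X 2)
      (X 0 ^ 3 * X 1 ^ 3 + X 1 ^ 3 * X 2 ^ 3 + X 2 ^ 3 * X 0 ^ 3) L3 =
      (2 * (X 0 ^ 9 + X 1 ^ 9 + X 2 ^ 9) : PP k) := by
    simp only [ev, L3, List.map_cons, List.map_nil, List.sum_cons, List.sum_nil]
    push_cast
    ring
  rw [coe_fV, ev_map, e0, e1, e2]
  simp only [LL, ev_append]
  rw [ev_weight k _ _ _ 3 L3 (by decide), ev_weight k _ _ _ 4 L4 (by decide),
    ev_weight k _ _ _ 5 L5 (by decide), ev_weight k _ _ _ 6 L6 (by decide),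
    ev_weight k _ _ _ 7 L7 (by decide), e3]
  generalize ev (X 0 ^ 3 + X 1 ^ 3 + X 2 ^ 3 : PP k) (X 0 * X 1 * X 2)
      (X 0 ^ 3 * X 1 ^ 3 + X 1 ^ 3 * X 2 ^ 3 + X 2 ^ 3 * X 0 ^ 3) L4 = a4
  generalize ev (X 0 ^ 3 + X 1 ^ 3 + X 2 ^ 3 : PP k) (X 0 * X 1 * X 2)
      (X 0 ^ 3 * X 1 ^ 3 + X 1 ^ 3 * X 2 ^ 3 + X 2 ^ 3 * X 0 ^ 3) L5 = a5
  generalize ev (X 0 ^ 3 + X 1 ^ 3 + X 2 ^ 3 : PP k) (X 0 * X 1 * X 2)
      (X 0 ^ 3 * X 1 ^ 3 + X 1 ^ 3 * X 2 ^ 3 + X 2 ^ 3 * X 0 ^ 3) L6 = a6
  generalize ev (X 0 ^ 3 + X 1 ^ 3 + X 2 ^ 3 : PP k) (X 0 * X 1 * X 2)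
      (X 0 ^ 3 * X 1 ^ 3 + X 1 ^ 3 * X 2 ^ 3 + X 2 ^ 3 * X 0 ^ 3) L7 = a7
  generalize (2 * (X 0 ^ 9 + X 1 ^ 9 + X 2 ^ 9) : PP k) = a3
  refine ⟨Polynomial.C a4 * Polynomial.X ^ 2 + Polynomial.C a5 * Polynomial.X ^ 5 +
    Polynomial.C a6 * Polynomial.X ^ 8 + Polynomial.C a7 * Polynomial.X ^ 11, ?_⟩
  ring

private theorem fV_zero : constantCoeff (fV k : PP k) = 0 := by
  have h1 := Ph_zero k (fV k : PP k)
  obtain ⟨g, hg⟩ := Ph_f k
  rw [hg, Polynomial.mul_coeff_zero, Polynomial.coeff_X_pow, if_neg (by norm_num), zero_mul] at h1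
  exact (C_eq_zero (σ := Fin 3)).1 h1.symm

private theorem tc_f [CharZero k] :
    tc k (fV k : PP k) = 2 * (X 0 ^ 9 + X 1 ^ 9 + X 2 ^ 9) := by
  obtain ⟨g, hg⟩ := Ph_f k
  have hne : (2 * (X 0 ^ 9 + X 1 ^ 9 + X 2 ^ 9) : PP k) ≠ 0 :=
    mul_ne_zero two_ne_zero (prime_fermat k).ne_zero
  have h0 : (Polynomial.C (2 * (X 0 ^ 9 + X 1 ^ 9 + X 2 ^ 9) : PP k) +
      g * Polynomial.X).coeff 0 = (2 * (X 0 ^ 9 + X 1 ^ 9 + X 2 ^ 9) : PP k) := by
    rw [Polynomial.coeff_add, Polynomial.coeff_C_zero, Polynomial.coeff_mul_X_zero, add_zero]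
  have h1 : (Polynomial.C (2 * (X 0 ^ 9 + X 1 ^ 9 + X 2 ^ 9) : PP k) +
      g * Polynomial.X).natTrailingDegree = 0 := by
    apply Polynomial.natTrailingDegree_eq_zero_of_constantCoeff_ne_zero
    rw [Polynomial.constantCoeff_apply, h0]
    exact hne
  have h2 : ((Polynomial.X : Polynomial (PP k)) ^ 9).trailingCoeff = 1 := by
    rw [Polynomial.trailingCoeff, Polynomial.natTrailingDegree_X_pow, Polynomial.coeff_X_pow_self]
  unfold tc
  rw [hg, Polynomial.trailingCoeff_mul, h2, one_mul, Polynomial.trailingCoeff, h1, h0]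

end aux

variable (k : Type u) [Field k] [CharZero k] (Q S : Type u) [CommRing Q] [CommRing S]
  [Algebra (VV k) Q] [IsLocalization.AtPrime Q (nV k)] [Algebra (PP k) S]
  [IsLocalization (MM k) S] [Algebra Q S] [IsScalarTower (VV k) Q S]

include Q in
theorem prime_f [IsLocalRing Q] [IsDomain S] : Prime (algebraMap (PP k) S (fV k)) := by
  let _ : Algebra k S := ((algebraMap (PP k) S).comp (algebraMap k (PP k))).toAlgebra
  have : IsScalarTower k (PP k) S := IsScalarTower.of_algebraMap_eq' rfl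
  have : UniqueFactorizationMonoid S := S_ufd k S
  have hinj : Function.Injective (algebraMap (PP k) S) := S_inj k S
  have hirr : Irreducible (algebraMap (PP k) S (fV k)) := by
    refine ⟨?_, ?_⟩
    · intro hu
      obtain ⟨s, hs⟩ := isUnit_iff_exists_inv.1 hu
      obtain ⟨v, a, hv, ha⟩ := S_surj k S s
      have h1 : algebraMap (PP k) S ((fV k : PP k) * a) = algebraMap (PP k) S v := by
        rw [map_mul, ← ha]
        calc algebraMap (PP k) S (fV k) * (algebraMap (PP k) S v * s)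
            = algebraMap (PP k) S v * (algebraMap (PP k) S (fV k) * s) := by ring
          _ = _ := by rw [hs, mul_one]
      have h2 := hinj h1
      apply hv
      rw [mem_nV, ← h2, map_mul, fV_zero, zero_mul]
    · intro g h hgh
      obtain ⟨v, g', hv, hg'⟩ := S_surj k S g
      obtain ⟨w, h', hw, hh'⟩ := S_surj k S h
      have h1 : algebraMap (PP k) S ((fV k : PP k) * (v * w)) =
          algebraMap (PP k) S (g' * h') := by
        rw [map_mul, map_mul, map_mul, ← hg', ← hh', hgh]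
        ring
      have h2 := hinj h1
      have hv0 : constantCoeff (v : PP k) ≠ 0 := fun h0 => hv ((mem_nV k v).2 h0)
      have hw0 : constantCoeff (w : PP k) ≠ 0 := fun h0 => hw ((mem_nV k w).2 h0)
      have h3 := congrArg (tc k) h2
      rw [tc_mul, tc_mul, tc_mul, tc_f, tc_const k _ hv0, tc_const k _ hw0] at h3
      have hF : Irreducible (X 0 ^ 9 + X 1 ^ 9 + X 2 ^ 9 : PP k) := (prime_fermat k).irreducible
      have hu : IsUnit (C (2 * (constantCoeff (v : PP k) * constantCoeff (w : PP k))) : PP k) := by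
        apply IsUnit.map
        exact isUnit_iff_ne_zero.2 (mul_ne_zero two_ne_zero (mul_ne_zero hv0 hw0))
      have h4 : (X 0 ^ 9 + X 1 ^ 9 + X 2 ^ 9 : PP k) *
          C (2 * (constantCoeff (v : PP k) * constantCoeff (w : PP k))) = tc k g' * tc k h' := by
        rw [← h3, map_mul, map_mul, map_ofNat]
        ring
      have h5 : Irreducible (tc k g' * tc k h') := by
        rw [← h4]
        exact (irreducible_mul_isUnit hu).2 hF
      rcases h5.isUnit_or_isUnit rfl with h6 | h6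
      · left
        have h7 := S_isUnit k Q S g' (tc_unit k g' h6)
        rw [← hg'] at h7
        exact isUnit_of_mul_isUnit_right h7
      · right
        have h7 := S_isUnit k Q S h' (tc_unit k h' h6)
        rw [← hh'] at h7
        exact isUnit_of_mul_isUnit_right h7
  exact hirr.prime

end MP72Q2
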