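import Pool.Agent.Lib.MP_72c78a_ag_Q2.Pd
import Pool.Agent.Lib.MP_72c78a_ag_Q2.Form
import Pool.Agent.Lib.MP_72c78a_ag_Q2.PrF
import Pool.Agent.Lib.MP_72c78a_ag_Q2.NotCI
import Pool.Agent.Lib.MP_72c78a_ag_Q2.Asm3

/-!
# The main theorem
-/

set_option autoImplicit false

namespace MP72Q2

open MvPolynomial IsLocalRing

universe u

section generic

variable (k : Type u) [Field k] [CharZero k] (Q S : Type u) [CommRing Q] [CommRing S]
  [Algebra (VV k) Q] [IsLocalization.AtPrime Q (nV k)] [Algebra (PP k) S]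
  [IsLocalization (MM k) S] [Algebra Q S] [IsScalarTower (VV k) Q S] [Algebra k Q]
  [IsScalarTower k (VV k) Q] [Algebra k S] [IsScalarTower k (PP k) S]

omit [CharZero k] [IsLocalization.AtPrime Q (nV k)] [IsLocalization (MM k) S] in
theorem frame_F (Fr : Frame k Q S) (hX : ∀ i, Fr.X i = algebraMap (PP k) S (X i)) :
    algebraMap (PP k) S (fV k) = Fr.F := by
  rw [coe_fV, ev_map, Frame.F]
  simp only [map_add, map_mul, map_pow, Frame.sp, Frame.st, Frame.sq, hX]

include S in
theorem main_generic [IsLocalRing Q] {R : Type u} [CommRing R] [IsLocalRing R] [Algebra k R]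
    (π : Q →ₐ[k] R) (hπ : Function.Surjective π)
    (hker : RingHom.ker (π : Q →+* R) = Ideal.span {algebraMap (VV k) Q (fV k)}) :
    CIdimLE R (Derivation k R R) 0 ∧ ¬ IsCI R := by
  have hdom : IsDomain S := S_dom k S
  have hnoe : IsNoetherianRing Q := Q_noeth k Q
  have hfin : Module.Finite Q S := S_finite k Q S
  obtain ⟨Fr, hX, hdd⟩ := exists_frame k Q S
  set f : Q := algebraMap (VV k) Q (fV k) with hf
  have hfe : f = ev (algebraMap (VV k) Q (pV k)) (algebraMap (VV k) Q (tV k))
      (algebraMap (VV k) Q (qV k)) LL := by rw [hf, fV, ev_map]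
  have hfS : algebraMap Q S f = Fr.F := by rw [hf, VQS, frame_F k Q S Fr hX]
  have hpS : algebraMap Q S (algebraMap (VV k) Q (pV k)) = Fr.sp := by
    rw [VQS, coe_pV]; simp only [map_add, map_pow, Frame.sp, hX]
  have htS : algebraMap Q S (algebraMap (VV k) Q (tV k)) = Fr.st := by
    rw [VQS, coe_tV]; simp only [map_mul, Frame.st, hX]
  have hqS : algebraMap Q S (algebraMap (VV k) Q (qV k)) = Fr.sq := by
    rw [VQS, coe_qV]; simp only [map_add, map_mul, map_pow, Frame.sq, hX]
  have hM : Ideal.map (algebraMap Q S) (maximalIdeal Q) = Ideal.span (Set.range Fr.X) ^ 3 := by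
    rw [Q_map k Q S]
    congr 3
    funext i
    exact (hX i).symm
  have P : ∀ i j l : Fin 3, i ≠ j → i ≠ l → j ≠ l → Par (Fr.X i) (Fr.X j) Fr.F := by
    intro i j l h1 h2 h3
    have := par k S i j l h1 h2 h3 (fV k : PP k) (eval_fV k l)
    rwa [frame_F k Q S Fr hX, ← hX, ← hX] at this
  have hker' : ∀ q, π q = 0 ↔ ev (algebraMap (VV k) Q (pV k)) (algebraMap (VV k) Q (tV k))
      (algebraMap (VV k) Q (qV k)) LL ∣ q := by
    intro q
    rw [← hfe, ← Ideal.mem_span_singleton, ← hker, RingHom.mem_ker]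
    rfl
  obtain ⟨φ, Ψ, hφ, hΨ, hex⟩ := Fr.asm hM _ _ _ hpS htS hqS (P 0 1 2 (by decide) (by decide)
    (by decide)) (P 1 2 0 (by decide) (by decide) (by decide)) (P 2 0 1 (by decide) (by decide)
    (by decide)) π hπ hker'
  have hm : ∀ i j l, algebraMap (VV k) Q (cub k i j l) ∈ maximalIdeal Q := by
    intro i j l
    rw [Q_max k Q]
    exact Ideal.subset_span ⟨i, j, l, rfl⟩
  have hfm : f ∈ maximalIdeal Q ^ 3 := by
    rw [hfe]
    refine ev_mem _ _ _ ?_ ?_ ?_ 3 LL (by decide)
    · simp only [pV, map_add]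
      exact add_mem (add_mem (hm _ _ _) (hm _ _ _)) (hm _ _ _)
    · exact hm _ _ _
    · simp only [qV, map_add, map_mul, pow_two]
      exact add_mem (add_mem (Ideal.mul_mem_mul (hm _ _ _) (hm _ _ _))
        (Ideal.mul_mem_mul (hm _ _ _) (hm _ _ _))) (Ideal.mul_mem_mul (hm _ _ _) (hm _ _ _))
  have hQdom : IsDomain Q := (Q_inj k Q S).isDomain
  have hf0 : f ≠ 0 := by
    intro h0
    have := (P 0 1 2 (by decide) (by decide) (by decide)).f0
    rw [← hfS, h0, map_zero] at this
    exact this rfl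
  refine ⟨pd_main (π : Q →+* R) hπ f (mem_nonZeroDivisors_of_ne_zero hf0)
    (Ideal.pow_le_self (by norm_num) hfm) hker _ φ hφ Ψ hΨ hex,
    not_ci k Q (π : Q →+* R) hπ f hker (Ideal.pow_le_pow_right (by norm_num) hfm)⟩

include S in
theorem prime_fQ [IsLocalRing Q] : (Ideal.span {algebraMap (VV k) Q (fV k)}).IsPrime := by
  have hdom : IsDomain S := S_dom k S
  obtain ⟨Fr, hX, -⟩ := exists_frame k Q S
  have hp := prime_f k Q S
  have hfS : algebraMap Q S (algebraMap (VV k) Q (fV k)) = algebraMap (PP k) S (fV k) := VQS k Q S _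
  have hf0 : algebraMap (VV k) Q (fV k) ≠ 0 := by
    intro h0
    rw [h0, map_zero] at hfS
    exact hp.ne_zero hfS.symm
  rw [Ideal.span_singleton_prime hf0]
  refine ⟨hf0, fun h => hp.not_unit (by rw [← hfS]; exact h.map _), fun a b hab => ?_⟩
  have h1 : algebraMap (PP k) S (fV k) ∣ algebraMap Q S a * algebraMap Q S b := by
    rw [← hfS, ← map_mul]; exact map_dvd _ hab
  rcases hp.dvd_or_dvd h1 with h | h
  · left; rw [← hfS] at h; exact Fr.dvd_of_dvd h
  · right; rw [← hfS] at h; exact Fr.dvd_of_dvd h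

end generic

/-- **Main theorem.** For every field `k` of characteristic zero there are a polynomial ring
`k[x_1, …, x_m]`, a prime ideal `q` and a prime ideal `I` of the local ring `k[x_1, …, x_m]_q` such that
for the local domain `R = k[x_1, …, x_m]_q ⧸ I` the CI-dimension of the module of derivations is at most
zero, but `R` is not a complete intersection. -/
theorem main (k : Type u) [Field k] [CharZero k] :
    ∃ (m : ℕ) (q : Ideal (MvPolynomial (Fin m) k)) (_ : q.IsPrime)
      (I : Ideal (Localization.AtPrime q)) (_ : I.IsPrime)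
      (R : Type u) (_ : CommRing R) (_ : IsLocalRing R) (_ : Algebra k R),
      Nonempty (R ≃ₐ[k] (Localization.AtPrime q ⧸ I)) ∧
      CIdimLE R (Derivation k R R) 0 ∧ ¬ IsCI R := by
  let Q := Localization.AtPrime (nV k)
  let S := Localization (MM k)
  let : Algebra Q S := inferInstanceAs (Algebra (Localization (nV k).primeCompl)
    (Localization (Algebra.algebraMapSubmonoid (PP k) (nV k).primeCompl)))
  have tow : IsScalarTower (VV k) Q S := by
    refine IsScalarTower.of_algebraMap_eq fun v => ?_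
    exact (IsLocalization.map_eq (M := (nV k).primeCompl) (S := Localization (nV k).primeCompl)
      (Q := Localization (Algebra.algebraMapSubmonoid (PP k) (nV k).primeCompl))
      (T := Algebra.algebraMapSubmonoid (PP k) (nV k).primeCompl)
      (g := algebraMap (VV k) (PP k)) ((nV k).primeCompl.le_comap_map) v).symm
  have hess : Algebra.EssFiniteType k Q := Q_ess k Q
  have hpr : (Ideal.span {algebraMap (VV k) Q (fV k)}).IsPrime := prime_fQ k Q S
  obtain ⟨m, q, hq, I, π, hI, -, hπ, hker⟩ := form_main k Q (Ideal.span {algebraMap (VV k) Q (fV k)})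
  have hIp : I.IsPrime := hI hpr
  have hloc : IsLocalRing (Localization.AtPrime q ⧸ I) :=
    IsLocalRing.of_surjective' (Ideal.Quotient.mk I) Ideal.Quotient.mk_surjective
  refine ⟨m, q, hq, I, hIp, Localization.AtPrime q ⧸ I, inferInstance, hloc, inferInstance,
    ⟨AlgEquiv.refl⟩, ?_⟩
  exact main_generic k Q S π hπ hker

end MP72Q2
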