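import Pool.Agent.Lib.MP_72c78a_ag_Q2.Defs

/-!
# JOB Pd: from a presentation to the CI-dimension

Let `π : Q → R` be surjective with kernel `(f)`, `f` a nonzerodivisor in the maximal ideal of the
noetherian local ring `Q`. The `R`-module `M` has, as a `Q`-module via `π`, the free resolution
`0 → Q ^ 4 → Q ^ 4 → M → 0` (the maps `φ` and `Ψ`; `Ψ` is `π`-semilinear).

Proof. Quasi-deformation: `R' = R` (with `Algebra.id`), `Q = Q` with `π.toAlgebra`, `rs = [f]`.
`RingTheory.Sequence.IsRegular Q [f]`: `f` is a nonzerodivisor, and `⊤ ≠ (f) • ⊤` because `f` is in the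
maximal ideal (`RingTheory.Sequence.isRegular_cons_iff`/`IsRegular` is a structure: weakly regular and
`top_ne_smul`). `Ideal.ofList [f] = Ideal.span {f}`. `R` is noetherian (`isNoetherianRing_of_surjective`).
Projective dimension: `R ⊗[R] M ≃ M` (`TensorProduct.lid`, as `R`-modules), so the object is isomorphic
to `(ModuleCat.restrictScalars π).obj (ModuleCat.of R M)`
(`CategoryTheory.hasProjectiveDimensionLT_of_iso` or the similarly named lemma; `Functor.mapIso`,
`LinearEquiv.toModuleIso`). On `N = (ModuleCat.restrictScalars π).obj (ModuleCat.of R M)` the map `Ψ` is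
`Q`-linear (`q • n = π q • n` by definition), so
`0 → ModuleCat.of Q (Fin 4 → Q) → ModuleCat.of Q (Fin 4 → Q) → N → 0` is a short exact sequence
(`ShortComplex.ShortExact`, `ModuleCat.shortExact...`; see the proof of
`Pool/Agent/Lib/MP_463376_co/P4d.lean` for a model), the first two terms are projective, and
`ShortExact.hasProjectiveDimensionLT_X₃_iff` (or `hasProjectiveDimensionLT_X₃`) gives
`HasProjectiveDimensionLT N 2`, that is `HasProjectiveDimensionLE N 1`.
-/

set_option autoImplicit false

namespace MP72Q2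

open IsLocalRing CategoryTheory TensorProduct

universe u

theorem pd_main {R Q : Type u} [CommRing R] [IsLocalRing R] [CommRing Q] [IsLocalRing Q]
    [IsNoetherianRing Q] (π : Q →+* R) (hπ : Function.Surjective π) (f : Q)
    (hf : f ∈ nonZeroDivisors Q) (hfm : f ∈ maximalIdeal Q) (hker : RingHom.ker π = Ideal.span {f})
    (M : Type u) [AddCommGroup M] [Module R M]
    (φ : (Fin 4 → Q) →ₗ[Q] (Fin 4 → Q)) (hφ : Function.Injective φ)
    (Ψ : (Fin 4 → Q) →ₛₗ[π] M) (hΨ : Function.Surjective Ψ)
    (hex : ∀ σ, Ψ σ = 0 ↔ ∃ w, φ w = σ) : CIdimLE R M 0 := by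
  have hnoeth : IsNoetherianRing R := isNoetherianRing_of_surjective Q R π hπ
  have hsm : IsSMulRegular Q f := by
    intro a b hab
    have h1 : (a - b) * f = 0 := by
      have h2 : f * a = f * b := hab
      rw [sub_mul, mul_comm a f, mul_comm b f, h2, sub_self]
    exact sub_eq_zero.mp ((mem_nonZeroDivisors_iff_right.mp hf) _ h1)
  have hreg : RingTheory.Sequence.IsRegular Q [f] := by
    refine ⟨(RingTheory.Sequence.isWeaklyRegular_singleton_iff Q f).mpr hsm, ?_⟩
    rw [Ideal.ofList_singleton, smul_eq_mul, Ideal.mul_top]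
    intro h
    have h1 : (maximalIdeal Q) = ⊤ := by
      rw [eq_top_iff, h, Ideal.span_singleton_le_iff_mem]
      exact hfm
    exact (maximalIdeal.isMaximal Q).ne_top h1
  let D : QuasiDeformation R :=
    { R' := R
      Q := Q
      algebra' := Algebra.id R
      algebraQ := π.toAlgebra
      flat := inferInstance
      isLocalHom := ⟨fun a h => h⟩
      surjective := hπ
      rs := [f]
      regular := hreg
      ker_eq := by
        rw [Ideal.ofList_singleton]
        exact hker }
  refine ⟨D, ?_⟩
  let N : ModuleCat.{u} Q := (ModuleCat.restrictScalars π).obj (ModuleCat.of R M)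
  let Ψ' : (Fin 4 → Q) →ₗ[Q] N :=
    { toFun := fun v => Ψ v
      map_add' := fun v w => Ψ.map_add v w
      map_smul' := fun q v => Ψ.map_smulₛₗ q v }
  have hcomp : Ψ' ∘ₗ φ = 0 := LinearMap.ext fun z => (hex (φ z)).mpr ⟨z, rfl⟩
  let S := ModuleCat.shortComplexOfCompEqZero φ Ψ' hcomp
  have hexact : Function.Exact φ Ψ' := fun σ => by
    constructor
    · intro h
      exact (hex σ).mp h
    · rintro ⟨w, hw⟩
      exact (hex σ).mpr ⟨w, hw⟩
  have hSe : S.ShortExact := ModuleCat.shortComplex_shortExact S hexact hφ hΨ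
  have hpS : Projective S.X₂ := by
    change Projective (ModuleCat.of Q (Fin 4 → Q))
    rw [← IsProjective.iff_projective]
    infer_instance
  have hpS1 : HasProjectiveDimensionLT S.X₁ 1 := by
    rw [← projective_iff_hasProjectiveDimensionLT_one]
    change Projective (ModuleCat.of Q (Fin 4 → Q))
    rw [← IsProjective.iff_projective]
    infer_instance
  have hN : HasProjectiveDimensionLT S.X₃ 2 :=
    (hSe.hasProjectiveDimensionLT_X₃_iff 0 hpS).mpr hpS1
  have hN' : HasProjectiveDimensionLT N 2 := hN
  have e : N ≅ (ModuleCat.restrictScalars π).obj (ModuleCat.of R (R ⊗[R] M)) :=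
    (ModuleCat.restrictScalars π).mapIso (LinearEquiv.toModuleIso (TensorProduct.lid R M).symm)
  exact hasProjectiveDimensionLT_of_iso e 2

end MP72Q2
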