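import Mathlib

/-!
# The third Veronese subring and its localisation: definitions
-/

set_option autoImplicit false

namespace MP72Q2

open MvPolynomial IsLocalRing

universe u

variable (k : Type u) [Field k]

/-- The polynomial ring in three variables. -/
abbrev PP : Type u := MvPolynomial (Fin 3) k

/-- The weights of the variables in `ℤ / 3`. -/
def w3 : Fin 3 → ZMod 3 := fun _ => 1

/-- The third Veronese subring: polynomials all of whose monomials have degree divisible by `3`. -/
noncomputable def VV : Subalgebra k (PP k) where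
  carrier := {a | IsWeightedHomogeneous w3 a 0}
  mul_mem' := fun ha hb => by simpa using ha.mul hb
  add_mem' := fun ha hb => ha.add hb
  algebraMap_mem' := fun r => isWeightedHomogeneous_C _ r

theorem mem_VV (a : PP k) : a ∈ VV k ↔ IsWeightedHomogeneous w3 a 0 := Iff.rfl

/-- The ideal of the polynomials without constant coefficient. -/
noncomputable def nV : Ideal (VV k) :=
  RingHom.ker ((constantCoeff (R := k) (σ := Fin 3)).comp (VV k).val.toRingHom)

theorem mem_nV (v : VV k) : v ∈ nV k ↔ constantCoeff (v : PP k) = 0 := Iff.rfl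

instance : (nV k).IsPrime := RingHom.ker_isPrime _

/-- The multiplicative set `VV \ nV` in the polynomial ring. -/
noncomputable abbrev MM : Submonoid (PP k) :=
  Algebra.algebraMapSubmonoid (PP k) (nV k).primeCompl

theorem mem_MM (a : PP k) : a ∈ MM k ↔ a ∈ VV k ∧ constantCoeff a ≠ 0 := by
  constructor
  · rintro ⟨v, hv, rfl⟩
    exact ⟨v.2, hv⟩
  · rintro ⟨h1, h2⟩
    exact ⟨⟨a, h1⟩, h2, rfl⟩

/-- The cubic monomials. -/
noncomputable def cub (i j l : Fin 3) : VV k :=
  ⟨X i * X j * X l, by
    have := ((isWeightedHomogeneous_X k w3 i).mul (isWeightedHomogeneous_X k w3 j)).mul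
      (isWeightedHomogeneous_X k w3 l)
    rw [mem_VV]
    exact this⟩

end MP72Q2
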