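import Pool.Agent.Lib.MP_72c78a_ag_Q2.Ver

/-!
# JOB VerA: the Veronese subring `VV` of `k[x, y, z]`

* `VV_gen`: `VV` is generated by the cubic monomials. An element of `VV` is the sum of its terms
  `monomial m c` (`MvPolynomial.support_sum_monomial_coeff` or `as_sum`), `m` in the support, and
  `3 ∣ m 0 + m 1 + m 2` (because it is weighted homogeneous of weight `0 : ZMod 3`; `Finsupp.weight`,
  `ZMod.natCast_eq_zero_iff`). A monomial of degree divisible by `3` is in the adjoin: strong induction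
  on the degree: degree `0` is a constant, otherwise the degree is at least three, so three variables (with
  multiplicity) can be split off, `monomial m c = X i * X j * X l * monomial m' c`.
* `VV_finiteType`: from `VV_gen` (finite set).
* `nV_eq`: every element of `nV` is in the ideal generated by the cubic monomials: by `VV_gen` and
  `Algebra.adjoin_induction`: every `v : VV` is `algebraMap c + w` with `w` in the ideal; the constant
  coefficient is `c`.
* `PP_finite`: `PP` is generated over `VV` by `1`, `X i`, `X i * X j`: every monomial is the product of a monomial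
  of degree divisible by `3` and one of degree `0, 1, 2`.
-/

set_option autoImplicit false

namespace MP72Q2

open MvPolynomial IsLocalRing

universe u

variable (k : Type u) [Field k]

private def VerA_dg (m : Fin 3 →₀ ℕ) : ℕ := m 0 + m 1 + m 2

private theorem VerA_dg_add (a b : Fin 3 →₀ ℕ) : VerA_dg (a + b) = VerA_dg a + VerA_dg b := by
  simp only [VerA_dg, Finsupp.add_apply]
  ring

private theorem VerA_dg_single (i : Fin 3) : VerA_dg (Finsupp.single i 1) = 1 := by
  fin_cases i <;> simp [VerA_dg]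

private theorem VerA_weight (m : Fin 3 →₀ ℕ) : Finsupp.weight w3 m = ((VerA_dg m : ℕ) : ZMod 3) := by
  rw [Finsupp.weight_apply, Finsupp.sum_fintype _ _ (fun i => by simp), Fin.sum_univ_three]
  simp [w3, VerA_dg]

private theorem VerA_weight_zero (m : Fin 3 →₀ ℕ) : Finsupp.weight w3 m = 0 ↔ 3 ∣ VerA_dg m := by
  rw [VerA_weight, ZMod.natCast_eq_zero_iff]

private theorem VerA_mono {m : Fin 3 →₀ ℕ} (h : 3 ∣ VerA_dg m) (c : k) : monomial m c ∈ VV k := by
  rw [mem_VV]
  exact isWeightedHomogeneous_monomial w3 m c ((VerA_weight_zero m).2 h)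

private theorem VerA_dvd {v : PP k} (hv : v ∈ VV k) {m : Fin 3 →₀ ℕ} (h : coeff m v ≠ 0) :
    3 ∣ VerA_dg m :=
  (VerA_weight_zero m).1 (((mem_VV k v).1 hv) h)

private theorem VerA_one {m : Fin 3 →₀ ℕ} {n : ℕ} (h : VerA_dg m = n + 1) :
    ∃ (i : Fin 3) (m' : Fin 3 →₀ ℕ), m = Finsupp.single i 1 + m' ∧ VerA_dg m' = n := by
  have h1 : ∃ i : Fin 3, 1 ≤ m i := by
    by_contra hc
    push Not at hc
    have h2 := hc 0
    have h3 := hc 1
    have h4 := hc 2
    unfold VerA_dg at h
    omega
  obtain ⟨i, hi⟩ := h1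
  have h2 : Finsupp.single i 1 + (m - Finsupp.single i 1) = m :=
    add_tsub_cancel_of_le (Finsupp.single_le_iff.2 hi)
  refine ⟨i, m - Finsupp.single i 1, h2.symm, ?_⟩
  have h3 := VerA_dg_add (Finsupp.single i 1) (m - Finsupp.single i 1)
  rw [h2, VerA_dg_single, h] at h3
  omega

private theorem VerA_three {m : Fin 3 →₀ ℕ} {n : ℕ} (h : VerA_dg m = n + 3) :
    ∃ (i j l : Fin 3) (m' : Fin 3 →₀ ℕ),
      m = Finsupp.single i 1 + (Finsupp.single j 1 + (Finsupp.single l 1 + m')) ∧ VerA_dg m' = n := by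
  obtain ⟨i, m1, h1, h2⟩ := VerA_one (n := n + 2) h
  obtain ⟨j, m2, h3, h4⟩ := VerA_one (n := n + 1) h2
  obtain ⟨l, m3, h5, h6⟩ := VerA_one (n := n) h4
  exact ⟨i, j, l, m3, by rw [h1, h3, h5], h6⟩

private theorem VerA_mul_X (i : Fin 3) (m : Fin 3 →₀ ℕ) (c : k) :
    (monomial (Finsupp.single i 1 + m) c : PP k) = X i * monomial m c := by
  unfold X
  rw [monomial_mul, one_mul]

private theorem VerA_gen_mono (n : ℕ) : ∀ (m : Fin 3 →₀ ℕ) (c : k), VerA_dg m = 3 * n →
    (monomial m c : PP k) ∈ (Algebra.adjoin k {v : VV k | ∃ i j l, v = cub k i j l}).map (VV k).val := by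
  induction n with
  | zero =>
    intro m c h
    have h0 : m = 0 := by
      unfold VerA_dg at h
      ext i
      fin_cases i
      · show m 0 = 0
        omega
      · show m 1 = 0
        omega
      · show m 2 = 0
        omega
    rw [h0]
    exact Subalgebra.algebraMap_mem _ c
  | succ n ih =>
    intro m c h
    obtain ⟨i, j, l, m', h1, h2⟩ := VerA_three (m := m) (n := 3 * n) (by rw [h]; ring)
    have h3 := ih m' c h2
    have h4 : (X i * X j * X l : PP k) ∈
        (Algebra.adjoin k {v : VV k | ∃ i j l, v = cub k i j l}).map (VV k).val :=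
      ⟨cub k i j l, Algebra.subset_adjoin ⟨i, j, l, rfl⟩, rfl⟩
    have h5 := Subalgebra.mul_mem _ h4 h3
    rw [h1, VerA_mul_X, VerA_mul_X, VerA_mul_X]
    have e1 : (X i * (X j * (X l * monomial m' c)) : PP k) = X i * X j * X l * monomial m' c := by ring
    rw [e1]
    exact h5

private theorem VerA_finite : {v : VV k | ∃ i j l, v = cub k i j l}.Finite := by
  refine (Set.finite_range (fun p : Fin 3 × Fin 3 × Fin 3 => cub k p.1 p.2.1 p.2.2)).subset ?_
  rintro v ⟨i, j, l, rfl⟩
  exact ⟨(i, j, l), rfl⟩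

theorem VV_gen : Algebra.adjoin k {v : VV k | ∃ i j l, v = cub k i j l} = ⊤ := by
  rw [eq_top_iff]
  intro v _
  have h1 : (v : PP k) ∈ (Algebra.adjoin k {v : VV k | ∃ i j l, v = cub k i j l}).map (VV k).val := by
    rw [(v : PP k).as_sum]
    refine Subalgebra.sum_mem _ (fun m hm => ?_)
    obtain ⟨n, hn⟩ := VerA_dvd k v.2 (mem_support_iff.1 hm)
    exact VerA_gen_mono k n m _ hn
  obtain ⟨x, hx, hxv⟩ := h1
  have h2 : x = v := Subtype.ext hxv
  rw [← h2]
  exact hx

theorem VV_finiteType : Algebra.FiniteType k (VV k) := by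
  exact ⟨Subalgebra.fg_def.2 ⟨_, VerA_finite k, VV_gen k⟩⟩

theorem nV_eq : nV k = Ideal.span {v : VV k | ∃ i j l, v = cub k i j l} := by
  have hle : Ideal.span {v : VV k | ∃ i j l, v = cub k i j l} ≤ nV k := by
    rw [Ideal.span_le]
    rintro v ⟨i, j, l, rfl⟩
    show constantCoeff ((cub k i j l : VV k) : PP k) = 0
    show constantCoeff (X i * X j * X l : PP k) = 0
    simp
  refine le_antisymm ?_ hle
  intro v hv
  have h1 : ∀ x : VV k, x ∈ Algebra.adjoin k {v : VV k | ∃ i j l, v = cub k i j l} →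
      ∃ c : k, ∃ w ∈ Ideal.span {v : VV k | ∃ i j l, v = cub k i j l}, x = algebraMap k (VV k) c + w := by
    intro x hx
    induction hx using Algebra.adjoin_induction with
    | mem x hx => exact ⟨0, x, Ideal.subset_span hx, by rw [map_zero, zero_add]⟩
    | algebraMap r => exact ⟨r, 0, Ideal.zero_mem _, by rw [add_zero]⟩
    | add x y _ _ ihx ihy =>
      obtain ⟨c, w, hw, hx⟩ := ihx
      obtain ⟨c', w', hw', hy⟩ := ihy
      refine ⟨c + c', w + w', Ideal.add_mem _ hw hw', ?_⟩
      rw [hx, hy, map_add]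
      ring
    | mul x y _ _ ihx ihy =>
      obtain ⟨c, w, hw, hx⟩ := ihx
      obtain ⟨c', w', hw', hy⟩ := ihy
      refine ⟨c * c', algebraMap k (VV k) c * w' + (algebraMap k (VV k) c' + w') * w,
        Ideal.add_mem _ (Ideal.mul_mem_left _ _ hw') (Ideal.mul_mem_left _ _ hw), ?_⟩
      rw [hx, hy, map_mul]
      ring
  obtain ⟨c, w, hw, hv2⟩ := h1 v (by rw [VV_gen k]; trivial)
  have hw0 : constantCoeff (w : PP k) = 0 := hle hw
  have hv0 : constantCoeff (v : PP k) = 0 := hv
  have h3 : (v : PP k) = C c + (w : PP k) := by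
    rw [hv2]
    rfl
  rw [h3, map_add, hw0, add_zero, constantCoeff_C] at hv0
  rw [hv0, map_zero, zero_add] at hv2
  rw [hv2]
  exact hw

theorem PP_finite : Module.Finite (VV k) (PP k) := by
  have hfin : (({1} : Set (PP k)) ∪ Set.range (fun i : Fin 3 => (X i : PP k)) ∪
      Set.range (fun p : Fin 3 × Fin 3 => (X p.1 * X p.2 : PP k))).Finite :=
    ((Set.finite_singleton _).union (Set.finite_range _)).union (Set.finite_range _)
  refine Module.finite_def.2 (Submodule.fg_def.2 ⟨_, hfin, ?_⟩)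
  rw [eq_top_iff]
  intro p _
  rw [p.as_sum]
  refine Submodule.sum_mem _ (fun m _ => ?_)
  have hsm : ∀ (m' : Fin 3 →₀ ℕ) (c : k) (q : PP k) (h : 3 ∣ VerA_dg m'),
      (⟨monomial m' c, VerA_mono k h c⟩ : VV k) • q = monomial m' c * q := by
    intro m' c q h
    rfl
  have hr : VerA_dg m % 3 = 0 ∨ VerA_dg m % 3 = 1 ∨ VerA_dg m % 3 = 2 := by omega
  rcases hr with hr | hr | hr
  · have h1 := hsm m (coeff m p) 1 (by omega)
    rw [mul_one] at h1
    rw [← h1]
    exact Submodule.smul_mem _ _ (Submodule.subset_span (Or.inl (Or.inl rfl)))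
  · obtain ⟨i, m', h1, h2⟩ := VerA_one (m := m) (n := 3 * (VerA_dg m / 3)) (by omega)
    have h3 := hsm m' (coeff m p) (X i) (by omega)
    have h4 : (monomial m (coeff m p) : PP k) = monomial m' (coeff m p) * X i := by
      generalize coeff m p = c
      rw [h1, VerA_mul_X, mul_comm]
    rw [h4, ← h3]
    exact Submodule.smul_mem _ _ (Submodule.subset_span (Or.inl (Or.inr ⟨i, rfl⟩)))
  · obtain ⟨i, m', h1, h2⟩ := VerA_one (m := m) (n := 3 * (VerA_dg m / 3) + 1) (by omega)
    obtain ⟨j, m'', h5, h6⟩ := VerA_one (m := m') (n := 3 * (VerA_dg m / 3)) h2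
    have h3 := hsm m'' (coeff m p) (X i * X j) (by omega)
    have h4 : (monomial m (coeff m p) : PP k) = monomial m'' (coeff m p) * (X i * X j) := by
      generalize coeff m p = c
      rw [h1, h5, VerA_mul_X, VerA_mul_X]
      ring
    rw [h4, ← h3]
    exact Submodule.smul_mem _ _ (Submodule.subset_span (Or.inr ⟨(i, j), rfl⟩))

end MP72Q2
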