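import Pool.Agent.Lib.MP_72c78a_ag_Q2.VerL

/-!
# JOB VerD: partial derivatives on `S`, and derivations of `Q`

* `exists_dd`: the derivation `pderiv c` of `PP` extends to its localisation `S`. Lift the ring homomorphism
  `PP → TrivSqZeroExt S S`, `a ↦ inl a + inr (pderiv c a)` (`TrivSqZeroExt`), to `S` (`IsLocalization.lift`: an element
  is a unit if its `fst` is, `TrivSqZeroExt.isUnit_iff_isUnit_fst`); its second component is the derivation
  (the first one is the identity by `IsLocalization.ringHom_ext`). Or: `d (a / m) = (m d a - a d m) / m ^ 2`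
  by hand.
* `ver_dd_e`: with `comp i = weightedHomogeneousComponent w3 i`: for polynomials
  `pderiv c (comp i a) = comp (i - 1) (pderiv c a)` (check on monomials: `pderiv_monomial`; the derivative of a
  monomial of weight `j` has weight `j - 1` or vanishes). For `s : S` with `v s = a` (`S_surj`): apply `d = dd c` to
  `v * e i s = comp i a` : `v * d (e i s) = comp (i-1) (d a) - e i s * d v`, and
  `v * e (i-1) (d s) = e (i-1) (v d s) = e (i-1) (d a - s * d v) = comp (i-1) (d a) - e (i-1) (d v * s)`, where
  `e (i-1) (d v * s) = d v * e i s` by `hmul` because `d v` has weight `-1`. Cancel the unit `v`.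
* `ver_ext`: `D₁`, `D₂` agree on the images of the cubic monomials. The set of `v : VV k` with `D₁ v = D₂ v` is a
  subalgebra containing the `cub i j l`, so everything (`VV_gen`; `Algebra.adjoin_induction`). For `q : Q` with
  `v q = w` (`Q_surj`): `v • D q + q • D v = D w` for `D = D₁, D₂`, subtract and cancel the unit `v` (`Q_unit`;
  a unit acts injectively on a module).
-/

set_option autoImplicit false

namespace MP72Q2

open MvPolynomial IsLocalRing

universe u

variable (k : Type u) [Field k] (Q S : Type u) [CommRing Q] [CommRing S] [Algebra (VV k) Q]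
  [IsLocalization.AtPrime Q (nV k)] [Algebra (PP k) S] [IsLocalization (MM k) S]
  [Algebra Q S] [IsScalarTower (VV k) Q S] [Algebra k Q] [IsScalarTower k (VV k) Q]
  [Algebra k S] [IsScalarTower k (PP k) S]

/-- The partial derivatives of `S`. -/
theorem exists_dd : ∃ dd : Fin 3 → Derivation k S S, ∀ c (a : PP k),
    dd c (algebraMap (PP k) S a) = algebraMap (PP k) S (pderiv c a) := by
  have h : ∀ c : Fin 3, ∃ d : Derivation k S S, ∀ a : PP k,
      d (algebraMap (PP k) S a) = algebraMap (PP k) S (pderiv c a) := by
    intro c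
    let δ : Derivation k (PP k) S := (Algebra.linearMap (PP k) S).compDer (pderiv c)
    have hu : ∀ x : MM k, IsUnit (algebraMap (PP k) (Module.End (PP k) S) x) :=
      fun x => IsLocalizedModule.map_units (S := MM k) (Algebra.linearMap (PP k) S) x
    let g : KaehlerDifferential k S →ₗ[PP k] S :=
      IsLocalizedModule.lift (MM k) (KaehlerDifferential.map k k (PP k) S)
        δ.liftKaehlerDifferential hu
    refine ⟨(g.extendScalarsOfIsLocalization (MM k) S).compDer (KaehlerDifferential.D k S),
      fun a => ?_⟩
    change g (KaehlerDifferential.D k S (algebraMap (PP k) S a)) = _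
    have h1 : KaehlerDifferential.D k S (algebraMap (PP k) S a) =
        KaehlerDifferential.map k k (PP k) S (KaehlerDifferential.D k (PP k) a) := by
      rw [KaehlerDifferential.map_D]
    rw [h1, IsLocalizedModule.lift_apply, Derivation.liftKaehlerDifferential_comp_D]
    rfl
  choose d hd using h
  exact ⟨d, hd⟩

/-- The partial derivatives and the components. -/
private theorem pderiv_comp (i : ZMod 3) (c : Fin 3) (a : PP k) :
    pderiv c (weightedHomogeneousComponent w3 i a) =
      weightedHomogeneousComponent w3 (i - 1) (pderiv c a) := by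
  ext m
  rw [coeff_pderiv, coeff_weightedHomogeneousComponent, coeff_weightedHomogeneousComponent,
    coeff_pderiv]
  have h : Finsupp.weight w3 (m + Finsupp.single c 1) = Finsupp.weight w3 m + 1 := by
    rw [map_add, Finsupp.weight_single]
    simp [w3]
  rw [h]
  by_cases h1 : Finsupp.weight w3 m + 1 = i
  · rw [if_pos h1, if_pos (by rw [← h1, add_sub_cancel_right])]
  · rw [if_neg h1, if_neg (fun h2 => h1 (by rw [h2, sub_add_cancel])), zero_mul]

theorem ver_dd_e (e : ZMod 3 → (S →ₗ[Q] S)) (he : ∀ i (a : PP k), e i (algebraMap (PP k) S a) =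
      algebraMap (PP k) S (weightedHomogeneousComponent w3 i a))
    (hfrac : ∀ (i : ZMod 3) (s : S) (v : VV k) (a : PP k),
      algebraMap (PP k) S v * s = algebraMap (PP k) S a →
      algebraMap (PP k) S v * e i s = algebraMap (PP k) S (weightedHomogeneousComponent w3 i a))
    (hmul : ∀ (i j : ZMod 3) (a b : S), e i a = a → e (i + j) (a * b) = a * e j b)
    (dd : Fin 3 → Derivation k S S)
    (hdd : ∀ c (a : PP k), dd c (algebraMap (PP k) S a) = algebraMap (PP k) S (pderiv c a))
    (i : ZMod 3) (c : Fin 3) (s : S) : dd c (e i s) = e (i - 1) (dd c s) := by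
  obtain ⟨v, a, hv, hs⟩ := S_surj k S s
  have hv0 : weightedHomogeneousComponent w3 0 (v : PP k) = v :=
    weightedHomogeneousComponent_eq_self v.2
  have h1 := congrArg (dd c) (hfrac i s v a hs)
  rw [Derivation.leibniz, hdd c v, hdd, pderiv_comp, ← he (i - 1) (pderiv c a), ← hdd c a, ← hs,
    Derivation.leibniz, map_add, hdd] at h1
  have h2 : e (i - 1) (algebraMap (PP k) S v • dd c s) =
      algebraMap (PP k) S v * e (i - 1) (dd c s) := by
    have h3 := hmul 0 (i - 1) (algebraMap (PP k) S v) (dd c s) (by rw [he, hv0])
    rw [zero_add] at h3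
    exact h3
  have h4 : e (i - 1) (s • algebraMap (PP k) S (pderiv c (v : PP k))) =
      algebraMap (PP k) S (pderiv c (v : PP k)) * e i s := by
    have h5 := hmul (-1) i (algebraMap (PP k) S (pderiv c (v : PP k))) s (by
      rw [he]
      have h6 := pderiv_comp k 0 c (v : PP k)
      rw [hv0, zero_sub] at h6
      rw [← h6])
    rw [neg_add_eq_sub] at h5
    rw [smul_eq_mul, mul_comm s]
    exact h5
  rw [h2, h4] at h1
  have h7 := S_unit k S v hv
  apply h7.mul_left_cancel
  rw [smul_eq_mul, smul_eq_mul] at h1
  linear_combination h1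

theorem ver_ext (M : Type u) [AddCommGroup M] [Module Q M] [Module k M] (D₁ D₂ : Derivation k Q M)
    (h : ∀ i j l, D₁ (algebraMap (VV k) Q (cub k i j l)) =
      D₂ (algebraMap (VV k) Q (cub k i j l))) : D₁ = D₂ := by
  have hV : ∀ v : VV k, D₁ (algebraMap (VV k) Q v) = D₂ (algebraMap (VV k) Q v) := by
    intro v
    have hv : v ∈ Algebra.adjoin k {v : VV k | ∃ i j l, v = cub k i j l} := by
      rw [VV_gen]
      exact Algebra.mem_top
    induction hv using Algebra.adjoin_induction with
    | mem x hx =>
      obtain ⟨i, j, l, rfl⟩ := hx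
      exact h i j l
    | algebraMap r =>
      rw [← IsScalarTower.algebraMap_apply k (VV k) Q, Derivation.map_algebraMap,
        Derivation.map_algebraMap]
    | add x y _ _ hx hy => rw [map_add, map_add, map_add, hx, hy]
    | mul x y _ _ hx hy => rw [map_mul, Derivation.leibniz, Derivation.leibniz, hx, hy]
  ext q
  obtain ⟨v, w, hv, hq⟩ := Q_surj k Q q
  have h1 := hV w
  rw [← hq, Derivation.leibniz, Derivation.leibniz, hV v] at h1
  exact ((Q_unit k Q v hv).smul_left_cancel).1 (add_right_cancel h1)

end MP72Q2
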