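import Pool.Agent.Lib.MP_72c78a_ag_Q2.VerL

/-!
# JOB VerE: the `ℤ / 3`-grading of the localisation `S`

`comp i = weightedHomogeneousComponent w3 i : PP → PP`.
* `comp_mul`: if `a` is weighted homogeneous of weight `i` then `comp (i + j) (a b) = a * comp j b`: decompose
  `b = ∑ comp j b` over `j : ZMod 3` (`comp_sum`; `MvPolynomial.sum_weightedHomogeneousComponent` is a `finsum`:
  or compare coefficients); each `a * comp j b` is homogeneous of weight `i + j`
  (`IsWeightedHomogeneous.mul`), `weightedHomogeneousComponent_of_mem`.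
* `exists_e`: `comp i` is `VV`-linear by `comp_mul` with `i = 0`. Localise: `S` is the localised module of `PP` at
  `(nV k).primeCompl` (`isLocalizedModule_iff_isLocalization`), `IsLocalizedModule.map`, and a
  `VV`-linear map between `Q`-modules is `Q`-linear (`LinearMap.extendScalarsOfIsLocalization`). Elementary
  alternative: for `s : S` choose `v, a` with `v s = a` (`S_surj`) and put `e i s = comp i a / v`; well defined, since
  `v a' = v' a` gives `v comp i a' = v' comp i a`.
* the rest: for `s : S` with `v s = a`, `v ∈ VV \ nV` (`S_surj`): `v * e i s = e i (v s) = comp i a` (`Q`-linearity,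
  `v` is the image of an element of `Q`, `VQS`), and `v` is a unit (`S_unit`). So each identity follows from the
  same identity for polynomials.
  `e_mul`: `e i a = a`; write `v a = a'`, `w b = b'`: then `comp i a' = a'` (`S_inj`), so `a'` is homogeneous of weight `i`.
  `e_mem`: `e 0 s = comp 0 a / v` with `comp 0 a ∈ VV`.
-/

set_option autoImplicit false

namespace MP72Q2

open MvPolynomial IsLocalRing

universe u

variable (k : Type u) [Field k] (Q S : Type u) [CommRing Q] [CommRing S] [Algebra (VV k) Q]
  [IsLocalization.AtPrime Q (nV k)] [Algebra (PP k) S] [IsLocalization (MM k) S]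
  [Algebra Q S] [IsScalarTower (VV k) Q S]

omit [IsLocalization.AtPrime Q (nV k)] [IsLocalization (MM k) S] in
private theorem VerE_VQS (v : VV k) :
    algebraMap Q S (algebraMap (VV k) Q v) = algebraMap (PP k) S v :=
  (IsScalarTower.algebraMap_apply (VV k) Q S v).symm

private theorem VerE_S_surj (s : S) : ∃ (v : VV k) (a : PP k), v ∉ nV k ∧
    algebraMap (PP k) S v * s = algebraMap (PP k) S a := by
  let _ : Algebra k S := ((algebraMap (PP k) S).comp (algebraMap k (PP k))).toAlgebra
  have : IsScalarTower k (PP k) S := IsScalarTower.of_algebraMap_eq fun _ => rfl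
  exact S_surj k S s

private theorem VerE_S_unit (v : VV k) (hv : v ∉ nV k) : IsUnit (algebraMap (PP k) S v) := by
  let _ : Algebra k S := ((algebraMap (PP k) S).comp (algebraMap k (PP k))).toAlgebra
  have : IsScalarTower k (PP k) S := IsScalarTower.of_algebraMap_eq fun _ => rfl
  exact S_unit k S v hv

private theorem VerE_S_inj : Function.Injective (algebraMap (PP k) S) := by
  let _ : Algebra k S := ((algebraMap (PP k) S).comp (algebraMap k (PP k))).toAlgebra
  have : IsScalarTower k (PP k) S := IsScalarTower.of_algebraMap_eq fun _ => rfl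
  exact S_inj k S

private theorem VerE_Q_surj (q : Q) : ∃ (v w : VV k), v ∉ nV k ∧
    algebraMap (VV k) Q v * q = algebraMap (VV k) Q w := by
  let _ : Algebra k Q := ((algebraMap (VV k) Q).comp (algebraMap k (VV k))).toAlgebra
  have : IsScalarTower k (VV k) Q := IsScalarTower.of_algebraMap_eq fun _ => rfl
  exact Q_surj k Q q

private theorem VerE_Q_unit (v : VV k) (hv : v ∉ nV k) : IsUnit (algebraMap (VV k) Q v) := by
  let _ : Algebra k Q := ((algebraMap (VV k) Q).comp (algebraMap k (VV k))).toAlgebra
  have : IsScalarTower k (VV k) Q := IsScalarTower.of_algebraMap_eq fun _ => rfl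
  exact Q_unit k Q v hv

private theorem VerE_sum (b : PP k) :
    ∑ j : ZMod 3, weightedHomogeneousComponent w3 j b = b := by
  have h := sum_weightedHomogeneousComponent (w3 : Fin 3 → ZMod 3) b
  rw [finsum_eq_sum_of_fintype] at h
  exact h

theorem comp_mul {i j : ZMod 3} {a : PP k} (ha : IsWeightedHomogeneous w3 a i) (b : PP k) :
    weightedHomogeneousComponent w3 (i + j) (a * b) =
      a * weightedHomogeneousComponent w3 j b := by
  classical
  have h1 : a * b = ∑ l : ZMod 3, a * weightedHomogeneousComponent w3 l b := by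
    rw [← Finset.mul_sum, VerE_sum]
  rw [h1, map_sum, Finset.sum_eq_single j]
  · exact (ha.mul (weightedHomogeneousComponent_isWeightedHomogeneous j b)).weightedHomogeneousComponent_same
  · intro l _ hl
    refine (ha.mul (weightedHomogeneousComponent_isWeightedHomogeneous l b)).weightedHomogeneousComponent_ne
      (i + j) ?_
    intro h2
    exact hl (add_left_cancel h2).symm
  · intro h2
    exact absurd (Finset.mem_univ j) h2

theorem comp_comp (i j : ZMod 3) (a : PP k) :
    weightedHomogeneousComponent w3 i (weightedHomogeneousComponent w3 j a) =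
      if i = j then weightedHomogeneousComponent w3 i a else 0 := by
  have h := weightedHomogeneousComponent_isWeightedHomogeneous (w := w3) j a
  split_ifs with h1
  · rw [h1]
    exact h.weightedHomogeneousComponent_same
  · exact h.weightedHomogeneousComponent_ne i h1

/-- the components as linear maps over the Veronese ring -/
private noncomputable def VerE_comp (i : ZMod 3) : PP k →ₗ[VV k] PP k where
  toFun := fun a => weightedHomogeneousComponent w3 i a
  map_add' := fun a b => map_add _ a b
  map_smul' := fun v a => by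
    have h : IsWeightedHomogeneous w3 (v : PP k) 0 := v.2
    have h2 := comp_mul k (j := i) h a
    rw [zero_add] at h2
    have h3 : v • a = (v : PP k) * a := rfl
    have h4 : v • weightedHomogeneousComponent w3 i a
      = (v : PP k) * weightedHomogeneousComponent w3 i a := rfl
    rw [RingHom.id_apply, h3, h4]
    exact h2

/-- The projections of `S`. -/
theorem exists_e : ∃ e : ZMod 3 → (S →ₗ[Q] S), ∀ i (a : PP k), e i (algebraMap (PP k) S a) =
    algebraMap (PP k) S (weightedHomogeneousComponent w3 i a) := by
  have hL : IsLocalizedModule (nV k).primeCompl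
      (IsScalarTower.toAlgHom (VV k) (PP k) S).toLinearMap :=
    isLocalizedModule_iff_isLocalization.2 inferInstance
  refine ⟨fun i => LinearMap.extendScalarsOfIsLocalization (nV k).primeCompl Q
    (IsLocalizedModule.map (nV k).primeCompl (IsScalarTower.toAlgHom (VV k) (PP k) S).toLinearMap
      (IsScalarTower.toAlgHom (VV k) (PP k) S).toLinearMap (VerE_comp k i)), fun i a => ?_⟩
  have h := IsLocalizedModule.map_apply (nV k).primeCompl
    (IsScalarTower.toAlgHom (VV k) (PP k) S).toLinearMap
    (IsScalarTower.toAlgHom (VV k) (PP k) S).toLinearMap (VerE_comp k i) a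
  exact h

variable {Q S} (e : ZMod 3 → (S →ₗ[Q] S)) (he : ∀ i (a : PP k), e i (algebraMap (PP k) S a) =
    algebraMap (PP k) S (weightedHomogeneousComponent w3 i a))

include he

theorem e_frac (i : ZMod 3) (s : S) (v : VV k) (a : PP k)
    (h : algebraMap (PP k) S v * s = algebraMap (PP k) S a) :
    algebraMap (PP k) S v * e i s = algebraMap (PP k) S (weightedHomogeneousComponent w3 i a) := by
  have h1 : ∀ t : S, algebraMap (PP k) S v * t = (algebraMap (VV k) Q v) • t := by
    intro t
    rw [Algebra.smul_def, VerE_VQS k Q S v]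
  rw [h1, ← map_smul, ← h1, h, he]

theorem ver_e_idem (i : ZMod 3) (s : S) : e i (e i s) = e i s := by
  obtain ⟨v, a, hv, h⟩ := VerE_S_surj k S s
  have h1 := e_frac k e he i s v a h
  have h2 := e_frac k e he i (e i s) v _ h1
  rw [comp_comp, if_pos rfl, ← h1] at h2
  exact (VerE_S_unit k S v hv).mul_left_cancel h2

theorem ver_e_X (i : Fin 3) : e 1 (algebraMap (PP k) S (X i)) = algebraMap (PP k) S (X i) := by
  rw [he]
  have h : IsWeightedHomogeneous w3 (X i : PP k) (1 : ZMod 3) := isWeightedHomogeneous_X k w3 i
  rw [h.weightedHomogeneousComponent_same]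

theorem ver_e_alg (q : Q) : e 0 (algebraMap Q S q) = algebraMap Q S q := by
  obtain ⟨v, w, hv, h⟩ := VerE_Q_surj k Q q
  have h1 : algebraMap (PP k) S v * algebraMap Q S q = algebraMap (PP k) S w := by
    rw [← VerE_VQS k Q S v, ← map_mul, h, VerE_VQS k Q S w]
  have h2 := e_frac k e he 0 _ v _ h1
  have h3 : IsWeightedHomogeneous w3 (w : PP k) 0 := w.2
  rw [h3.weightedHomogeneousComponent_same, ← h1] at h2
  exact (VerE_S_unit k S v hv).mul_left_cancel h2

theorem ver_e_mem (s : S) : ∃ q, algebraMap Q S q = e 0 s := by
  obtain ⟨v, a, hv, h⟩ := VerE_S_surj k S s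
  have h1 := e_frac k e he 0 s v a h
  obtain ⟨w, hw⟩ : ∃ w : VV k, (w : PP k) = weightedHomogeneousComponent w3 0 a :=
    ⟨⟨_, weightedHomogeneousComponent_isWeightedHomogeneous 0 a⟩, rfl⟩
  obtain ⟨u, hu⟩ := VerE_Q_unit k Q v hv
  refine ⟨↑u⁻¹ * algebraMap (VV k) Q w, ?_⟩
  apply (VerE_S_unit k S v hv).mul_left_cancel
  rw [h1, ← hw, ← VerE_VQS k Q S v, ← VerE_VQS k Q S w, ← map_mul, ← hu, Units.mul_inv_cancel_left]

theorem ver_e_mul (i j : ZMod 3) (a b : S) (ha : e i a = a) : e (i + j) (a * b) = a * e j b := by
  obtain ⟨v, a', hv, h⟩ := VerE_S_surj k S a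
  obtain ⟨w, b', hw, h'⟩ := VerE_S_surj k S b
  have h1 := e_frac k e he i a v a' h
  rw [ha, h] at h1
  have h2 : a' = weightedHomogeneousComponent w3 i a' := VerE_S_inj k S h1
  have h3 : IsWeightedHomogeneous w3 a' i := by
    rw [h2]
    exact weightedHomogeneousComponent_isWeightedHomogeneous i a'
  have h4 := e_frac k e he j b w b' h'
  have hvw : ((v * w : VV k) : PP k) = (v : PP k) * (w : PP k) := rfl
  have h5 : algebraMap (PP k) S ((v * w : VV k) : PP k) * (a * b) = algebraMap (PP k) S (a' * b') := by
    rw [hvw, map_mul, map_mul, ← h, ← h']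
    ring
  have h6 := e_frac k e he (i + j) (a * b) (v * w) (a' * b') h5
  rw [comp_mul k h3, hvw, map_mul (algebraMap (PP k) S) (v : PP k) (w : PP k),
    map_mul (algebraMap (PP k) S) a', ← h, ← h4] at h6
  have h7 : algebraMap (PP k) S v * (algebraMap (PP k) S w * e (i + j) (a * b)) =
      algebraMap (PP k) S v * (algebraMap (PP k) S w * (a * e j b)) := by
    rw [← mul_assoc, h6]
    ring
  exact (VerE_S_unit k S w hw).mul_left_cancel ((VerE_S_unit k S v hv).mul_left_cancel h7)

end MP72Q2
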