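import Pool.Agent.Lib.MP_72c78a_ag_Q2.VerE
import Pool.Agent.Lib.MP_72c78a_ag_Q2.VerD
import Pool.Agent.Lib.MP_72c78a_ag_Q2.Frame

/-!
# The frame of the Veronese subring
-/

set_option autoImplicit false

namespace MP72Q2

open MvPolynomial IsLocalRing

universe u

variable (k : Type u) [Field k] (Q S : Type u) [CommRing Q] [CommRing S] [Algebra (VV k) Q]
  [IsLocalization.AtPrime Q (nV k)] [Algebra (PP k) S] [IsLocalization (MM k) S]
  [Algebra Q S] [IsScalarTower (VV k) Q S] [Algebra k Q] [IsScalarTower k (VV k) Q]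
  [Algebra k S] [IsScalarTower k (PP k) S]

/-- The frame. -/
theorem exists_frame : ∃ Fr : Frame k Q S, (∀ i, Fr.X i = algebraMap (PP k) S (X i)) ∧
    ∀ c (a : PP k), Fr.dd c (algebraMap (PP k) S a) = algebraMap (PP k) S (pderiv c a) := by
  obtain ⟨e, he⟩ := exists_e k Q S
  obtain ⟨dd, hdd⟩ := exists_dd k S
  refine ⟨{
    X := fun i => algebraMap (PP k) S (X i)
    e := e
    dd := dd
    inj := Q_inj k Q S
    tower := fun c => ?_
    e_mem := ver_e_mem k e he
    e_alg := ver_e_alg k e he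
    e_idem := ver_e_idem k e he
    e_X := ver_e_X k e he
    e_mul := ver_e_mul k e he
    dd_X := fun i j => ?_
    dd_e := fun i c s => ver_dd_e k Q S e he (e_frac k e he) (ver_e_mul k e he) dd hdd i c s
    ext := fun M _ _ _ D₁ D₂ h => ver_ext k Q M D₁ D₂ fun i j l => h _ ⟨i, j, l, ?_⟩ },
    fun i => rfl, hdd⟩
  · rw [IsScalarTower.algebraMap_apply k (VV k) Q, VQS, IsScalarTower.algebraMap_apply k (PP k) S]
    rfl
  · rw [hdd, pderiv_X, Pi.single_apply]
    split_ifs with h1 h2 h2
    · exact map_one _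
    · exact absurd h1.symm h2
    · exact absurd h2.symm h1
    · exact map_zero _
  · rw [VQS]
    simp [cub]

end MP72Q2
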