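import Pool.Agent.Lib.MP_72c78a_ag_Q2.VerA

/-!
# JOB VerL: the localisations `Q` of `VV` at the origin and `S` of `PP`

`Q` is the local ring of `VV` at `nV`, `S` the localisation of `PP` at the image `MM` of `VV \ nV`.
* `S_dom`: localisation of a domain at a submonoid without zero (`IsLocalization.isDomain_of_le_nonZeroDivisors`).
* `S_ufd`: `UniqueFactorizationMonoid.of_isLocalization`.
* `Q_noeth`: `VV` is noetherian (finite type over a field), `IsLocalization.isNoetherianRing`.
* `Q_ess`: `Algebra.EssFiniteType.of_isLocalization`, `.comp`.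
* `S_finite`: `Module.Finite.of_isLocalization` from `PP_finite`.
* `Q_inj`: `Q → S` is injective: `VV → PP` is injective, localisation is exact (if `v / s` maps to `0` then
  `v = 0` in the domain `PP`).
* `Q_max`: the maximal ideal of `Q` is generated by the cubic monomials
  (`IsLocalization.AtPrime.map_eq_maximalIdeal`, `nV_eq`, `Ideal.map_span`).
* `Q_map`: its image generates `(x, y, z) ^ 3` in `S`: `(span (range X)) ^ 3` is generated by the products of
  three variables (`Ideal.span_mul_span`, `Set.range`).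
* `S_surj`: every `s : S` is a fraction: `∃ v ∈ VV \ nV, a, v s = a` (`IsLocalization.surj`).
* `Q_surj`: the same for `Q`.
* `VQS`: the two maps `VV → S` agree (this is `IsScalarTower.algebraMap_apply`).
-/

set_option autoImplicit false

namespace MP72Q2

open MvPolynomial IsLocalRing

universe u

variable (k : Type u) [Field k] (Q S : Type u) [CommRing Q] [CommRing S] [Algebra (VV k) Q]
  [IsLocalization.AtPrime Q (nV k)] [Algebra (PP k) S] [IsLocalization (MM k) S]
  [Algebra Q S] [IsScalarTower (VV k) Q S] [Algebra k Q] [IsScalarTower k (VV k) Q]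
  [Algebra k S] [IsScalarTower k (PP k) S]

private theorem VerL_MM_le : MM k ≤ nonZeroDivisors (PP k) := by
  intro a ha
  rw [mem_MM] at ha
  apply mem_nonZeroDivisors_of_ne_zero
  intro h0
  exact ha.2 (by rw [h0, map_zero])

include k in
theorem S_dom : IsDomain S :=
  IsLocalization.isDomain_of_le_nonZeroDivisors (M := MM k) S (VerL_MM_le k)

include k in
theorem S_ufd [IsDomain S] : UniqueFactorizationMonoid S :=
  UniqueFactorizationMonoid.of_isLocalization (MM k) S

include k in
theorem Q_noeth : IsNoetherianRing Q := by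
  haveI : Algebra.FiniteType k (VV k) := VV_finiteType k
  haveI : IsNoetherianRing (VV k) := Algebra.FiniteType.isNoetherianRing k (VV k)
  exact IsLocalization.isNoetherianRing (nV k).primeCompl Q inferInstance

theorem Q_ess : Algebra.EssFiniteType k Q := by
  haveI : Algebra.FiniteType k (VV k) := VV_finiteType k
  haveI : Algebra.EssFiniteType (VV k) Q :=
    Algebra.EssFiniteType.of_isLocalization Q (nV k).primeCompl
  exact Algebra.EssFiniteType.comp k (VV k) Q

include k in
theorem S_finite : Module.Finite Q S := by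
  haveI : Module.Finite (VV k) (PP k) := PP_finite k
  exact Module.Finite.of_isLocalization (VV k) (PP k) (nV k).primeCompl

private theorem VerL_VQS (v : VV k) :
    algebraMap Q S (algebraMap (VV k) Q v) = algebraMap (PP k) S v := by
  rw [← IsScalarTower.algebraMap_apply (VV k) Q S v]
  rfl

private theorem VerL_S_inj : Function.Injective (algebraMap (PP k) S) :=
  IsLocalization.injective S (VerL_MM_le k)

include k in
theorem Q_inj : Function.Injective (algebraMap Q S) := by
  rw [injective_iff_map_eq_zero]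
  intro q hq
  obtain ⟨⟨w, v⟩, hv⟩ := IsLocalization.surj (nV k).primeCompl q
  have h1 : algebraMap (PP k) S (w : PP k) = 0 := by
    rw [← VerL_VQS k Q S w, ← hv, map_mul, hq, zero_mul]
  have h2 : (w : PP k) = 0 := by
    apply VerL_S_inj k S
    rw [h1, map_zero]
  have h3 : w = 0 := Subtype.ext h2
  have h4 : q * algebraMap (VV k) Q (v : VV k) = 0 := by
    rw [hv]
    show algebraMap (VV k) Q w = 0
    rw [h3, map_zero]
  have h5 : IsUnit (algebraMap (VV k) Q (v : VV k)) := IsLocalization.map_units Q v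
  exact (h5.mul_left_eq_zero).mp h4

theorem VQS (v : VV k) : algebraMap Q S (algebraMap (VV k) Q v) = algebraMap (PP k) S v :=
  VerL_VQS k Q S v

theorem Q_max [IsLocalRing Q] :
    maximalIdeal Q = Ideal.span {m : Q | ∃ i j l, m = algebraMap (VV k) Q (cub k i j l)} := by
  have h1 : (nV k).map (algebraMap (VV k) Q) = maximalIdeal Q :=
    IsLocalization.AtPrime.map_eq_maximalIdeal (nV k) Q
  rw [← h1, nV_eq, Ideal.map_span]
  congr 1
  ext m
  constructor
  · rintro ⟨v, ⟨i, j, l, rfl⟩, rfl⟩
    exact ⟨i, j, l, rfl⟩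
  · rintro ⟨i, j, l, rfl⟩
    exact ⟨_, ⟨i, j, l, rfl⟩, rfl⟩

private theorem VerL_cub (i j l : Fin 3) : algebraMap Q S (algebraMap (VV k) Q (cub k i j l)) =
    algebraMap (PP k) S (X i) * algebraMap (PP k) S (X j) * algebraMap (PP k) S (X l) := by
  rw [VerL_VQS k Q S, ← map_mul, ← map_mul]
  rfl

theorem Q_map [IsLocalRing Q] : Ideal.map (algebraMap Q S) (maximalIdeal Q) =
    Ideal.span (Set.range fun i => algebraMap (PP k) S (X i)) ^ 3 := by
  rw [Q_max k Q, Ideal.map_span, pow_three', Ideal.span_mul_span', Ideal.span_mul_span']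
  congr 1
  ext m
  constructor
  · rintro ⟨q, ⟨i, j, l, rfl⟩, rfl⟩
    rw [VerL_cub]
    exact Set.mul_mem_mul (Set.mul_mem_mul ⟨i, rfl⟩ ⟨j, rfl⟩) ⟨l, rfl⟩
  · rintro ⟨q, ⟨a, ⟨i, rfl⟩, b, ⟨j, rfl⟩, rfl⟩, c, ⟨l, rfl⟩, rfl⟩
    exact ⟨_, ⟨i, j, l, rfl⟩, VerL_cub k Q S i j l⟩

theorem S_surj (s : S) : ∃ (v : VV k) (a : PP k), v ∉ nV k ∧
    algebraMap (PP k) S v * s = algebraMap (PP k) S a := by
  obtain ⟨⟨a, b, hb⟩, h⟩ := IsLocalization.surj (MM k) s
  obtain ⟨v, hv, hvb⟩ := hb
  refine ⟨v, a, hv, ?_⟩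
  have h1 : s * algebraMap (PP k) S b = algebraMap (PP k) S a := h
  have h2 : (v : PP k) = b := hvb
  rw [h2, mul_comm]
  exact h1

theorem Q_surj (q : Q) : ∃ (v w : VV k), v ∉ nV k ∧
    algebraMap (VV k) Q v * q = algebraMap (VV k) Q w := by
  obtain ⟨⟨w, v, hv⟩, h⟩ := IsLocalization.surj (nV k).primeCompl q
  refine ⟨v, w, hv, ?_⟩
  rw [mul_comm]
  exact h

theorem Q_unit (v : VV k) (hv : v ∉ nV k) : IsUnit (algebraMap (VV k) Q v) :=
  IsLocalization.map_units Q (⟨v, hv⟩ : (nV k).primeCompl)

theorem S_unit (v : VV k) (hv : v ∉ nV k) : IsUnit (algebraMap (PP k) S v) :=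
  IsLocalization.map_units S (⟨(v : PP k), ⟨v, hv, rfl⟩⟩ : MM k)

theorem S_inj : Function.Injective (algebraMap (PP k) S) :=
  VerL_S_inj k S

end MP72Q2
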